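import Pool.Agent.Rem2.Stmts

/-!
# MP_df1a54_co: the Alexandrov-Fenchel inequality for permanents

Proof of Shenfeld and van Handel (Bochner trick), see section 1 of `H27.md`.
-/

set_option autoImplicit false

namespace Pool.Agent.Rem2

open Finset

namespace AF

/-- The spectral step in terms of the matrix `m` and the positive vector `z`. -/
theorem core (h2 : Stmt_SPEC) {ι : Type} [Fintype ι] [DecidableEq ι] (m : ι → ι → ℝ) (z : ι → ℝ)
    (hs : ∀ i j, m i j = m j i) (hp : ∀ i j, i ≠ j → 0 < m i j) (hd : ∀ i, 0 ≤ m i i)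
    (hz : ∀ i, 0 < z i) (hZ : ∀ i, 0 < ∑ j, m i j * z j)
    (hq : ∀ x : ι → ℝ, ∑ i, ∑ j, x i * m i j * x j ≤
      ∑ i, z i * (∑ j, m i j * x j) ^ 2 / (∑ j, m i j * z j))
    (x : ι → ℝ) (hx : ∑ i, x i * ∑ j, m i j * z j = 0) :
    ∑ i, ∑ j, x i * m i j * x j ≤ 0 := by
  obtain ⟨r, hr, hr2⟩ : ∃ r : ι → ℝ, (∀ i, 0 < r i) ∧
      ∀ i, r i ^ 2 = (∑ j, m i j * z j) / z i :=
    ⟨fun i => Real.sqrt ((∑ j, m i j * z j) / z i),
      fun i => Real.sqrt_pos.2 (div_pos (hZ i) (hz i)),
      fun i => Real.sq_sqrt (div_pos (hZ i) (hz i)).le⟩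
  have hr0 : ∀ i, r i ≠ 0 := fun i => (hr i).ne'
  have e1 : ∀ ξ : ι → ℝ, ∀ i, ∑ j, m i j / (r i * r j) * ξ j =
      (∑ j, m i j * (ξ j / r j)) / r i := by
    intro ξ i
    rw [Finset.sum_div]
    refine Finset.sum_congr rfl fun j _ => ?_
    have := hr0 i
    have := hr0 j
    field_simp
  have e2 : ∀ ξ : ι → ℝ, ∑ i, ∑ j, ξ i * (m i j / (r i * r j)) * ξ j =
      ∑ i, ∑ j, (ξ i / r i) * m i j * (ξ j / r j) := by
    intro ξ
    refine Finset.sum_congr rfl fun i _ => Finset.sum_congr rfl fun j _ => ?_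
    have := hr0 i
    have := hr0 j
    field_simp
  have key := h2 ι (fun i j => m i j / (r i * r j)) (fun i => r i * z i)
    (fun i j => by rw [hs i j, mul_comm (r i)])
    (fun i j hij => div_pos (hp i j hij) (mul_pos (hr i) (hr j)))
    (fun i => div_nonneg (hd i) (mul_pos (hr i) (hr i)).le)
    (fun i => mul_pos (hr i) (hz i))
    (fun i => by
      rw [e1]
      have h : ∑ j, m i j * (r j * z j / r j) = ∑ j, m i j * z j := by
        refine Finset.sum_congr rfl fun j _ => ?_
        have := hr0 j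
        field_simp
      rw [h, div_eq_iff (hr0 i)]
      have h3 : ∑ j, m i j * z j = r i ^ 2 * z i := by
        rw [hr2 i, div_mul_cancel₀ _ (hz i).ne']
      rw [h3]
      ring)
    (fun ξ => by
      rw [e2]
      refine (hq (fun i => ξ i / r i)).trans (le_of_eq ?_)
      refine Finset.sum_congr rfl fun i _ => ?_
      rw [e1, div_pow, hr2 i]
      have := (hZ i).ne'
      have := (hz i).ne'
      field_simp)
    (fun i => r i * x i)
    (by
      rw [← hx]
      refine Finset.sum_congr rfl fun i _ => ?_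
      have h3 : ∑ j, m i j * z j = r i ^ 2 * z i := by
        rw [hr2 i, div_mul_cancel₀ _ (hz i).ne']
      rw [h3]
      ring)
  rw [e2] at key
  refine le_trans (le_of_eq ?_) key
  refine Finset.sum_congr rfl fun i _ => Finset.sum_congr rfl fun j _ => ?_
  have := hr0 i
  have := hr0 j
  field_simp

section
variable {V : Type} [DecidableEq V]

theorem PP_cons (a : V → ℝ) (L : List (V → ℝ)) (S : Finset V) :
    PP (a :: L) S = ∑ i ∈ S, a i * PP L (S.erase i) := rfl

theorem PP_pos : ∀ (L : List (V → ℝ)) (S : Finset V), L.length ≤ S.card →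
    (∀ a ∈ L, ∀ i, 0 < a i) → 0 < PP L S
  | [], _, _, _ => one_pos
  | a :: L, S, hc, h => by
    rw [PP_cons]
    rw [List.length_cons] at hc
    refine Finset.sum_pos (fun i hi => ?_) (Finset.card_pos.1 (by omega))
    refine mul_pos (h a List.mem_cons_self i) (PP_pos L (S.erase i) ?_ ?_)
    · rw [Finset.card_erase_of_mem hi]
      omega
    · exact fun b hb => h b (List.mem_cons_of_mem a hb)

theorem PP_lin (c d : ℝ) (a b : V → ℝ) (L : List (V → ℝ)) (S : Finset V) :
    PP ((fun v => c * a v + d * b v) :: L) S = c * PP (a :: L) S + d * PP (b :: L) S := by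
  rw [PP_cons, PP_cons, PP_cons, Finset.mul_sum, Finset.mul_sum, ← Finset.sum_add_distrib]
  refine Finset.sum_congr rfl fun i _ => ?_
  ring

theorem PP_swap (h1 : Stmt_PPX) (a b : V → ℝ) (L : List (V → ℝ)) (S : Finset V) :
    PP (a :: b :: L) S = PP (b :: a :: L) S :=
  h1.1 V _ _ S (List.Perm.swap b a L)

theorem PP_rot (h1 : Stmt_PPX) (a b c : V → ℝ) (L : List (V → ℝ)) (S : Finset V) :
    PP (a :: b :: c :: L) S = PP (c :: a :: b :: L) S :=
  h1.1 V _ _ S (((List.Perm.swap c b L).cons a).trans (List.Perm.swap c a (b :: L)))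

theorem base (x y : V → ℝ) (S : Finset V) (hS : S.card = 2) :
    PP (x :: x :: []) S * PP (y :: y :: []) S ≤ (PP (x :: y :: []) S) ^ 2 := by
  obtain ⟨i, j, hij, rfl⟩ := Finset.card_eq_two.1 hS
  have e : ∀ a b : V → ℝ, PP (a :: b :: []) ({i, j} : Finset V) = a i * b j + a j * b i := by
    intro a b
    have h1 : ({i, j} : Finset V).erase i = {j} := by
      ext v
      simp only [Finset.mem_erase, Finset.mem_insert, Finset.mem_singleton]
      constructor
      · rintro ⟨h, h' | h'⟩
        · exact absurd h' h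
        · exact h'
      · rintro rfl
        exact ⟨hij.symm, Or.inr rfl⟩
    have h2 : ({i, j} : Finset V).erase j = {i} := by
      ext v
      simp only [Finset.mem_erase, Finset.mem_insert, Finset.mem_singleton]
      constructor
      · rintro ⟨h, h' | h'⟩
        · exact h'
        · exact absurd h' h
      · rintro rfl
        exact ⟨hij, Or.inl rfl⟩
    rw [PP_cons, Finset.sum_pair hij, h1, h2, PP_cons, PP_cons, Finset.sum_singleton,
      Finset.sum_singleton]
    show a i * (b j * 1) + a j * (b i * 1) = _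
    ring
  rw [e, e, e]
  nlinarith [sq_nonneg (x i * y j - x j * y i)]

/-- The matrix of the form `f (x, y) = PP (x :: y :: z :: L) S`. -/
noncomputable def mm (z : V → ℝ) (L : List (V → ℝ)) (S : Finset V) (i j : S) : ℝ :=
  if i = j then 0 else PP (z :: L) ((S.erase i.1).erase j.1)

theorem mm_sum (z : V → ℝ) (L : List (V → ℝ)) (S : Finset V) (x : V → ℝ) (i : S) :
    ∑ j, mm z L S i j * x j.1 = PP (x :: z :: L) (S.erase i.1) := by
  have h : ∀ j : S, mm z L S i j * x j.1 =
      (fun v : V => if i.1 = v then 0 else x v * PP (z :: L) ((S.erase i.1).erase v)) j.1 := by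
    intro j
    unfold mm
    by_cases hij : i = j
    · rw [if_pos hij]
      simp [hij]
    · have hij' : i.1 ≠ j.1 := fun h => hij (Subtype.ext h)
      rw [if_neg hij]
      show _ = if i.1 = j.1 then 0 else _
      rw [if_neg hij', mul_comm]
  rw [Finset.sum_congr rfl fun j _ => h j,
    Finset.sum_coe_sort S (fun v : V => if i.1 = v then 0 else
      x v * PP (z :: L) ((S.erase i.1).erase v)), PP_cons, ← Finset.add_sum_erase S _ i.2]
  rw [if_pos rfl, zero_add]
  refine Finset.sum_congr rfl fun v hv => ?_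
  rw [if_neg (Finset.ne_of_mem_erase hv).symm]

theorem mm_quad (z : V → ℝ) (L : List (V → ℝ)) (S : Finset V) (x : V → ℝ) :
    ∑ i : S, ∑ j : S, x i.1 * mm z L S i j * x j.1 = PP (x :: x :: z :: L) S := by
  rw [PP_cons, ← Finset.sum_coe_sort S (fun v => x v * PP (x :: z :: L) (S.erase v))]
  refine Finset.sum_congr rfl fun i _ => ?_
  rw [← mm_sum z L S x i, Finset.mul_sum]
  refine Finset.sum_congr rfl fun j _ => ?_
  ring

/-- The form is negative on the orthogonal complement of `z`. -/
theorem neg_step (h1 : Stmt_PPX) (h2 : Stmt_SPEC) (z : V → ℝ) (L : List (V → ℝ)) (S : Finset V)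
    (hS : S.card = L.length + 3) (hz : ∀ i, 0 < z i) (hL : ∀ a ∈ L, ∀ i, 0 < a i)
    (ih : ∀ i ∈ S, ∀ x : V → ℝ, PP (x :: x :: L) (S.erase i) * PP (z :: z :: L) (S.erase i) ≤
      (PP (x :: z :: L) (S.erase i)) ^ 2)
    (x : V → ℝ) (hx : PP (x :: z :: z :: L) S = 0) : PP (x :: x :: z :: L) S ≤ 0 := by
  have hzL : ∀ a ∈ z :: L, ∀ i, 0 < a i := by
    intro a ha i
    rcases List.mem_cons.1 ha with rfl | h
    exacts [hz i, hL a h i]
  have hzzL : ∀ a ∈ z :: z :: L, ∀ i, 0 < a i := by
    intro a ha i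
    rcases List.mem_cons.1 ha with rfl | h
    exacts [hz i, hzL a h i]
  have hpos : ∀ i ∈ S, 0 < PP (z :: z :: L) (S.erase i) := by
    intro i hi
    refine PP_pos _ _ ?_ hzzL
    rw [Finset.card_erase_of_mem hi, List.length_cons, List.length_cons]
    omega
  have key := core h2 (mm z L S) (fun i : S => z i.1)
    (fun i j => by
      unfold mm
      by_cases hij : i = j
      · rw [if_pos hij, if_pos hij.symm]
      · rw [if_neg hij, if_neg (Ne.symm hij), Finset.erase_right_comm])
    (fun i j hij => by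
      unfold mm
      rw [if_neg hij]
      refine PP_pos _ _ ?_ hzL
      have hj : j.1 ∈ S.erase i.1 :=
        Finset.mem_erase.2 ⟨fun h => hij (Subtype.ext h).symm, j.2⟩
      rw [Finset.card_erase_of_mem hj, Finset.card_erase_of_mem i.2, List.length_cons]
      omega)
    (fun i => by
      unfold mm
      rw [if_pos rfl])
    (fun i => hz i.1)
    (fun i => by
      rw [mm_sum z L S z i]
      exact hpos i.1 i.2)
    (fun ξ => by
      classical
      obtain ⟨x', hx'⟩ : ∃ x' : V → ℝ, ∀ i : S, ξ i = x' i.1 :=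
        ⟨fun v => if h : v ∈ S then ξ ⟨v, h⟩ else 0, fun i => by simp⟩
      have e1 : ∑ i : S, ∑ j : S, ξ i * mm z L S i j * ξ j = PP (x' :: x' :: z :: L) S := by
        rw [← mm_quad]
        refine Finset.sum_congr rfl fun i _ => Finset.sum_congr rfl fun j _ => ?_
        rw [hx' i, hx' j]
      rw [e1, PP_rot h1, PP_cons,
        ← Finset.sum_coe_sort S (fun v => z v * PP (x' :: x' :: L) (S.erase v))]
      refine Finset.sum_le_sum fun i _ => ?_
      have e2 : ∑ j : S, mm z L S i j * ξ j = PP (x' :: z :: L) (S.erase i.1) := by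
        rw [← mm_sum]
        exact Finset.sum_congr rfl fun j _ => by rw [hx' j]
      rw [e2, mm_sum z L S z i, le_div_iff₀ (hpos i.1 i.2), mul_assoc]
      exact mul_le_mul_of_nonneg_left (ih i.1 i.2 x') (hz i.1).le)
    (fun i : S => x i.1)
    (by
      rw [← hx, PP_cons, ← Finset.sum_coe_sort S (fun v => x v * PP (z :: z :: L) (S.erase v))]
      refine Finset.sum_congr rfl fun i _ => ?_
      show x i.1 * _ = x i.1 * _
      rw [mm_sum z L S z i])
  rw [mm_quad] at key
  exact key

end

end AF

theorem AF (h1 : Stmt_PPX) (h2 : Stmt_SPEC) : Stmt_AF := by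
  intro V _ L
  induction L with
  | nil =>
    intro S x y hS _ _
    exact AF.base x y S (by simpa using hS)
  | cons z L ih =>
    intro S x y hS hL hy
    rw [List.length_cons] at hS
    have hz : ∀ i, 0 < z i := hL z List.mem_cons_self
    have hL' : ∀ a ∈ L, ∀ i, 0 < a i := fun a ha => hL a (List.mem_cons_of_mem z ha)
    have hneg := AF.neg_step h1 h2 z L S (by omega) hz hL' (fun i hi x => ih (S.erase i) x z
      (by rw [Finset.card_erase_of_mem hi]; omega) hL' hz)
    -- the values of the form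
    have hyL : ∀ a ∈ y :: z :: L, ∀ i, 0 < a i := by
      intro a ha i
      rcases List.mem_cons.1 ha with rfl | h
      exacts [hy i, hL a h i]
    have ha : 0 < PP (y :: z :: z :: L) S := by
      refine AF.PP_pos _ _ (by simp only [List.length_cons]; omega) ?_
      intro a ha i
      rcases List.mem_cons.1 ha with rfl | h
      · exact hy i
      · rcases List.mem_cons.1 h with rfl | h
        exacts [hz i, hL a h i]
    have hY : 0 < PP (y :: y :: z :: L) S := by
      refine AF.PP_pos _ _ (by simp only [List.length_cons]; omega) ?_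
      intro a ha i
      rcases List.mem_cons.1 ha with rfl | h
      exacts [hy i, hyL a h i]
    generalize hA : PP (y :: z :: z :: L) S = A at *
    generalize hB : PP (x :: z :: z :: L) S = B at *
    have hu := hneg (fun v => A * x v + (-B) * y v) (by
      rw [AF.PP_lin, hA, hB]
      ring)
    have hexp : PP ((fun v => A * x v + (-B) * y v) :: (fun v => A * x v + (-B) * y v) :: z :: L) S
        = A ^ 2 * PP (x :: x :: z :: L) S - 2 * A * B * PP (x :: y :: z :: L) S +
          B ^ 2 * PP (y :: y :: z :: L) S := by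
      rw [AF.PP_lin, AF.PP_swap h1 x, AF.PP_swap h1 y (fun v => A * x v + (-B) * y v), AF.PP_lin,
        AF.PP_lin, AF.PP_swap h1 y x]
      ring
    rw [hexp] at hu
    generalize PP (y :: y :: z :: L) S = Y at *
    generalize PP (x :: x :: z :: L) S = X at *
    generalize PP (x :: y :: z :: L) S = P at *
    have h3 : A ^ 2 * (X * Y - P ^ 2) + (B * Y - A * P) ^ 2 ≤ 0 := by
      have h4 : Y * (A ^ 2 * X - 2 * A * B * P + B ^ 2 * Y) ≤ 0 :=
        mul_nonpos_of_nonneg_of_nonpos hY.le hu
      nlinarith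
    have h5 : A ^ 2 * (X * Y - P ^ 2) ≤ 0 := by
      have := sq_nonneg (B * Y - A * P)
      linarith
    have h6 : X * Y - P ^ 2 ≤ 0 := by
      by_contra h7
      have := mul_pos (pow_pos ha 2) (not_le.1 h7)
      linarith
    linarith

end Pool.Agent.Rem2
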