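import Pool.Agent.Rem2.Stmts

/-!
# MP_df1a54_co: alternating matchings of the cycles of a permutation
-/

set_option autoImplicit false

namespace Pool.Agent.Rem2

open Finset

namespace ALT

variable {V : Type} [Fintype V] [DecidableEq V]

omit [Fintype V] [DecidableEq V] in
theorem ia (σ : Equiv.Perm V) (v : V) : σ⁻¹ (σ v) = v := Equiv.symm_apply_apply σ v

omit [Fintype V] [DecidableEq V] in
theorem ai (σ : Equiv.Perm V) (v : V) : σ (σ⁻¹ v) = v := Equiv.apply_symm_apply σ v

/-- The chosen vertex of the cycle of `v`. -/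
noncomputable def rt (σ : Equiv.Perm V) (v : V) : V :=
  (Quotient.mk (Equiv.Perm.SameCycle.setoid σ) v).out

omit [Fintype V] [DecidableEq V] in
theorem rt_same (σ : Equiv.Perm V) (v : V) : σ.SameCycle (rt σ v) v :=
  Quotient.exact (s := Equiv.Perm.SameCycle.setoid σ) (Quotient.out_eq _)

omit [Fintype V] [DecidableEq V] in
theorem rt_eq_of_same (σ : Equiv.Perm V) {v w : V} (h : σ.SameCycle v w) : rt σ v = rt σ w := by
  unfold rt
  rw [Quotient.sound (s := Equiv.Perm.SameCycle.setoid σ) h]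

omit [Fintype V] [DecidableEq V] in
theorem rt_apply (σ : Equiv.Perm V) (v : V) : rt σ (σ v) = rt σ v :=
  rt_eq_of_same σ (Equiv.Perm.sameCycle_apply_left.2 (Equiv.Perm.SameCycle.refl σ v))

omit [Fintype V] [DecidableEq V] in
theorem rt_inv (σ : Equiv.Perm V) (v : V) : rt σ (σ⁻¹ v) = rt σ v := by
  have h := rt_apply σ (σ⁻¹ v)
  rw [ai] at h
  exact h.symm

omit [Fintype V] [DecidableEq V] in
theorem rt_rt (σ : Equiv.Perm V) (v : V) : rt σ (rt σ v) = rt σ v :=
  rt_eq_of_same σ (rt_same σ v)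

omit [DecidableEq V] in
theorem exists_pos (σ : Equiv.Perm V) (v : V) : ∃ j : ℕ, (σ⁻¹ ^ j) v = rt σ v := by
  obtain ⟨i, -, hi⟩ := (rt_same σ v).exists_pow_eq'
  refine ⟨i, ?_⟩
  rw [← hi, inv_pow, ia, hi]

/-- The distance of `v` from the chosen vertex of its cycle. -/
noncomputable def pos (σ : Equiv.Perm V) (v : V) : ℕ := Nat.find (exists_pos σ v)

theorem pos_eq_zero (σ : Equiv.Perm V) (v : V) : pos σ v = 0 ↔ rt σ v = v := by
  unfold pos
  rw [Nat.find_eq_zero]
  simp [eq_comm]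

theorem pos_succ (σ : Equiv.Perm V) (v : V) (h : rt σ v ≠ v) :
    pos σ v = pos σ (σ⁻¹ v) + 1 := by
  have h1 : pos σ v ≠ 0 := fun h2 => h ((pos_eq_zero σ v).1 h2)
  have key : ∀ j : ℕ, (σ⁻¹ ^ (j + 1)) v = rt σ v ↔ (σ⁻¹ ^ j) (σ⁻¹ v) = rt σ (σ⁻¹ v) := by
    intro j
    rw [rt_inv, pow_succ, Equiv.Perm.mul_apply]
  obtain ⟨p, hp⟩ := Nat.exists_eq_succ_of_ne_zero h1
  have h2 : (σ⁻¹ ^ (p + 1)) v = rt σ v := by
    have := Nat.find_spec (exists_pos σ v)
    change (σ⁻¹ ^ (pos σ v)) v = rt σ v at this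
    rw [hp] at this
    exact this
  have h3 : pos σ (σ⁻¹ v) ≤ p := Nat.find_min' _ ((key p).1 h2)
  have h4 : pos σ v ≤ pos σ (σ⁻¹ v) + 1 :=
    Nat.find_min' _ ((key _).2 (Nat.find_spec (exists_pos σ (σ⁻¹ v))))
  omega

theorem pos_apply (σ : Equiv.Perm V) (v : V) (h : rt σ (σ v) ≠ σ v) :
    pos σ (σ v) = pos σ v + 1 := by
  have := pos_succ σ (σ v) h
  rwa [ia] at this

/-- The vertices at odd distance. -/
def od (σ : Equiv.Perm V) (v : V) : Prop := pos σ v % 2 = 1

noncomputable instance (σ : Equiv.Perm V) (v : V) : Decidable (od σ v) := by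
  unfold od; infer_instance

theorem not_root_of_od {σ : Equiv.Perm V} {v : V} (h : od σ v) : rt σ v ≠ v := by
  intro h1
  have := (pos_eq_zero σ v).2 h1
  unfold od at h
  omega

theorem not_od_inv {σ : Equiv.Perm V} {v : V} (h : od σ v) : ¬ od σ (σ⁻¹ v) := by
  have h1 := pos_succ σ v (not_root_of_od h)
  unfold od at h ⊢
  omega

theorem not_od_apply {σ : Equiv.Perm V} {v : V} (h : od σ v) : ¬ od σ (σ v) := by
  intro h2
  have := not_od_inv h2
  rw [ia] at this
  exact this h

noncomputable def M1 (σ : Equiv.Perm V) (v : V) : V :=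
  if od σ v then σ⁻¹ v else if od σ (σ v) then σ v else v

noncomputable def M2 (σ : Equiv.Perm V) (v : V) : V :=
  if od σ v then σ v else if od σ (σ⁻¹ v) then σ⁻¹ v else v

/-- The chosen vertices. -/
noncomputable def Sr (σ : Equiv.Perm V) : Finset V := univ.filter (fun v => rt σ v = v)

theorem mem_Sr {σ : Equiv.Perm V} {v : V} : v ∈ Sr σ ↔ rt σ v = v := by simp [Sr]

theorem M1_inv (σ : Equiv.Perm V) (v : V) : M1 σ (M1 σ v) = v := by
  by_cases h : od σ v
  · have e : M1 σ v = σ⁻¹ v := by rw [M1, if_pos h]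
    rw [e]
    unfold M1
    rw [if_neg (not_od_inv h), ai, if_pos h]
  · by_cases h' : od σ (σ v)
    · have e : M1 σ v = σ v := by rw [M1, if_neg h, if_pos h']
      rw [e]
      unfold M1
      rw [if_pos h', ia]
    · have e : M1 σ v = v := by rw [M1, if_neg h, if_neg h']
      rw [e, e]

theorem M2_inv (σ : Equiv.Perm V) (v : V) : M2 σ (M2 σ v) = v := by
  by_cases h : od σ v
  · have e : M2 σ v = σ v := by rw [M2, if_pos h]
    rw [e]
    unfold M2
    rw [if_neg (not_od_apply h), ia, if_pos h]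
  · by_cases h' : od σ (σ⁻¹ v)
    · have e : M2 σ v = σ⁻¹ v := by rw [M2, if_neg h, if_pos h']
      rw [e]
      unfold M2
      rw [if_pos h', ai]
    · have e : M2 σ v = v := by rw [M2, if_neg h, if_neg h']
      rw [e, e]

theorem ne_inv {σ : Equiv.Perm V} {v : V} (h : od σ v) : σ⁻¹ v ≠ v := by
  intro h1
  apply not_od_inv h
  rwa [h1]

theorem ne_apply {σ : Equiv.Perm V} {v : V} (h : od σ v) : σ v ≠ v := by
  intro h1
  apply not_od_apply h
  rwa [h1]

theorem ne_apply' {σ : Equiv.Perm V} {v : V} (h : od σ (σ v)) : σ v ≠ v := by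
  intro h1
  have := ne_inv h
  rw [ia] at this
  exact this h1.symm

theorem ne_inv' {σ : Equiv.Perm V} {v : V} (h : od σ (σ⁻¹ v)) : σ⁻¹ v ≠ v := by
  intro h1
  have := ne_apply h
  rw [ai] at this
  exact this h1.symm

theorem M1_fix {σ : Equiv.Perm V} {v : V} (h : M1 σ v = v) : σ v ∈ Sr σ := by
  rw [mem_Sr]
  by_contra h1
  have h2 := pos_apply σ v h1
  by_cases hv : od σ v
  · have e : M1 σ v = σ⁻¹ v := by rw [M1, if_pos hv]
    rw [e] at h
    exact ne_inv hv h
  · have h3 : od σ (σ v) := by unfold od at hv ⊢; omega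
    have e : M1 σ v = σ v := by rw [M1, if_neg hv, if_pos h3]
    rw [e] at h
    exact ne_apply' h3 h

theorem M2_fix {σ : Equiv.Perm V} {v : V} (h : M2 σ v = v) : v ∈ Sr σ := by
  rw [mem_Sr]
  by_contra h1
  have h2 := pos_succ σ v h1
  by_cases hv : od σ v
  · have e : M2 σ v = σ v := by rw [M2, if_pos hv]
    rw [e] at h
    exact ne_apply hv h
  · have h3 : od σ (σ⁻¹ v) := by unfold od at hv ⊢; omega
    have e : M2 σ v = σ⁻¹ v := by rw [M2, if_neg hv, if_pos h3]
    rw [e] at h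
    exact ne_inv' h3 h

theorem fix_M1 (σ : Equiv.Perm V) : fixn (M1 σ) ≤ (Sr σ).card := by
  unfold fixn
  apply Finset.card_le_card_of_injOn (fun v => σ v)
  · intro v hv
    have hv' : M1 σ v = v := by simpa using hv
    exact M1_fix hv'
  · intro a _ b _ hab
    exact σ.injective hab

theorem fix_M2 (σ : Equiv.Perm V) : fixn (M2 σ) ≤ (Sr σ).card := by
  unfold fixn
  apply Finset.card_le_card
  intro v hv
  have hv' : M2 σ v = v := by simpa using hv
  exact M2_fix hv'

omit [Fintype V] [DecidableEq V] in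
theorem rt_pow (σ : Equiv.Perm V) (v : V) (j : ℕ) : rt σ ((σ ^ j) v) = rt σ v := by
  induction j with
  | zero => rfl
  | succ j ih => rw [pow_succ', Equiv.Perm.mul_apply, rt_apply, ih]

theorem key (σ σ' : Equiv.Perm V) (h1 : M1 σ = M1 σ') (h2 : M2 σ = M2 σ') (hS : Sr σ = Sr σ') :
    ∀ (n : ℕ) (v : V), pos σ v = n →
      pos σ' v = n ∧ rt σ' v = rt σ v ∧ (v ∉ Sr σ → σ'⁻¹ v = σ⁻¹ v) := by
  intro n
  induction n with
  | zero =>
    intro v hv
    have h3 : rt σ v = v := (pos_eq_zero σ v).1 hv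
    have h4 : v ∈ Sr σ := mem_Sr.2 h3
    have h5 : rt σ' v = v := by rw [← mem_Sr, ← hS]; exact h4
    exact ⟨(pos_eq_zero σ' v).2 h5, by rw [h5, h3], fun h => (h h4).elim⟩
  | succ n ih =>
    intro v hv
    have h3 : rt σ v ≠ v := by
      intro h; have := (pos_eq_zero σ v).2 h; omega
    have h3' : rt σ' v ≠ v := by
      intro h; apply h3; rw [← mem_Sr, hS, mem_Sr]; exact h
    have h4 := pos_succ σ v h3
    obtain ⟨u, hu⟩ : ∃ u, u = σ⁻¹ v := ⟨_, rfl⟩
    have hvu : σ u = v := by rw [hu, ai]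
    rw [← hu] at h4
    have h5 : pos σ u = n := by omega
    obtain ⟨i1, i2, -⟩ := ih u h5
    have h6 : σ' u = v := by
      by_cases hn : n % 2 = 1
      · have a1 : od σ u := by unfold od; omega
        have a2 : od σ' u := by unfold od; omega
        have a3 : M2 σ u = v := by rw [← hvu]; simp [M2, a1]
        have a4 : M2 σ' u = σ' u := by simp [M2, a2]
        rw [← a4, ← h2, a3]
      · have a1 : ¬ od σ u := by unfold od; omega
        have a2 : ¬ od σ' u := by unfold od; omega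
        have a5 : od σ (σ u) := by rw [hvu]; unfold od; omega
        have a3 : M1 σ u = v := by rw [← hvu]; simp [M1, a1, a5]
        have a6 : v ≠ u := by rintro rfl; omega
        by_cases a7 : od σ' (σ' u)
        · have a4 : M1 σ' u = σ' u := by simp [M1, a2, a7]
          rw [← a4, ← h1, a3]
        · have a4 : M1 σ' u = u := by simp [M1, a2, a7]
          rw [← h1, a3] at a4
          exact (a6 a4).elim
    have h7 : σ'⁻¹ v = u := by rw [← h6, ia]
    have h8 := pos_succ σ' v h3'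
    rw [h7, i1] at h8
    refine ⟨h8, ?_, fun _ => by rw [h7, hu]⟩
    rw [← h6, rt_apply, i2, h6, ← hvu, rt_apply]

theorem inj (σ σ' : Equiv.Perm V) (h1 : M1 σ = M1 σ') (h2 : M2 σ = M2 σ') (hS : Sr σ = Sr σ') :
    σ = σ' := by
  have hrt : ∀ v, rt σ' v = rt σ v := fun v => (key σ σ' h1 h2 hS _ v rfl).2.1
  have hoff : ∀ v, v ∉ Sr σ → σ'⁻¹ v = σ⁻¹ v := fun v => (key σ σ' h1 h2 hS _ v rfl).2.2
  have hon : ∀ v, σ v = σ' v := by
    intro v
    by_cases h : σ v ∈ Sr σ
    · by_cases h' : σ' v ∈ Sr σ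
      · have a := mem_Sr.1 h
        have b := mem_Sr.1 h'
        rw [rt_apply] at a
        rw [← hrt, rt_apply, hrt] at b
        rw [← a, ← b]
      · have := hoff _ h'
        rw [ia] at this
        rw [Equiv.Perm.eq_inv_iff_eq] at this
        exact this
    · have := hoff _ h
      rw [ia] at this
      rw [Equiv.Perm.inv_eq_iff_eq] at this
      exact this
  exact Equiv.ext hon

theorem weight (σ : Equiv.Perm V) (l : V → V → ℝ) (hs : ∀ v y, l v y = l y v)
    (hn : ∀ v y, l v y ≤ 0) :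
    2 * ∑ v, l v (σ v) ≤
        (∑ v, if M1 σ v = v then 0 else l v (M1 σ v)) +
        ∑ v, if M2 σ v = v then 0 else l v (M2 σ v) := by
  have e1 : (∑ v, if M1 σ v = v then 0 else l v (M1 σ v)) =
      (∑ v, if od σ v then l v (σ⁻¹ v) else 0) + ∑ v, if od σ (σ v) then l v (σ v) else 0 := by
    rw [← Finset.sum_add_distrib]
    apply Finset.sum_congr rfl
    intro v _
    by_cases h : od σ v
    · have e : M1 σ v = σ⁻¹ v := by rw [M1, if_pos h]
      rw [e, if_neg (ne_inv h), if_pos h, if_neg (not_od_apply h), add_zero]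
    · by_cases h' : od σ (σ v)
      · have e : M1 σ v = σ v := by rw [M1, if_neg h, if_pos h']
        rw [e, if_neg (ne_apply' h'), if_neg h, if_pos h', zero_add]
      · have e : M1 σ v = v := by rw [M1, if_neg h, if_neg h']
        rw [if_pos e, if_neg h, if_neg h', zero_add]
  have e2 : (∑ v, if M2 σ v = v then 0 else l v (M2 σ v)) =
      (∑ v, if od σ v then l v (σ v) else 0) + ∑ v, if od σ (σ⁻¹ v) then l v (σ⁻¹ v) else 0 := by
    rw [← Finset.sum_add_distrib]
    apply Finset.sum_congr rfl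
    intro v _
    by_cases h : od σ v
    · have e : M2 σ v = σ v := by rw [M2, if_pos h]
      rw [e, if_neg (ne_apply h), if_pos h, if_neg (not_od_inv h), add_zero]
    · by_cases h' : od σ (σ⁻¹ v)
      · have e : M2 σ v = σ⁻¹ v := by rw [M2, if_neg h, if_pos h']
        rw [e, if_neg (ne_inv' h'), if_neg h, if_pos h', zero_add]
      · have e : M2 σ v = v := by rw [M2, if_neg h, if_neg h']
        rw [if_pos e, if_neg h, if_neg h', zero_add]
  have e3 : (∑ v, if od σ v then l v (σ⁻¹ v) else 0) = ∑ v, if od σ (σ v) then l v (σ v) else 0 := by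
    rw [← Equiv.sum_comp σ (fun v => if od σ v then l v (σ⁻¹ v) else 0)]
    apply Finset.sum_congr rfl
    intro v _
    simp only [ia]
    rw [hs]
  have e4 : (∑ v, if od σ (σ⁻¹ v) then l v (σ⁻¹ v) else 0) = ∑ v, if od σ v then l v (σ v) else 0 := by
    rw [← Equiv.sum_comp σ (fun v => if od σ (σ⁻¹ v) then l v (σ⁻¹ v) else 0)]
    apply Finset.sum_congr rfl
    intro v _
    simp only [ia]
    rw [hs]
  rw [e1, e2, e3, e4]
  have e5 : ∑ v, l v (σ v) ≤
      (∑ v, if od σ (σ v) then l v (σ v) else 0) + ∑ v, if od σ v then l v (σ v) else 0 := by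
    rw [← Finset.sum_add_distrib]
    apply Finset.sum_le_sum
    intro v _
    by_cases h : od σ v
    · rw [if_neg (not_od_apply h), if_pos h, zero_add]
    · by_cases h' : od σ (σ v)
      · rw [if_neg h, if_pos h', add_zero]
      · rw [if_neg h, if_neg h', add_zero]
        exact hn _ _
  linarith

end ALT

open ALT in
theorem ALT : Stmt_ALT := by
  intro V _ _
  refine ⟨M1, M2, Sr, inj, ?_⟩
  intro σ
  refine ⟨M1_inv σ, M2_inv σ, ?_, ?_, fix_M1 σ, fix_M2 σ, ?_, weight σ⟩
  · intro v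
    unfold M1
    split_ifs <;> simp
  · intro v
    unfold M2
    split_ifs <;> simp
  · intro s hs j hj
    rw [mem_Sr] at hs hj
    rw [rt_pow, hs] at hj
    exact hj.symm

end Pool.Agent.Rem2
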