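import Pool.Agent.Rem2.Stmts

/-!
# Module AVG1: the first average over the orders
-/

set_option autoImplicit false

namespace Pool.Agent.Rem2

open Finset

namespace AVG1

variable {V : Type} [Fintype V] [DecidableEq V]

theorem log_le_lin {c D : ℝ} (hc : 0 < c) (hD : 0 < D) :
    Real.log D ≤ Real.log c - 1 + D / c := by
  have h := Real.log_le_sub_one_of_pos (div_pos hD hc)
  rw [Real.log_div hD.ne' hc.ne'] at h
  linarith

/-- The complement of the image of a set under a permutation. -/
theorem sum_compl_image (σ : Equiv.Perm V) (S : Finset V) (g : V → ℝ) :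
    ∑ y ∈ (S.image σ)ᶜ, g y = ∑ u ∈ Sᶜ, g (σ u) := by
  have h : (S.image σ)ᶜ = Sᶜ.image σ := by
    ext y
    simp only [mem_compl, mem_image, not_exists, not_and]
    constructor
    · intro h
      exact ⟨σ.symm y, fun hy => h _ hy (by simp), by simp⟩
    · rintro ⟨u, hu, rfl⟩ a ha hau
      exact hu (by rwa [← σ.injective hau])
  rw [h, sum_image (fun a _ b _ hab => σ.injective hab)]

theorem mem_compl_iff_disj (S : Finset V) (v : V) : v ∈ Sᶜ ↔ Disjoint S {v} := by
  rw [disjoint_singleton_right, mem_compl]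

theorem mem_compl_pair (S : Finset V) (v u : V) : (v ∈ Sᶜ ∧ u ∈ Sᶜ) ↔ Disjoint S {v, u} := by
  rw [disjoint_insert_right, disjoint_singleton_right, mem_compl, mem_compl]

theorem sum_compl_eq (S : Finset V) (g : V → ℝ) :
    ∑ v ∈ Sᶜ, g v = ∑ v, g v * (if Disjoint S {v} then (1 : ℝ) else 0) := by
  rw [← sum_filter_add_sum_filter_not univ (fun v => v ∈ Sᶜ)]
  have h1 : ∑ x ∈ univ.filter (fun v => v ∈ Sᶜ), g x *
      (if Disjoint S {x} then (1 : ℝ) else 0) = ∑ v ∈ Sᶜ, g v := by
    rw [filter_mem_eq_inter, univ_inter]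
    refine sum_congr rfl fun v hv => ?_
    rw [if_pos ((mem_compl_iff_disj S v).1 hv), mul_one]
  have h2 : ∑ x ∈ univ.filter (fun v => ¬ v ∈ Sᶜ), g x *
      (if Disjoint S {x} then (1 : ℝ) else 0) = 0 := by
    refine sum_eq_zero fun v hv => ?_
    rw [if_neg, mul_zero]
    intro h
    exact (mem_filter.1 hv).2 ((mem_compl_iff_disj S v).2 h)
  rw [h1, h2, add_zero]

theorem sum_compl_eq2 (S : Finset V) (g : V → V → ℝ) :
    ∑ v ∈ Sᶜ, ∑ u ∈ Sᶜ, g v u =
      ∑ v, ∑ u, g v u * (if Disjoint S {v, u} then (1 : ℝ) else 0) := by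
  rw [sum_compl_eq]
  refine sum_congr rfl fun v _ => ?_
  rw [sum_compl_eq, sum_mul]
  refine sum_congr rfl fun u _ => ?_
  by_cases h : Disjoint S {v, u}
  · have h' := (mem_compl_pair S v u).2 h
    rw [if_pos h, if_pos ((mem_compl_iff_disj S v).1 h'.1),
      if_pos ((mem_compl_iff_disj S u).1 h'.2)]
    ring
  · rw [if_neg h]
    by_cases h1 : Disjoint S {v}
    · have h2 : ¬ Disjoint S {u} := fun h2 => h ((mem_compl_pair S v u).1
        ⟨(mem_compl_iff_disj S v).2 h1, (mem_compl_iff_disj S u).2 h2⟩)
      rw [if_neg h2]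
      ring
    · rw [if_neg h1]
      ring

end AVG1

open AVG1 in
theorem AVG1 (h1 : Stmt_ORD) (h2 : Stmt_NUM1) : Stmt_AVG1 := by
  intro V _ _ B μ k σ hk hkN hB hBμ hμ hμs
  obtain ⟨ha, hb, hc, -⟩ := h1 V
  have hNpos : 1 ≤ Fintype.card V := by omega
  have hN0 : (0 : ℝ) < Fintype.card V := by exact_mod_cast hNpos
  have hk0 : (0 : ℝ) < k := by
    have : 0 < k := by omega
    exact_mod_cast this
  have hkN' : (k : ℝ) ≤ Fintype.card V := by exact_mod_cast hkN
  have hρ : ∑ v, μ v ≤ 3 * ((Fintype.card V : ℝ) / k) := by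
    have : 1 ≤ (Fintype.card V : ℝ) / k := by rw [le_div_iff₀ hk0]; linarith
    linarith
  have hF : (0 : ℝ) < (Fintype.card V).factorial := by exact_mod_cast Nat.factorial_pos _
  have hcardOrd : Fintype.card (Ord V) = (Fintype.card V).factorial := by
    have := Fintype.card_equiv (Fintype.equivFin V).symm
    rw [this, Fintype.card_fin]
  -- the expectation of the denominator
  have hD : ∀ i : Fin (Fintype.card V), ∑ π : Ord V, den1 B μ π σ i ≤
      (Fintype.card V).factorial * (((Fintype.card V : ℝ) - (i : ℕ)) / Fintype.card V + 9 / k) := by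
    intro i
    have hiN : ((i : ℕ) : ℝ) < Fintype.card V := by exact_mod_cast i.2
    have hNi : (0 : ℝ) < (Fintype.card V : ℝ) - (i : ℕ) := by linarith
    have hkey := hb i (fun π v => ∑ y ∈ ((seen π i).image σ)ᶜ, B v y + 2 * μ v) (by
      intro π j hij v
      have h := (ha π σ i j i hij le_rfl).1
      rw [h])
    have hden : ∀ π : Ord V, den1 B μ π σ i =
        ∑ y ∈ ((seen π i).image σ)ᶜ, B (π i) y + 2 * μ (π i) := by
      intro π; rfl
    set s : ℝ := ((Fintype.card V : ℝ) - (i : ℕ)) / Fintype.card V with hs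
    have hs0 : 0 < s := div_pos hNi hN0
    have hcs : ∀ Q : Finset V,
        ∑ π : Ord V, (if Disjoint (seen π i) Q then (1 : ℝ) else 0) ≤
          (Fintype.card V).factorial * s ^ Q.card := by
      intro Q
      exact hc i Q i.2.le hNpos
    -- first part
    have hA : ∑ π : Ord V, ∑ v ∈ (seen π i)ᶜ, ∑ y ∈ ((seen π i).image σ)ᶜ, B v y ≤
        (Fintype.card V).factorial * (s ^ 2 * Fintype.card V + s * ∑ v, μ v) := by
      have e1 : ∑ π : Ord V, ∑ v ∈ (seen π i)ᶜ, ∑ y ∈ ((seen π i).image σ)ᶜ, B v y =
          ∑ v, ∑ u, B v (σ u) *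
            ∑ π : Ord V, (if Disjoint (seen π i) {v, u} then (1 : ℝ) else 0) := by
        have : ∀ π : Ord V, ∑ v ∈ (seen π i)ᶜ, ∑ y ∈ ((seen π i).image σ)ᶜ, B v y =
            ∑ v, ∑ u, B v (σ u) * (if Disjoint (seen π i) {v, u} then (1 : ℝ) else 0) := by
          intro π
          rw [← sum_compl_eq2 (seen π i) (fun v u => B v (σ u))]
          exact sum_congr rfl fun v _ => sum_compl_image σ _ _
        rw [sum_congr rfl fun π _ => this π, sum_comm]
        refine sum_congr rfl fun v _ => ?_
        rw [sum_comm]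
        refine sum_congr rfl fun u _ => ?_
        rw [mul_sum]
      rw [e1]
      have e2 : ∀ v u : V, B v (σ u) *
          ∑ π : Ord V, (if Disjoint (seen π i) {v, u} then (1 : ℝ) else 0) ≤
          (Fintype.card V).factorial * (s ^ 2 * B v (σ u) +
            (if u = v then s * μ v else 0)) := by
        intro v u
        have hBnn := hB.nonneg v (σ u)
        have h := mul_le_mul_of_nonneg_left (hcs {v, u}) hBnn
        refine h.trans ?_
        by_cases huv : u = v
        · subst huv
          rw [if_pos rfl, pair_eq_singleton, card_singleton, pow_one]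
          have hb1 : B u (σ u) * s ≤ s * μ u := by
            rw [mul_comm]; exact mul_le_mul_of_nonneg_left (hBμ _ _) hs0.le
          have hb2 : 0 ≤ s ^ 2 * B u (σ u) := by positivity
          calc B u (σ u) * ((Fintype.card V).factorial * s)
              = (Fintype.card V).factorial * (B u (σ u) * s) := by ring
            _ ≤ (Fintype.card V).factorial * (s ^ 2 * B u (σ u) + s * μ u) := by
                refine mul_le_mul_of_nonneg_left ?_ hF.le
                linarith
        · rw [if_neg huv, card_pair (Ne.symm huv), add_zero]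
          exact le_of_eq (by ring)
      refine (sum_le_sum fun v _ => sum_le_sum fun u _ => e2 v u).trans ?_
      have e3 : ∀ v : V, ∑ u, (((Fintype.card V).factorial : ℝ) * (s ^ 2 * B v (σ u) +
            (if u = v then s * μ v else 0))) =
          (Fintype.card V).factorial * (s ^ 2 + s * μ v) := by
        intro v
        rw [← mul_sum, sum_add_distrib, ← mul_sum, Equiv.sum_comp σ (fun y => B v y), hB.row v,
          sum_ite_eq' univ v, if_pos (mem_univ _), mul_one]
      rw [sum_congr rfl fun v _ => e3 v, ← mul_sum, sum_add_distrib, ← mul_sum, sum_const,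
        card_univ, nsmul_eq_mul]
      exact le_of_eq (by ring)
    have hB2 : ∑ π : Ord V, ∑ v ∈ (seen π i)ᶜ, 2 * μ v ≤
        (Fintype.card V).factorial * (2 * (s * ∑ v, μ v)) := by
      have e1 : ∑ π : Ord V, ∑ v ∈ (seen π i)ᶜ, 2 * μ v =
          ∑ v, 2 * μ v * ∑ π : Ord V, (if Disjoint (seen π i) {v} then (1 : ℝ) else 0) := by
        have : ∀ π : Ord V, ∑ v ∈ (seen π i)ᶜ, 2 * μ v =
            ∑ v, 2 * μ v * (if Disjoint (seen π i) {v} then (1 : ℝ) else 0) := by
          intro π
          rw [← sum_compl_eq (seen π i) (fun v => 2 * μ v)]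
        rw [sum_congr rfl fun π _ => this π, sum_comm]
        refine sum_congr rfl fun v _ => ?_
        rw [mul_sum]
      rw [e1]
      have e2 : ∀ v : V, 2 * μ v *
          ∑ π : Ord V, (if Disjoint (seen π i) {v} then (1 : ℝ) else 0) ≤
          (Fintype.card V).factorial * (2 * (s * μ v)) := by
        intro v
        have h := mul_le_mul_of_nonneg_left (hcs {v}) (by have := hμ v; positivity :
          (0 : ℝ) ≤ 2 * μ v)
        refine h.trans (le_of_eq ?_)
        rw [card_singleton]
        ring
      refine (sum_le_sum fun v _ => e2 v).trans (le_of_eq ?_)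
      simp only [← mul_sum]
    have htot : ((Fintype.card V : ℝ) - (i : ℕ)) * ∑ π : Ord V, den1 B μ π σ i ≤
        ((Fintype.card V : ℝ) - (i : ℕ)) * ((Fintype.card V).factorial * (s + 9 / k)) := by
      have e0 : ∑ π : Ord V, den1 B μ π σ i =
          ∑ π : Ord V, (fun π v => ∑ y ∈ ((seen π i).image σ)ᶜ, B v y + 2 * μ v) π (π i) :=
        sum_congr rfl fun π _ => hden π
      rw [e0, hkey]
      have e1 : ∑ π : Ord V, ∑ v ∈ (seen π i)ᶜ,
          (fun π v => ∑ y ∈ ((seen π i).image σ)ᶜ, B v y + 2 * μ v) π v =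
          ∑ π : Ord V, ∑ v ∈ (seen π i)ᶜ, ∑ y ∈ ((seen π i).image σ)ᶜ, B v y +
          ∑ π : Ord V, ∑ v ∈ (seen π i)ᶜ, 2 * μ v := by
        rw [← sum_add_distrib]
        exact sum_congr rfl fun π _ => sum_add_distrib
      rw [e1]
      have hNs : (Fintype.card V : ℝ) - (i : ℕ) = Fintype.card V * s := by
        rw [hs]; field_simp
      rw [hNs]
      have h3 : s * (3 * ∑ v, μ v) ≤ Fintype.card V * s * (9 / k) := by
        have : (3 * ∑ v, μ v) ≤ Fintype.card V * (9 / k) := by
          have h := mul_le_mul_of_nonneg_left hρ (by norm_num : (0 : ℝ) ≤ 3)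
          refine h.trans (le_of_eq ?_)
          ring
        calc s * (3 * ∑ v, μ v) ≤ s * (Fintype.card V * (9 / k)) :=
              mul_le_mul_of_nonneg_left this hs0.le
          _ = _ := by ring
      calc _ ≤ (Fintype.card V).factorial * (s ^ 2 * Fintype.card V + s * ∑ v, μ v) +
            (Fintype.card V).factorial * (2 * (s * ∑ v, μ v)) := add_le_add hA hB2
        _ = (Fintype.card V).factorial * (s ^ 2 * Fintype.card V + s * (3 * ∑ v, μ v)) := by ring
        _ ≤ (Fintype.card V).factorial * (s ^ 2 * Fintype.card V +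
              Fintype.card V * s * (9 / k)) := by
            refine mul_le_mul_of_nonneg_left ?_ hF.le
            linarith
        _ = _ := by ring
    exact le_of_mul_le_mul_left htot hNi
  -- the sum
  rw [sum_comm]
  have hlog : ∀ i : Fin (Fintype.card V), ∑ π : Ord V, Real.log (den1 B μ π σ i) ≤
      (Fintype.card V).factorial *
        Real.log (((Fintype.card V : ℝ) - (i : ℕ)) / Fintype.card V + 9 / k) := by
    intro i
    have hiN : ((i : ℕ) : ℝ) < Fintype.card V := by exact_mod_cast i.2
    have hNi : (0 : ℝ) < (Fintype.card V : ℝ) - (i : ℕ) := by linarith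
    set c : ℝ := ((Fintype.card V : ℝ) - (i : ℕ)) / Fintype.card V + 9 / k with hcdef
    have hc0 : 0 < c := by
      rw [hcdef]
      have := div_pos hNi hN0
      positivity
    have hden0 : ∀ π : Ord V, 0 < den1 B μ π σ i := by
      intro π
      unfold den1
      have h0 : 0 ≤ ∑ y ∈ ((seen π i).image σ)ᶜ, B (π i) y :=
        sum_nonneg fun y _ => hB.nonneg _ _
      have := hμ (π i)
      linarith
    calc ∑ π : Ord V, Real.log (den1 B μ π σ i)
        ≤ ∑ π : Ord V, (Real.log c - 1 + den1 B μ π σ i / c) :=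
          sum_le_sum fun π _ => log_le_lin hc0 (hden0 π)
      _ = (Fintype.card V).factorial * (Real.log c - 1) + (∑ π : Ord V, den1 B μ π σ i) / c := by
          rw [sum_add_distrib, sum_const, card_univ, hcardOrd, nsmul_eq_mul, sum_div]
      _ ≤ (Fintype.card V).factorial * (Real.log c - 1) +
            ((Fintype.card V).factorial * c) / c := by
          have := hD i
          gcongr
      _ = _ := by
          rw [mul_div_assoc, div_self hc0.ne']
          ring
  refine (sum_le_sum fun i _ => hlog i).trans ?_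
  rw [← mul_sum]
  refine mul_le_mul_of_nonneg_left ?_ hF.le
  have hnum := h2 (Fintype.card V) k hk hkN
  refine le_trans (le_of_eq ?_) hnum
  rw [← Finset.sum_range (fun i : ℕ =>
    Real.log (((Fintype.card V : ℝ) - (i : ℕ)) / Fintype.card V + 9 / k)),
    ← Finset.sum_range_reflect (fun j : ℕ => Real.log (((j : ℝ) + 1) / Fintype.card V + 9 / k))]
  refine sum_congr rfl fun j hj => ?_
  have hj' : j < Fintype.card V := mem_range.1 hj
  have : ((Fintype.card V - 1 - j : ℕ) : ℝ) + 1 = (Fintype.card V : ℝ) - j := by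
    have h3 : (Fintype.card V - 1 - j) + 1 + j = Fintype.card V := by omega
    have h4 : (((Fintype.card V - 1 - j) + 1 + j : ℕ) : ℝ) = (Fintype.card V : ℝ) := by rw [h3]
    push_cast at h4
    linarith
  rw [this]

end Pool.Agent.Rem2
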