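import Pool.Agent.Rem2.Stmts

/-!
# MP_df1a54_co: AVG2, the second average
-/

set_option autoImplicit false

namespace Pool.Agent.Rem2

open Finset

namespace AVG2

/-- Linearised Jensen inequality. -/
theorem log_le {D c : ℝ} (hD : 0 < D) (hc : 0 < c) :
    Real.log D ≤ (Real.log c - 1) + D / c := by
  have h1 := Real.log_le_sub_one_of_pos (div_pos hD hc)
  rw [Real.log_div hD.ne' hc.ne'] at h1
  linarith

/-- Positivity of the second denominator. -/
theorem den2_pos {V : Type} [Fintype V] {B : V → V → ℝ} {k : ℕ} (hk : 1 ≤ k)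
    (hB : ∀ v y, 0 ≤ B v y) (Blk : List (V × V) → V → V → Prop) (π : Ord V) (f : V → V)
    (m : ℕ) (v : V) : 0 < den2 B k Blk π f m v := by
  classical
  unfold den2
  have h1 : (0 : ℝ) < 1 / (k : ℝ) := by
    have : (0 : ℝ) < k := by exact_mod_cast hk
    positivity
  have h2 : (0 : ℝ) ≤ ∑ y ∈ (free π f m).erase v,
      B v y * (if Blk (past π f m) v y then Real.exp 1 else 1) := by
    refine Finset.sum_nonneg fun y _ => mul_nonneg (hB v y) ?_
    split_ifs
    · exact (Real.exp_pos 1).le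
    · exact zero_le_one
  have h3 := add_pos_of_pos_of_nonneg h1 h2
  convert h3 using 2

/-- The summation over `i`. -/
theorem combine (N : ℕ) (L φ r K : ℝ) (a b l : ℕ → ℝ)
    (hφ : 0 ≤ φ) (hN : (0 : ℝ) < N) (_hL : 0 ≤ L)
    (ha : ∀ i, i < N → 0 ≤ a i) (hab : ∀ i, i < N → a i ≤ b i)
    (hl : ∀ i, i < N → -L ≤ l i)
    (sa : ∑ i ∈ range N, a i = (N : ℝ) / 2) (sb : ∑ i ∈ range N, b i = ((N : ℝ) + 1) / 2)
    (n2 : ∑ i ∈ range N, b i * l i ≤ r) (c : ℕ → ℝ) (n3 : ∑ i ∈ range N, c i ≤ K) :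
    ∑ i ∈ range N, ((l i - 1) * ((((N : ℝ) - φ) / N) * a i) + (b i + φ / N * c i)) ≤
      r + L / 2 + 1 / 2 + φ / N * ((1 + L) * ((N : ℝ) / 2)) + φ / N * K := by
  have e1 : ∑ i ∈ range N, ((l i - 1) * ((((N : ℝ) - φ) / N) * a i) + (b i + φ / N * c i)) =
      ∑ i ∈ range N, a i * l i - ∑ i ∈ range N, a i + φ / N * ∑ i ∈ range N, a i * (1 - l i) +
        ∑ i ∈ range N, b i + φ / N * ∑ i ∈ range N, c i := by
    rw [Finset.mul_sum, Finset.mul_sum, ← Finset.sum_sub_distrib, ← Finset.sum_add_distrib,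
      ← Finset.sum_add_distrib, ← Finset.sum_add_distrib]
    refine Finset.sum_congr rfl fun i _ => ?_
    have : ((N : ℝ) - φ) / N = 1 - φ / N := by
      rw [sub_div, div_self hN.ne']
    rw [this]
    ring
  have e2 : ∑ i ∈ range N, a i * l i ≤ ∑ i ∈ range N, b i * l i + L / 2 := by
    have h1 : ∑ i ∈ range N, a i * l i ≤ ∑ i ∈ range N, (b i * l i + (b i - a i) * L) := by
      refine Finset.sum_le_sum fun i hi => ?_
      have hi' := Finset.mem_range.1 hi
      have h2 : 0 ≤ (b i - a i) * (l i + L) :=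
        mul_nonneg (by linarith [hab i hi']) (by linarith [hl i hi'])
      nlinarith
    rw [Finset.sum_add_distrib, ← Finset.sum_mul, Finset.sum_sub_distrib, sa, sb] at h1
    nlinarith
  have e3 : ∑ i ∈ range N, a i * (1 - l i) ≤ (1 + L) * ((N : ℝ) / 2) := by
    rw [← sa, Finset.mul_sum]
    refine Finset.sum_le_sum fun i hi => ?_
    have hi' := Finset.mem_range.1 hi
    have h2 : 0 ≤ a i * (l i + L) := mul_nonneg (ha i hi') (by linarith [hl i hi'])
    nlinarith
  have hq : 0 ≤ φ / N := div_nonneg hφ hN.le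
  have e4 := mul_le_mul_of_nonneg_left e3 hq
  have e5 := mul_le_mul_of_nonneg_left n3 hq
  rw [e1, sa, sb]
  linarith

/-- `∑ (i + 1) / N`. -/
theorem sum_s (N : ℕ) (hN : 0 < N) :
    ∑ i ∈ range N, ((N : ℝ) - (i : ℕ)) / N = ((N : ℝ) + 1) / 2 := by
  have h0 : (0 : ℝ) < N := by exact_mod_cast hN
  have h1 : ∀ n : ℕ, ∑ i ∈ range n, (i : ℝ) = (n : ℝ) * ((n : ℝ) - 1) / 2 := by
    intro n
    induction n with
    | zero => simp
    | succ n ih =>
      rw [Finset.sum_range_succ, ih]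
      push_cast
      ring
  rw [← Finset.sum_div, Finset.sum_sub_distrib, h1, Finset.sum_const, Finset.card_range,
    nsmul_eq_mul]
  field_simp
  ring

theorem sum_s' (N : ℕ) (hN : 1 < N) :
    ∑ i ∈ range N, ((N : ℝ) - 1 - (i : ℕ)) / (N - 1) = (N : ℝ) / 2 := by
  have h0 : (0 : ℝ) < (N : ℝ) - 1 := by
    have : (1 : ℝ) < N := by exact_mod_cast hN
    linarith
  have h1 : ∀ n : ℕ, ∑ i ∈ range n, (i : ℝ) = (n : ℝ) * ((n : ℝ) - 1) / 2 := by
    intro n
    induction n with
    | zero => simp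
    | succ n ih =>
      rw [Finset.sum_range_succ, ih]
      push_cast
      ring
  rw [← Finset.sum_div, Finset.sum_sub_distrib, h1, Finset.sum_const, Finset.card_range,
    nsmul_eq_mul]
  field_simp
  ring

/-- Reversal of the summation. -/
theorem reflect (N : ℕ) (F : ℝ → ℝ) :
    ∑ i ∈ range N, F (((N : ℝ) - (i : ℕ)) / N) = ∑ j ∈ range N, F (((j : ℝ) + 1) / N) := by
  rw [← Finset.sum_range_reflect]
  refine Finset.sum_congr rfl fun j hj => ?_
  have hj' := Finset.mem_range.1 hj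
  have : ((N - 1 - j : ℕ) : ℝ) = (N : ℝ) - 1 - j := by
    rw [Nat.cast_sub (by omega), Nat.cast_sub (by omega)]
    simp
  rw [this]
  congr 2
  ring

end AVG2

theorem AVG2 (h1 : Stmt_EFREE) (h2 : Stmt_ED) (h3 : Stmt_NUM2) (h4 : Stmt_NUM3) :
    Stmt_AVG2 := by
  classical
  intro V _ _ B μ k Blk τ hk hkN hDS hBμ hμ hτ hF
  obtain ⟨N, hN⟩ : ∃ N, N = Fintype.card V := ⟨_, rfl⟩
  have hN8 : 8 ≤ N := by omega
  have hNr : (0 : ℝ) < N := by
    have : 0 < N := by omega
    exact_mod_cast this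
  have hN1 : (1 : ℝ) < N := by
    have : 1 < N := by omega
    exact_mod_cast this
  have hk8 : (8 : ℝ) ≤ k := by exact_mod_cast hk
  have hkr : (0 : ℝ) < k := by linarith
  have hkN' : (k : ℝ) ≤ N := by
    have : k ≤ N := by omega
    exact_mod_cast this
  set φ : ℝ := (fixn τ : ℝ) with hφ
  have hφ0 : 0 ≤ φ := Nat.cast_nonneg _
  have hL : 0 ≤ Real.log k := Real.log_nonneg (by linarith)
  have h8k : (8 : ℝ) / k ≤ 1 := by
    rw [div_le_one hkr]
    exact hk8
  have h8k0 : (0 : ℝ) < 8 / k := by positivity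
  let s : ℕ → ℝ := fun i => ((N : ℝ) - (i : ℕ)) / N
  let s' : ℕ → ℝ := fun i => ((N : ℝ) - 1 - (i : ℕ)) / (N - 1)
  let c : ℕ → ℝ := fun i => (s i) ^ 2 + 8 / k
  have hs0 : ∀ i, i < N → 0 < s i := by
    intro i hi
    have : (i : ℝ) < N := by exact_mod_cast hi
    exact div_pos (by linarith) hNr
  have hs1 : ∀ i, i < N → s i ≤ 1 := by
    intro i hi
    have : (0 : ℝ) ≤ i := Nat.cast_nonneg _
    show ((N : ℝ) - (i : ℕ)) / N ≤ 1
    rw [div_le_one hNr]
    linarith
  have hs'0 : ∀ i, i < N → 0 ≤ s' i := by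
    intro i hi
    have : ((i : ℝ) + 1) ≤ N := by exact_mod_cast hi
    exact div_nonneg (by linarith) (by linarith)
  have hss : ∀ i, i < N → s' i ≤ s i := by
    intro i hi
    have h0 : (0 : ℝ) ≤ i := Nat.cast_nonneg _
    show ((N : ℝ) - 1 - (i : ℕ)) / (N - 1) ≤ ((N : ℝ) - (i : ℕ)) / N
    rw [div_le_div_iff₀ (by linarith) hNr]
    nlinarith
  have hc0 : ∀ i, i < N → 0 < c i := by
    intro i hi
    have := sq_nonneg (s i)
    show 0 < (s i) ^ 2 + 8 / (k : ℝ)
    linarith
  have hc2 : ∀ i, i < N → Real.log (c i) ≤ 1 := by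
    intro i hi
    have h5 : c i ≤ 2 := by
      have h6 := hs0 i hi
      have h7 := hs1 i hi
      show (s i) ^ 2 + 8 / (k : ℝ) ≤ 2
      nlinarith
    have h8 : c i ≤ Real.exp 1 := by
      have := Real.add_one_le_exp (1 : ℝ)
      linarith
    calc Real.log (c i) ≤ Real.log (Real.exp 1) := Real.log_le_log (hc0 i hi) h8
      _ = 1 := Real.log_exp 1
  have hcL : ∀ i, i < N → -Real.log k ≤ Real.log (c i) := by
    intro i hi
    rw [← Real.log_inv]
    refine Real.log_le_log (by positivity) ?_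
    have h6 := sq_nonneg (s i)
    have h7 : (k : ℝ)⁻¹ ≤ 8 / k := by
      rw [inv_eq_one_div]
      exact div_le_div_of_nonneg_right (by norm_num) hkr.le
    show (k : ℝ)⁻¹ ≤ (s i) ^ 2 + 8 / (k : ℝ)
    linarith
  -- the three statistics
  have hE := (h1 V τ (by omega) hτ).2.2
  have hD := h2 V B μ k Blk τ hk hkN hDS hBμ hμ hτ hF
  have hfac : (0 : ℝ) ≤ ((Fintype.card V).factorial : ℝ) := Nat.cast_nonneg _
  have hfN : ((Fintype.card V).factorial : ℝ) = (N.factorial : ℝ) := by rw [hN]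
  have hNN : ((Fintype.card V : ℕ) : ℝ) = (N : ℝ) := by rw [hN]
  -- bound of the inner sums
  have key : ∀ i : Fin (Fintype.card V),
      ∑ π : Ord V, (if π i ∈ free π τ i then Real.log (den2 B k Blk π τ i (π i)) else 0) ≤
      ((Fintype.card V).factorial : ℝ) * ((Real.log (c i) - 1) * ((((N : ℝ) - φ) / N) * s' i) +
        (s i + φ / N * ((2 * s i + 5 / k) / c i))) := by
    intro i
    have hi : (i : ℕ) < N := by
      rw [hN]
      exact i.2
    have hci := hc0 i hi
    have step1 : ∑ π : Ord V, (if π i ∈ free π τ i then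
        Real.log (den2 B k Blk π τ i (π i)) else 0) ≤
        (Real.log (c i) - 1) * ∑ π : Ord V, (if π i ∈ free π τ i then (1 : ℝ) else 0) +
        (∑ π : Ord V, (if π i ∈ free π τ i then den2 B k Blk π τ i (π i) else 0)) / c i := by
      rw [Finset.mul_sum, Finset.sum_div, ← Finset.sum_add_distrib]
      refine Finset.sum_le_sum fun π _ => ?_
      split_ifs with h
      · rw [mul_one]
        exact AVG2.log_le (AVG2.den2_pos (by omega) hDS.nonneg Blk π τ _ _) hci
      · simp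
    have hE' := hE i
    have hD' := hD i (s i) (by
      show ((N : ℝ) - (i : ℕ)) / N = _
      rw [hN])
    rw [hfN, hNN, ← hφ] at hE' hD'
    have step2 : (Real.log (c i) - 1) *
        ∑ π : Ord V, (if π i ∈ free π τ i then (1 : ℝ) else 0) ≤
        (Real.log (c i) - 1) * ((N.factorial : ℝ) * ((((N : ℝ) - φ) / N) * s' i)) :=
      mul_le_mul_of_nonpos_left hE' (by linarith [hc2 i hi])
    have step3 : (∑ π : Ord V, (if π i ∈ free π τ i then
        den2 B k Blk π τ i (π i) else 0)) / c i ≤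
        (N.factorial : ℝ) * (s i + φ / N * ((2 * s i + 5 / k) / c i)) := by
      rw [div_le_iff₀ hci]
      refine hD'.trans (le_of_eq ?_)
      have h9 : φ / N * ((2 * s i + 5 / k) / c i) * c i = φ / N * (2 * s i + 5 / k) := by
        rw [mul_assoc, div_mul_cancel₀ _ hci.ne']
      calc (N.factorial : ℝ) * (s i * (s i ^ 2 + 8 / k) + φ / N * (2 * s i + 5 / k))
          = (N.factorial : ℝ) * (s i * c i + φ / N * ((2 * s i + 5 / k) / c i) * c i) := by
            rw [h9]
        _ = _ := by ring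
    rw [hfN]
    calc _ ≤ _ := step1
      _ ≤ _ := add_le_add step2 step3
      _ = _ := by ring
  rw [Finset.sum_comm]
  refine (Finset.sum_le_sum fun i _ => key i).trans ?_
  rw [← Finset.mul_sum]
  refine mul_le_mul_of_nonneg_left ?_ hfac
  -- the sum over `Fin N` as a sum over `range N`
  have e1 : ∑ i : Fin (Fintype.card V), ((Real.log (c i) - 1) * ((((N : ℝ) - φ) / N) * s' i) +
        (s i + φ / N * ((2 * s i + 5 / k) / c i))) =
      ∑ i ∈ range N, ((Real.log (c i) - 1) * ((((N : ℝ) - φ) / N) * s' i) +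
        (s i + φ / N * ((2 * s i + 5 / k) / c i))) := by
    rw [hN, Finset.sum_range]
  rw [e1]
  have n2 : ∑ i ∈ range N, s i * Real.log (c i) ≤
      -(N : ℝ) / 2 + 4 * N * (Real.log k + 2) / k + 3 := by
    refine le_trans (le_of_eq ?_) (h3 N k hk (by omega))
    exact AVG2.reflect N (fun t => t * Real.log (t ^ 2 + 8 / k))
  have n3 : ∑ i ∈ range N, (2 * s i + 5 / k) / c i ≤ N * (Real.log k + 1) := by
    refine le_trans (le_of_eq ?_) (h4 N k hk (by omega))
    exact AVG2.reflect N (fun t => (2 * t + 5 / k) / (t ^ 2 + 8 / k))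
  have main := AVG2.combine N (Real.log k) φ _ _ s' s (fun i => Real.log (c i)) hφ0 hNr hL hs'0
    hss hcL (AVG2.sum_s' N (by omega)) (AVG2.sum_s N (by omega)) n2
    (fun i => (2 * s i + 5 / k) / c i) n3
  refine main.trans ?_
  rw [hNN]
  have hq : (1 : ℝ) ≤ N / k := by
    rw [le_div_iff₀ hkr]
    linarith
  have t1 : φ / N * ((1 + Real.log k) * ((N : ℝ) / 2)) = φ * (1 + Real.log k) / 2 := by
    field_simp
  have t2 : φ / N * ((N : ℝ) * (Real.log k + 1)) = φ * (Real.log k + 1) := by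
    field_simp
  have t3 : 4 * (N : ℝ) * (Real.log k + 2) / k = (N : ℝ) / k * (4 * Real.log k + 8) := by
    ring
  rw [t1, t2, t3]
  have t4 : 0 ≤ φ * Real.log k := mul_nonneg hφ0 hL
  have t5 : 0 ≤ ((N : ℝ) / k - 1) * (Real.log k / 2 + 7 / 2) :=
    mul_nonneg (by linarith) (by linarith)
  have t6 : 0 ≤ (N : ℝ) / k * (Real.log k / 2 + 1 / 2) :=
    mul_nonneg (by linarith) (by linarith)
  nlinarith

end Pool.Agent.Rem2
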