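import Pool.Agent.Rem2.DefsA

/-!
# MP_df1a54_co: module BMAT (the doubly stochastic matrix of slots and dummy vertices)
-/

set_option autoImplicit false

namespace Pool.Agent.Rem2

open Finset

namespace BMAT

section

variable {E W : Type} [Fintype E] [Fintype W] [DecidableEq E] [DecidableEq W]
  {a b : E → W} {k : ℕ} {Adm : Finset W → Finset E → Prop}

theorem sum_dgw (h : SlotSys a b k Adm) : ∑ x, dgw a b x = 2 * Fintype.card E := by
  unfold dgw
  simp only [Finset.card_filter]
  rw [Finset.sum_comm]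
  have key : ∀ e : E, (∑ x, if a e = x ∨ b e = x then 1 else 0) = 2 := by
    intro e
    rw [← Finset.card_filter]
    have e1 : (univ.filter fun x => a e = x ∨ b e = x) = {a e, b e} := by
      ext x
      simp [eq_comm]
    rw [e1, Finset.card_pair (h.ne e)]
  rw [Finset.sum_congr rfl fun e _ => key e]
  simp [mul_comm]

theorem dgw_le (h : SlotSys a b k Adm) (x : W) : dgw a b x ≤ k := h.deg x

open Classical in
theorem nb_card (h : SlotSys a b k Adm) (x : W) :
    (univ.filter (fun y => ∃ e, (a e = x ∧ b e = y) ∨ (a e = y ∧ b e = x))).card =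
      dgw a b x := by
  have e1 : (univ.filter (fun y => ∃ e, (a e = x ∧ b e = y) ∨ (a e = y ∧ b e = x))) =
      (univ.filter (fun e => a e = x ∨ b e = x)).image
        (fun e => if a e = x then b e else a e) := by
    ext y
    simp only [Finset.mem_filter, Finset.mem_univ, true_and, Finset.mem_image]
    constructor
    · rintro ⟨e, (⟨h1, h2⟩ | ⟨h1, h2⟩)⟩
      · exact ⟨e, Or.inl h1, by rw [if_pos h1, h2]⟩
      · refine ⟨e, Or.inr h2, ?_⟩
        rw [if_neg, h1]
        intro h3
        exact h.ne e (h3.trans h2.symm)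
    · rintro ⟨e, he, hy⟩
      by_cases h1 : a e = x
      · rw [if_pos h1] at hy
        exact ⟨e, Or.inl ⟨h1, hy⟩⟩
      · rw [if_neg h1] at hy
        exact ⟨e, Or.inr ⟨hy, he.resolve_left h1⟩⟩
  rw [e1, Finset.card_image_of_injOn]
  · unfold dgw
    congr
  · intro e he e' he' hee
    have he1 : a e = x ∨ b e = x := by simpa using he
    have he2 : a e' = x ∨ b e' = x := by simpa using he'
    simp only at hee
    apply h.inj
    by_cases h1 : a e = x <;> by_cases h2 : a e' = x
    · rw [if_pos h1, if_pos h2] at hee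
      exact Or.inl ⟨h1.trans h2.symm, hee⟩
    · rw [if_pos h1, if_neg h2] at hee
      exact Or.inr ⟨h1.trans (he2.resolve_left h2).symm, hee⟩
    · rw [if_neg h1, if_pos h2] at hee
      exact Or.inr ⟨hee, (he1.resolve_left h1).trans h2.symm⟩
    · rw [if_neg h1, if_neg h2] at hee
      exact Or.inl ⟨hee, (he1.resolve_left h1).trans (he2.resolve_left h2).symm⟩

theorem two_card_le (h : SlotSys a b k Adm) : 2 * Fintype.card E ≤ k * Fintype.card W := by
  rw [← sum_dgw h]
  calc ∑ x, dgw a b x ≤ ∑ _x : W, k := Finset.sum_le_sum fun x _ => dgw_le h x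
    _ = k * Fintype.card W := by simp [mul_comm]

theorem zz_lo (hk : 1 ≤ k) (h : SlotSys a b k Adm) :
    k * Fintype.card W ≤ 2 * Fintype.card E + k * zz E W k := by
  have h1 := two_card_le h
  unfold zz
  generalize k * Fintype.card W = M at *
  have h2 := Nat.div_add_mod (M - 2 * Fintype.card E + k - 1) k
  have h3 := Nat.mod_lt (M - 2 * Fintype.card E + k - 1) (by omega : 0 < k)
  omega

theorem zz_up (hk : 1 ≤ k) (_h : SlotSys a b k Adm) :
    k * zz E W k + 1 ≤ k * Fintype.card W - 2 * Fintype.card E + k := by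
  unfold zz
  have h2 := Nat.div_add_mod (k * Fintype.card W - 2 * Fintype.card E + k - 1) k
  omega

theorem zz_le (hk : 1 ≤ k) (h : SlotSys a b k Adm) : zz E W k ≤ Fintype.card W := by
  have h1 := zz_up hk h
  by_contra hcon
  push Not at hcon
  have h2 : k * (Fintype.card W + 1) ≤ k * zz E W k := Nat.mul_le_mul_left _ hcon
  have h3 : k * (Fintype.card W + 1) = k * Fintype.card W + k := by ring
  omega

/-- The defect `k |W| - 2 |E|` as a real number. -/
theorem sum_defect (h : SlotSys a b k Adm) :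
    ∑ x : W, ((k : ℝ) - dgw a b x) = (k : ℝ) * Fintype.card W - 2 * Fintype.card E := by
  have h1 : ((∑ x, dgw a b x : ℕ) : ℝ) = 2 * Fintype.card E := by
    rw [sum_dgw h]
    push_cast
    ring
  push_cast at h1
  rw [Finset.sum_sub_distrib, h1]
  simp [mul_comm]

theorem defect_nonneg (h : SlotSys a b k Adm) :
    0 ≤ (k : ℝ) * Fintype.card W - 2 * Fintype.card E := by
  have := two_card_le h
  have h2 : (2 : ℝ) * Fintype.card E ≤ (k : ℝ) * Fintype.card W := by exact_mod_cast this
  linarith

theorem defect_le (hk : 1 ≤ k) (h : SlotSys a b k Adm) :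
    (k : ℝ) * Fintype.card W - 2 * Fintype.card E ≤ k * zz E W k := by
  have := zz_lo hk h
  have h2 : (k : ℝ) * Fintype.card W ≤ 2 * Fintype.card E + k * zz E W k := by
    exact_mod_cast this
  linarith

theorem sub_nonneg' (h : SlotSys a b k Adm) (x : W) : 0 ≤ (k : ℝ) - dgw a b x := by
  have h1 : (dgw a b x : ℝ) ≤ k := by exact_mod_cast dgw_le h x
  linarith

theorem row_inl (hk : 1 ≤ k) (h : SlotSys a b k Adm) (x : W) :
    ∑ y, BW a b k (Sum.inl x) y = 1 := by
  classical
  have hk' : (0 : ℝ) < k := by exact_mod_cast hk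
  rw [Fintype.sum_sum_type]
  have e1 : ∑ y : W, BW a b k (Sum.inl x) (Sum.inl y) = dgw a b x / k := by
    simp only [BW]
    rw [← Finset.sum_filter, Finset.sum_const, nsmul_eq_mul, mul_one_div]
    congr 2
    convert nb_card h x
  have e2 : ∑ i : Fin (zz E W k), BW a b k (Sum.inl x) (Sum.inr i) =
      zz E W k * (((k : ℝ) - dgw a b x) / (k * zz E W k)) := by
    simp only [BW]
    rw [Finset.sum_const, nsmul_eq_mul, Finset.card_univ, Fintype.card_fin]
  rw [e1, e2]
  by_cases hz : zz E W k = 0
  · have hf : (k : ℝ) * Fintype.card W - 2 * Fintype.card E ≤ 0 := by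
      have := defect_le hk h
      rw [hz] at this
      simpa using this
    have h0 : ∑ x : W, ((k : ℝ) - dgw a b x) ≤ 0 := by rw [sum_defect h]; exact hf
    have h1 : (k : ℝ) - dgw a b x ≤ 0 :=
      (Finset.single_le_sum (f := fun x : W => (k : ℝ) - dgw a b x)
        (fun x _ => sub_nonneg' h x) (Finset.mem_univ x)).trans h0
    have h2 : (dgw a b x : ℝ) = k := le_antisymm (by linarith [sub_nonneg' h x]) (by linarith)
    rw [h2, hz, sub_self, zero_div, mul_zero, add_zero, div_self hk'.ne']
  · have hz' : (0 : ℝ) < zz E W k := by exact_mod_cast Nat.pos_of_ne_zero hz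
    field_simp
    ring

theorem row_inr (hk : 1 ≤ k) (h : SlotSys a b k Adm) (i : Fin (zz E W k)) :
    ∑ y, BW a b k (Sum.inr i : W ⊕ Fin (zz E W k)) y = 1 := by
  have hk' : (0 : ℝ) < k := by exact_mod_cast hk
  have hz' : (0 : ℝ) < zz E W k := by
    have := i.2
    exact_mod_cast (by omega : 0 < zz E W k)
  rw [Fintype.sum_sum_type]
  have e1 : ∑ y : W, BW a b k (Sum.inr i) (Sum.inl y) =
      ((k : ℝ) * Fintype.card W - 2 * Fintype.card E) / (k * zz E W k) := by
    simp only [BW]
    rw [← Finset.sum_div, sum_defect h]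
  have e2 : ∑ j : Fin (zz E W k), BW a b k (Sum.inr i : W ⊕ Fin (zz E W k)) (Sum.inr j) =
      zz E W k * ((1 - ((k : ℝ) * Fintype.card W - 2 * Fintype.card E) / (k * zz E W k)) /
        zz E W k) := by
    simp only [BW]
    rw [Finset.sum_const, nsmul_eq_mul, Finset.card_univ, Fintype.card_fin]
  rw [e1, e2]
  field_simp
  ring

theorem nn (hk : 1 ≤ k) (h : SlotSys a b k Adm) (v y : W ⊕ Fin (zz E W k)) :
    0 ≤ BW a b k v y := by
  have hk' : (0 : ℝ) < k := by exact_mod_cast hk
  rcases v with x | i <;> rcases y with y | j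
  · simp only [BW]
    split_ifs <;> positivity
  · simp only [BW]
    exact div_nonneg (sub_nonneg' h x) (by positivity)
  · simp only [BW]
    exact div_nonneg (sub_nonneg' h y) (by positivity)
  · simp only [BW]
    have hz' : (0 : ℝ) < zz E W k := by
      have := i.2
      exact_mod_cast (by omega : 0 < zz E W k)
    apply div_nonneg _ hz'.le
    rw [sub_nonneg, div_le_one (by positivity)]
    exact defect_le hk h

theorem le_mu (hk : 1 ≤ k) (h : SlotSys a b k Adm) (v y : W ⊕ Fin (zz E W k)) :
    BW a b k v y ≤ muW a b k v := by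
  have hk' : (0 : ℝ) < k := by exact_mod_cast hk
  have hk1 : (0 : ℝ) < 1 / k := by positivity
  rcases v with x | i <;> rcases y with y | j
  · simp only [BW, muW]
    have h1 : 0 ≤ ((k : ℝ) - dgw a b x) / (k * zz E W k) :=
      div_nonneg (sub_nonneg' h x) (by positivity)
    split_ifs <;> linarith
  · simp only [BW, muW]
    linarith
  · have hz' : (0 : ℝ) < zz E W k := by
      have := i.2
      exact_mod_cast (by omega : 0 < zz E W k)
    simp only [BW, muW]
    have h1 : ((k : ℝ) - dgw a b y) / (k * zz E W k) ≤ 1 / zz E W k := by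
      rw [div_le_div_iff₀ (by positivity) hz']
      have h2 : (0 : ℝ) ≤ dgw a b y := Nat.cast_nonneg _
      nlinarith
    linarith
  · have hz' : (0 : ℝ) < zz E W k := by
      have := i.2
      exact_mod_cast (by omega : 0 < zz E W k)
    simp only [BW, muW]
    have h1 : 0 ≤ ((k : ℝ) * Fintype.card W - 2 * Fintype.card E) / (k * zz E W k) :=
      div_nonneg (defect_nonneg h) (by positivity)
    have h2 : (1 - ((k : ℝ) * Fintype.card W - 2 * Fintype.card E) / (k * zz E W k)) /
        zz E W k ≤ 1 / zz E W k := div_le_div_of_nonneg_right (by linarith) hz'.le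
    linarith

theorem mu_pos (hk : 1 ≤ k) (h : SlotSys a b k Adm) (v : W ⊕ Fin (zz E W k)) :
    0 < muW a b k v := by
  have hk' : (0 : ℝ) < k := by exact_mod_cast hk
  have hk1 : (0 : ℝ) < 1 / k := by positivity
  rcases v with x | i
  · simp only [muW]
    have h1 : 0 ≤ ((k : ℝ) - dgw a b x) / (k * zz E W k) :=
      div_nonneg (sub_nonneg' h x) (by positivity)
    linarith
  · simp only [muW]
    have h1 : (0 : ℝ) ≤ 1 / (zz E W k : ℝ) := by positivity
    linarith

theorem sum_mu (hk : 1 ≤ k) (h : SlotSys a b k Adm) :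
    ∑ v, muW a b k v ≤ (Fintype.card (W ⊕ Fin (zz E W k)) : ℝ) / k + 2 := by
  have hk' : (0 : ℝ) < k := by exact_mod_cast hk
  rw [Fintype.sum_sum_type, Fintype.card_sum, Fintype.card_fin]
  simp only [muW]
  have e0 : ∑ x : W, ((k : ℝ) - dgw a b x) / (k * zz E W k) =
      ((k : ℝ) * Fintype.card W - 2 * Fintype.card E) / (k * zz E W k) := by
    rw [← Finset.sum_div, sum_defect h]
  rw [Finset.sum_add_distrib, e0, Finset.sum_const, Finset.sum_const,
    nsmul_eq_mul, nsmul_eq_mul, Finset.card_univ, Finset.card_univ, Fintype.card_fin]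
  have h1 : ((k : ℝ) * Fintype.card W - 2 * Fintype.card E) / (k * zz E W k) ≤ 1 := by
    by_cases hz : zz E W k = 0
    · rw [hz]
      simp
    · have hz' : (0 : ℝ) < zz E W k := by exact_mod_cast Nat.pos_of_ne_zero hz
      rw [div_le_one (by positivity)]
      exact defect_le hk h
  have h2 : (zz E W k : ℝ) * (1 / k + 1 / zz E W k) ≤ zz E W k / k + 1 := by
    by_cases hz : zz E W k = 0
    · rw [hz]
      simp
    · have hz' : (zz E W k : ℝ) ≠ 0 := by exact_mod_cast hz
      rw [mul_add, mul_one_div, mul_one_div, div_self hz']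
  have h3 : ((Fintype.card W + zz E W k : ℕ) : ℝ) / k =
      Fintype.card W * (1 / k) + zz E W k / k := by
    push_cast
    ring
  rw [h3]
  linarith

end

end BMAT

/-- BMAT. -/
theorem BMAT : Stmt_BMAT := by
  intro E W _ _ _ _ a b k Adm hk h
  refine ⟨⟨BMAT.nn hk h, ?_, ?_⟩, BMAT.le_mu hk h, BMAT.mu_pos hk h, BMAT.sum_mu hk h,
    BMAT.two_card_le h, BMAT.zz_lo hk h, BMAT.zz_up hk h, BMAT.zz_le hk h⟩
  · intro v y
    rcases v with x | i <;> rcases y with y | j
    · simp only [BW]
      have e : (∃ e, (a e = x ∧ b e = y) ∨ (a e = y ∧ b e = x)) ↔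
          (∃ e, (a e = y ∧ b e = x) ∨ (a e = x ∧ b e = y)) :=
        exists_congr fun e => or_comm
      by_cases h1 : ∃ e, (a e = x ∧ b e = y) ∨ (a e = y ∧ b e = x)
      · rw [if_pos h1, if_pos (e.1 h1)]
      · rw [if_neg h1, if_neg fun h2 => h1 (e.2 h2)]
    · simp only [BW]
    · simp only [BW]
    · simp only [BW]
  · intro v
    rcases v with x | i
    · exact BMAT.row_inl hk h x
    · exact BMAT.row_inr hk h i

end Pool.Agent.Rem2
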