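import Pool.Agent.Rem2.DefsA

/-!
# MP_df1a54_co, module COUNT: the final set of removed edges is large
-/

set_option autoImplicit false

namespace Pool.Agent.Rem2

open Finset

namespace COUNT

variable {E W : Type} [Fintype E] [Fintype W] [DecidableEq E] [DecidableEq W]
  {a b : E → W} {k : ℕ} {Adm : Finset W → Finset E → Prop}

/-- every state is admissible -/
theorem adm_stA (h : SlotSys a b k Adm) :
    ∀ l : List ((W ⊕ Fin (zz E W k)) × (W ⊕ Fin (zz E W k))),
      Adm (stA a b k Adm l).1 (stA a b k Adm l).2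
  | [] => h.start
  | p :: l => by
    have ih := adm_stA h l
    by_cases hex : ∃ e, ((p.1 = Sum.inl (a e) ∧ p.2 = Sum.inl (b e)) ∨
          (p.1 = Sum.inl (b e) ∧ p.2 = Sum.inl (a e))) ∧
        a e ∈ (stA a b k Adm l).1 ∧ b e ∈ (stA a b k Adm l).1 ∧
        Adm (((stA a b k Adm l).1.erase (a e)).erase (b e)) (insert e (stA a b k Adm l).2)
    · obtain ⟨e, he1, he2, he3, he4⟩ := hex
      have hU : (stA a b k Adm (p :: l)).1 = ((stA a b k Adm l).1.erase (a e)).erase (b e) := by
        ext x
        rw [stA]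
        simp only [mem_filter, mem_erase]
        rcases he1 with ⟨h1, h2⟩ | ⟨h1, h2⟩
        · rw [h1, h2]
          simp only [ne_eq, Sum.inl.injEq]
          tauto
        · rw [h1, h2]
          simp only [ne_eq, Sum.inl.injEq]
          tauto
      have hF : (stA a b k Adm (p :: l)).2 = insert e (stA a b k Adm l).2 := by
        ext e'
        rw [stA]
        simp only [mem_union, mem_filter, mem_univ, true_and, mem_insert]
        constructor
        · rintro (h1 | ⟨h1, -⟩)
          · exact Or.inr h1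
          · left
            apply h.inj
            rcases he1 with ⟨g1, g2⟩ | ⟨g1, g2⟩ <;> rcases h1 with ⟨h1, h2⟩ | ⟨h1, h2⟩ <;>
              rw [g1] at h1 <;> rw [g2] at h2 <;>
              simp only [Sum.inl.injEq] at h1 h2
            · exact Or.inl ⟨h1.symm, h2.symm⟩
            · exact Or.inr ⟨h2.symm, h1.symm⟩
            · exact Or.inr ⟨h1.symm, h2.symm⟩
            · exact Or.inl ⟨h2.symm, h1.symm⟩
        · rintro (rfl | h1)
          · exact Or.inr ⟨he1, he2, he3, he4⟩
          · exact Or.inl h1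
      rw [hU, hF]
      exact he4
    · have hF : (stA a b k Adm (p :: l)).2 = (stA a b k Adm l).2 := by
        ext e'
        rw [stA]
        simp only [mem_union, mem_filter, mem_univ, true_and]
        constructor
        · rintro (h1 | h1)
          · exact h1
          · exact absurd ⟨e', h1⟩ hex
        · exact Or.inl
      rw [hF]
      refine h.mono _ _ _ ih ?_
      rw [stA]
      exact filter_subset _ _

section

variable {V : Type} [Fintype V]

theorem mem_seen {π : Ord V} {m : ℕ} {v : V} :
    v ∈ seen π m ↔ ((π.symm v : Fin (Fintype.card V)) : ℕ) < m := by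
  classical
  unfold seen
  simp

theorem mem_free {π : Ord V} {f : V → V} {m : ℕ} {v : V} :
    v ∈ free π f m ↔ v ∉ seen π m ∧ ∀ u ∈ seen π m, f u ≠ v := by
  classical
  unfold free
  simp

theorem free_anti {π : Ord V} {f : V → V} {m : ℕ} {v : V} (h : v ∈ free π f (m + 1)) :
    v ∈ free π f m := by
  rw [mem_free] at h ⊢
  have hs : ∀ u ∈ seen π m, u ∈ seen π (m + 1) := fun u hu => by
    rw [mem_seen] at hu ⊢
    omega
  exact ⟨fun h1 => h.1 (hs _ h1), fun u hu => h.2 u (hs u hu)⟩

/-- the partner of a free vertex is free -/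
theorem free_partner {π : Ord V} {f : V → V} (hf : ∀ v, f (f v) = v) {m : ℕ} {v : V}
    (h : v ∈ free π f m) : f v ∈ free π f m := by
  rw [mem_free] at h ⊢
  refine ⟨fun h1 => h.2 _ h1 (hf v), fun u hu h1 => h.1 ?_⟩
  have : u = v := by rw [← hf u, h1, hf v]
  exact this ▸ hu

end

/-- a slot which is free in the sense of the order is free in the state -/
theorem free_mem (a b : E → W) (k : ℕ) (Adm : Finset W → Finset E → Prop)
    (π : Ord (W ⊕ Fin (zz E W k))) (τ : W ⊕ Fin (zz E W k) → W ⊕ Fin (zz E W k)) (x : W) :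
    ∀ m, Sum.inl x ∈ free π τ m → x ∈ (stA a b k Adm (past π τ m)).1
  | 0 => fun _ => by
    rw [past, stA]
    exact mem_univ x
  | m + 1 => fun h => by
    have ih := free_mem a b k Adm π τ x m (free_anti h)
    rw [past]
    by_cases hm : m < Fintype.card (W ⊕ Fin (zz E W k))
    · rw [dif_pos hm, stA]
      simp only [mem_filter]
      rw [mem_free] at h
      have hs : π ⟨m, hm⟩ ∈ seen π (m + 1) := by
        rw [mem_seen]
        simp
      refine ⟨ih, fun h1 => h.1 (h1 ▸ hs), fun h1 => h.2 _ hs h1.symm⟩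
    · rw [dif_neg hm]
      exact ih

theorem F_mono (a b : E → W) (k : ℕ) (Adm : Finset W → Finset E → Prop)
    (π : Ord (W ⊕ Fin (zz E W k))) (τ : W ⊕ Fin (zz E W k) → W ⊕ Fin (zz E W k)) {m n : ℕ}
    (h : m ≤ n) : (stA a b k Adm (past π τ m)).2 ⊆ (stA a b k Adm (past π τ n)).2 := by
  induction n, h using Nat.le_induction with
  | base => exact subset_rfl
  | succ n _ ih =>
    refine ih.trans ?_
    rw [past]
    by_cases hm : n < Fintype.card (W ⊕ Fin (zz E W k))
    · rw [dif_pos hm, stA]
      exact subset_union_left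
    · rw [dif_neg hm]

end COUNT

open COUNT in
/-- COUNT -/
theorem COUNT : Stmt_COUNT := by
  classical
  intro E W _ _ _ _ a b k Adm hk h π τ hτ hB
  set N := Fintype.card (W ⊕ Fin (zz E W k)) with hN
  refine ⟨(stA a b k Adm (past π τ N)).1, (stA a b k Adm (past π τ N)).2, adm_stA h _, ?_⟩
  -- the good times
  set G : Finset (Fin N) := univ.filter (fun i => π i ∈ free π τ i ∧
    (∃ x y, π i = Sum.inl x ∧ τ (π i) = Sum.inl y) ∧ τ (π i) ≠ π i ∧
    ¬ BlkA a b k Adm (past π τ i) (π i) (τ (π i))) with hG
  set Bk : Finset (Fin N) := univ.filter (fun i : Fin N => π i ∈ free π τ i ∧ τ (π i) ≠ π i ∧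
    BlkA a b k Adm (past π τ i) (π i) (τ (π i))) with hBk
  have hBkc : Bk.card = blk (BlkA a b k Adm) π τ := by
    rw [hBk]
    unfold blk
    congr
  -- edges of the good times
  have hedge : ∀ i ∈ G, ∃ e, ((π i = Sum.inl (a e) ∧ τ (π i) = Sum.inl (b e)) ∨
      (π i = Sum.inl (b e) ∧ τ (π i) = Sum.inl (a e))) ∧
      e ∈ (stA a b k Adm (past π τ N)).2 := by
    intro i hi
    rw [hG, mem_filter] at hi
    obtain ⟨-, hfree, ⟨x, y, hx, hy⟩, hne, hnb⟩ := hi
    have hpos := hB (π i) hne
    rw [hy, hx] at hpos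
    have hex : ∃ e, (a e = x ∧ b e = y) ∨ (a e = y ∧ b e = x) := by
      by_contra hcon
      rw [BW, if_neg hcon] at hpos
      exact lt_irrefl _ hpos
    obtain ⟨e, he⟩ := hex
    have hxU : x ∈ (stA a b k Adm (past π τ i)).1 :=
      free_mem a b k Adm π τ x i (hx ▸ hfree)
    have hyU : y ∈ (stA a b k Adm (past π τ i)).1 :=
      free_mem a b k Adm π τ y i (hy ▸ free_partner hτ hfree)
    have hor : (π i = Sum.inl (a e) ∧ τ (π i) = Sum.inl (b e)) ∨
      (π i = Sum.inl (b e) ∧ τ (π i) = Sum.inl (a e)) := by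
      rcases he with ⟨h1, h2⟩ | ⟨h1, h2⟩
      · exact Or.inl ⟨by rw [hx, h1], by rw [hy, h2]⟩
      · exact Or.inr ⟨by rw [hx, h2], by rw [hy, h1]⟩
    have haU : a e ∈ (stA a b k Adm (past π τ i)).1 := by
      rcases he with ⟨h1, h2⟩ | ⟨h1, h2⟩
      · rw [h1]; exact hxU
      · rw [h1]; exact hyU
    have hbU : b e ∈ (stA a b k Adm (past π τ i)).1 := by
      rcases he with ⟨h1, h2⟩ | ⟨h1, h2⟩
      · rw [h2]; exact hyU
      · rw [h2]; exact hxU
    have hAdm : Adm (((stA a b k Adm (past π τ i)).1.erase (a e)).erase (b e))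
        (insert e (stA a b k Adm (past π τ i)).2) := by
      by_contra hcon
      exact hnb ⟨e, hor, haU, hbU, hcon⟩
    refine ⟨e, hor, ?_⟩
    have hmem : e ∈ (stA a b k Adm (past π τ ((i : ℕ) + 1))).2 := by
      rw [past, dif_pos i.2, stA]
      simp only [mem_union, mem_filter, mem_univ, true_and]
      exact Or.inr ⟨hor, haU, hbU, hAdm⟩
    exact F_mono a b k Adm π τ (Nat.succ_le_of_lt i.2) hmem
  -- the number of good times
  have hGF : G.card ≤ (stA a b k Adm (past π τ N)).2.card := by
    rcases G.eq_empty_or_nonempty with hGe | ⟨i0, hi0⟩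
    · rw [hGe]
      simp
    have : Nonempty E := ⟨(hedge i0 hi0).choose⟩
    choose! g hg1 hg2 using hedge
    refine card_le_card_of_injOn g (fun i hi => hg2 i hi) ?_
    -- if two times have the same edge, they are equal
    have key : ∀ i ∈ G, ∀ j ∈ G, g i = g j → ¬ (j < i) := by
      intro i hi j hj hij hlt
      have h1 := hg1 i hi
      have h2 := hg1 j hj
      rw [← hij] at h2
      have hfree : π i ∈ free π τ i := by
        rw [hG, mem_filter] at hi
        exact hi.2.1
      have hseen : π j ∈ seen π i := by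
        rw [mem_seen]
        simpa using hlt
      rw [mem_free] at hfree
      have hne : π i ≠ π j := fun e => hfree.1 (e ▸ hseen)
      have hne' : τ (π j) ≠ π i := hfree.2 _ hseen
      rcases h1 with ⟨p1, p2⟩ | ⟨p1, p2⟩ <;> rcases h2 with ⟨q1, q2⟩ | ⟨q1, q2⟩
      · exact hne (p1.trans q1.symm)
      · exact hne' (q2.trans p1.symm)
      · exact hne' (q2.trans p1.symm)
      · exact hne (p1.trans q1.symm)
    intro i hi j hj hij
    rcases lt_trichotomy i j with h1 | h1 | h1
    · exact absurd h1 (key j hj i hi hij.symm)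
    · exact h1
    · exact absurd h1 (key i hi j hj hij)
  -- the slots
  set S1 : Finset W := univ.filter (fun x => τ (Sum.inl x) = Sum.inl x) with hS1
  set S2 : Finset W := univ.filter (fun x => ∃ j, τ (Sum.inl x) = Sum.inr j) with hS2
  set S3 : Finset W := univ.filter (fun x => ∃ y, τ (Sum.inl x) = Sum.inl y ∧ y ≠ x) with hS3
  have hcov : (univ : Finset W) ⊆ S1 ∪ S2 ∪ S3 := by
    intro x _
    simp only [hS1, hS2, hS3, mem_union, mem_filter, mem_univ, true_and]
    rcases hx : τ (Sum.inl x) with y | j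
    · by_cases hxy : y = x
      · exact Or.inl (Or.inl (by rw [hxy]))
      · exact Or.inr ⟨y, rfl, hxy⟩
    · exact Or.inl (Or.inr ⟨j, rfl⟩)
  have hc1 : S1.card ≤ fixn τ := by
    unfold fixn
    refine card_le_card_of_injOn (fun x => Sum.inl x) (fun x hx => ?_)
      (Sum.inl_injective.injOn)
    have hx' : τ (Sum.inl x) = Sum.inl x := by
      have := hx
      simp only [hS1, coe_filter, mem_univ, true_and, Set.mem_ofPred_eq] at this
      exact this
    simp [hx']
  have hc2 : S2.card ≤ zz E W k := by
    have hz : (univ.map (Function.Embedding.inr : Fin (zz E W k) ↪ W ⊕ Fin (zz E W k))).card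
        = zz E W k := by simp
    rw [← hz]
    refine card_le_card_of_injOn (fun x => τ (Sum.inl x)) (fun x hx => ?_) ?_
    · simp only [hS2, coe_filter, mem_univ, true_and, Set.mem_ofPred_eq] at hx
      obtain ⟨j, hj⟩ := hx
      simp only [coe_map, Set.mem_image]
      exact ⟨j, by simp, hj.symm⟩
    · intro x _ y _ hxy
      have : (Sum.inl x : W ⊕ Fin (zz E W k)) = Sum.inl y := by
        rw [← hτ (Sum.inl x), ← hτ (Sum.inl y)]
        exact congrArg τ hxy
      exact Sum.inl_injective this
  have hc3 : S3.card ≤ 2 * (G ∪ Bk).card := by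
    have hsub : S3.map (Function.Embedding.inl : W ↪ W ⊕ Fin (zz E W k)) ⊆
        (G ∪ Bk).image (fun i => π i) ∪ (G ∪ Bk).image (fun i => τ (π i)) := by
      intro v hv
      simp only [mem_map, hS3, mem_filter, mem_univ, true_and] at hv
      obtain ⟨x, ⟨y, hxy, hne⟩, rfl⟩ := hv
      simp only [Function.Embedding.inl_apply]
      have hyx : τ (Sum.inl y) = Sum.inl x := by rw [← hxy, hτ]
      -- the general membership
      have gen : ∀ u w : W, τ (Sum.inl u) = Sum.inl w → w ≠ u →
          π.symm (Sum.inl u) < π.symm (Sum.inl w) → π.symm (Sum.inl u) ∈ G ∪ Bk := by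
        intro u w huw hwu hlt
        have hwu' : τ (Sum.inl w) = Sum.inl u := by rw [← huw, hτ]
        have hfree : (Sum.inl u : W ⊕ Fin (zz E W k)) ∈
            free π τ ((π.symm (Sum.inl u) : Fin N) : ℕ) := by
          rw [mem_free]
          refine ⟨fun h1 => ?_, fun v hv h1 => ?_⟩
          · rw [mem_seen] at h1
            exact lt_irrefl _ h1
          · have hvw : v = Sum.inl w := by rw [← hτ v, h1, huw]
            rw [mem_seen, hvw] at hv
            exact absurd hv (not_lt.2 (le_of_lt hlt))
        have hne1 : τ (Sum.inl u) ≠ Sum.inl u := by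
          rw [huw]
          intro e
          exact hwu (Sum.inl_injective e)
        rw [mem_union]
        by_cases hb : BlkA a b k Adm (past π τ ((π.symm (Sum.inl u) : Fin N) : ℕ)) (Sum.inl u)
            (τ (Sum.inl u))
        · right
          rw [hBk, mem_filter]
          rw [Equiv.apply_symm_apply]
          exact ⟨mem_univ _, hfree, hne1, hb⟩
        · left
          rw [hG, mem_filter]
          rw [Equiv.apply_symm_apply]
          exact ⟨mem_univ _, hfree, ⟨u, w, rfl, huw⟩, hne1, hb⟩
      rw [mem_union, mem_image, mem_image]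
      rcases lt_trichotomy (π.symm (Sum.inl x)) (π.symm (Sum.inl y)) with h1 | h1 | h1
      · exact Or.inl ⟨_, gen x y hxy hne h1, Equiv.apply_symm_apply _ _⟩
      · exact absurd (Sum.inl_injective (π.symm.injective h1)).symm hne
      · refine Or.inr ⟨_, gen y x hyx hne.symm h1, ?_⟩
        rw [Equiv.apply_symm_apply, hyx]
    calc S3.card = (S3.map (Function.Embedding.inl : W ↪ W ⊕ Fin (zz E W k))).card := by simp
      _ ≤ _ := card_le_card hsub
      _ ≤ _ := card_union_le _ _
      _ ≤ (G ∪ Bk).card + (G ∪ Bk).card := Nat.add_le_add card_image_le card_image_le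
      _ = 2 * (G ∪ Bk).card := by ring
  have hW : Fintype.card W ≤ S1.card + S2.card + S3.card := by
    calc Fintype.card W = (univ : Finset W).card := rfl
      _ ≤ (S1 ∪ S2 ∪ S3).card := card_le_card hcov
      _ ≤ (S1 ∪ S2).card + S3.card := card_union_le _ _
      _ ≤ S1.card + S2.card + S3.card := Nat.add_le_add_right (card_union_le _ _) _
  have hGB : (G ∪ Bk).card ≤ G.card + Bk.card := card_union_le _ _
  rw [hBkc] at hGB
  omega

end Pool.Agent.Rem2
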