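import Pool.Agent.Rem2.Stmts

/-!
# MP_df1a54_co: expectation of the second denominator (module Rem2_ED)
-/

set_option autoImplicit false

namespace Pool.Agent.Rem2.ED

open Finset

/-- the weights of the blocked pairs -/
theorem term_le {b e : ℝ} (hb : 0 ≤ b) (he : e ≤ 11 / 4) (p : Prop) [Decidable p] :
    b * (if p then e else 1) ≤ b + 7 / 4 * (if p then b else 0) := by
  split_ifs
  · nlinarith
  · simp

/-- bound for one denominator -/
theorem den2_le {V : Type} [Fintype V] [DecidableEq V] (B : V → V → ℝ) (k : ℕ)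
    (Blk : List (V × V) → V → V → Prop) (hB : ∀ v y, 0 ≤ B v y) (π : Ord V) (f : V → V) (m : ℕ)
    (v : V) :
    den2 B k Blk π f m v ≤ 1 / (k : ℝ) + ∑ y ∈ (free π f m).erase v, B v y +
      7 / 4 * (open Classical in ∑ y ∈ free π f m,
        (if Blk (past π f m) v y then B v y else 0)) := by
  classical
  have he : Real.exp 1 ≤ 11 / 4 := by
    have := Real.exp_one_lt_d9
    linarith
  have h0 : den2 B k Blk π f m v = 1 / (k : ℝ) + ∑ y ∈ (free π f m).erase v,
      B v y * (if Blk (past π f m) v y then Real.exp 1 else 1) := by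
    unfold den2
    congr 1
    refine sum_congr (by ext y; simp) fun y _ => ?_
    congr
  have h1 : ∑ y ∈ (free π f m).erase v,
      B v y * (if Blk (past π f m) v y then Real.exp 1 else 1) ≤
      ∑ y ∈ (free π f m).erase v,
        (B v y + 7 / 4 * (if Blk (past π f m) v y then B v y else 0)) :=
    sum_le_sum fun y _ => term_le (hB v y) he _
  have h2 : ∑ y ∈ (free π f m).erase v, (if Blk (past π f m) v y then B v y else 0) ≤
      ∑ y ∈ free π f m, (if Blk (past π f m) v y then B v y else 0) :=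
    sum_le_sum_of_subset_of_nonneg (erase_subset _ _) fun y _ _ => by
      split_ifs
      · exact hB v y
      · exact le_rfl
  rw [sum_add_distrib, ← mul_sum] at h1
  rw [h0]
  linarith

/-- sum of the denominators of the free vertices -/
theorem sum_den2_le {V : Type} [Fintype V] [DecidableEq V] (B : V → V → ℝ) (k : ℕ)
    (Blk : List (V × V) → V → V → Prop) (hB : ∀ v y, 0 ≤ B v y) (τ : V → V)
    (hF : Forest B k Blk τ) (π : Ord V) (m : ℕ) :
    ∑ v ∈ free π τ m, den2 B k Blk π τ m v ≤
      9 / 2 / (k : ℝ) * (free π τ m).card + ∑ v ∈ free π τ m, ∑ y ∈ (free π τ m).erase v, B v y := by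
  classical
  have h1 := sum_le_sum (s := free π τ m) fun v _ => den2_le B k Blk hB π τ m v
  rw [sum_add_distrib, sum_add_distrib, sum_const, nsmul_eq_mul, ← mul_sum] at h1
  have h2 := hF π m
  have h3 : 9 / 2 / (k : ℝ) * (free π τ m).card =
      (free π τ m).card * (1 / (k : ℝ)) + 7 / 4 * (2 / (k : ℝ) * (free π τ m).card) := by ring
  rw [h3]
  linarith

/-- the free vertices are unseen -/
theorem inter_free {V : Type} [Fintype V] [DecidableEq V] (π : Ord V) (τ : V → V) (m : ℕ) :
    (seen π m)ᶜ ∩ free π τ m = free π τ m := by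
  apply inter_eq_right.2
  intro v hv
  rw [mem_compl]
  simp only [free, mem_filter, mem_univ, true_and] at hv
  exact hv.1

end Pool.Agent.Rem2.ED

namespace Pool.Agent.Rem2

open Finset

theorem ED (h1 : Stmt_ORD) (h2 : Stmt_EFREE) : Stmt_ED := by
  intro V _ _ B μ k Blk τ hk8 hkN hB hμ hμs hτ hF i s hs
  obtain ⟨ha, hb, -, -⟩ := h1 V
  have hN2 : 2 ≤ Fintype.card V := by omega
  obtain ⟨e1, e2, -⟩ := h2 V τ hN2 hτ
  set H : Ord V → V → ℝ := fun π v => if v ∈ free π τ i then den2 B k Blk π τ i v else 0 with hH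
  have hinv : ∀ π j, i ≤ j → ∀ v, H ((Equiv.swap i j).trans π) v = H π v := by
    intro π j hij v
    obtain ⟨-, g2, g3⟩ := ha π τ i j i hij le_rfl
    have g4 : den2 B k Blk ((Equiv.swap i j).trans π) τ i v = den2 B k Blk π τ i v := by
      unfold den2
      rw [g2, g3]
    simp only [hH]
    rw [g2, g4]
  have hkey := hb i H hinv
  have hN : (0 : ℝ) < Fintype.card V := by
    have : 0 < Fintype.card V := by omega
    exact_mod_cast this
  have hk : (0 : ℝ) < k := by
    have : 0 < k := by omega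
    exact_mod_cast this
  have hi : ((i : ℕ) : ℝ) < Fintype.card V := by exact_mod_cast i.2
  have hs0 : 0 < s := by
    rw [hs]
    exact div_pos (by linarith) hN
  have hsN : (Fintype.card V : ℝ) - (i : ℕ) = Fintype.card V * s := by
    rw [hs]
    field_simp
  -- the sum over the orders
  have hbound : ∑ π : Ord V, ∑ v ∈ (seen π i)ᶜ, H π v ≤
      9 / 2 / (k : ℝ) * ∑ π : Ord V, ((free π τ i).card : ℝ) +
        ∑ π : Ord V, ∑ v ∈ free π τ i, ∑ y ∈ (free π τ i).erase v, B v y := by
    rw [mul_sum, ← sum_add_distrib]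
    refine sum_le_sum fun π _ => ?_
    have h3 : ∑ v ∈ (seen π i)ᶜ, H π v = ∑ v ∈ free π τ i, den2 B k Blk π τ i v := by
      rw [hH]
      simp only
      rw [sum_ite_mem, ED.inter_free]
    rw [h3]
    exact ED.sum_den2_le B k Blk hB.nonneg τ hF π i
  have hρ : ∑ v, B v (τ v) ≤ 3 * Fintype.card V / k := by
    have h3 : ∑ v, B v (τ v) ≤ ∑ v, μ v := sum_le_sum fun v _ => hμ v _
    have h4 : (2 : ℝ) ≤ 2 * Fintype.card V / k := by
      rw [le_div_iff₀ hk]
      have : (k : ℝ) ≤ Fintype.card V := by exact_mod_cast hkN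
      linarith
    have h5 : 3 * (Fintype.card V : ℝ) / k = Fintype.card V / k + 2 * Fintype.card V / k := by ring
    linarith
  have f1 := e1 i i.2.le
  have f2 := e2 B _ i i.2.le hB hρ
  rw [← hs] at f1 f2
  have hfac : (0 : ℝ) < (Fintype.card V).factorial := by exact_mod_cast Nat.factorial_pos _
  have hφ : (0 : ℝ) ≤ fixn τ := Nat.cast_nonneg _
  -- the goal
  have hgoal : ∑ π : Ord V, (if π i ∈ free π τ i then den2 B k Blk π τ i (π i) else 0) =
      ∑ π : Ord V, H π (π i) := rfl
  rw [hgoal]
  have hc : (0 : ℝ) ≤ 9 / 2 / (k : ℝ) := by positivity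
  have f3 := mul_le_mul_of_nonneg_left f1 hc
  have hmain : (Fintype.card V : ℝ) * s * ∑ π : Ord V, H π (π i) ≤
      Fintype.card V * s * ((Fintype.card V).factorial *
      (s * (s ^ 2 + 8 / k) + fixn τ / Fintype.card V * (2 * s + 5 / k))) := by
    rw [← hsN, hkey, hsN]
    refine hbound.trans ((add_le_add f3 f2).trans ?_)
    have h6 : (Fintype.card V : ℝ) * s * ((Fintype.card V).factorial *
      (s * (s ^ 2 + 8 / k) + fixn τ / Fintype.card V * (2 * s + 5 / k))) =
      9 / 2 / (k : ℝ) * ((Fintype.card V).factorial *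
        (Fintype.card V * s ^ 2 + fixn τ * s)) +
      (Fintype.card V).factorial * (Fintype.card V * s ^ 4 +
        (3 * Fintype.card V / k + 2 * fixn τ) * s ^ 2) +
      (Fintype.card V).factorial * (1 / 2 * (Fintype.card V / k) * s ^ 2 +
        1 / 2 * (fixn τ / k) * s) := by
      field_simp
      ring
    rw [h6]
    have h7 : (0 : ℝ) ≤ (Fintype.card V).factorial * (1 / 2 * (Fintype.card V / k) * s ^ 2 +
        1 / 2 * (fixn τ / k) * s) := by positivity
    linarith
  exact le_of_mul_le_mul_left hmain (mul_pos hN hs0)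

end Pool.Agent.Rem2
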