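import Pool.Agent.Rem2.DefsA

/-!
# MP_df1a54_co: the blocked pairs have small weight
-/

set_option autoImplicit false

namespace Pool.Agent.Rem2.FOREST

open Finset

variable {E W : Type} [Fintype E] [Fintype W] [DecidableEq E] [DecidableEq W]

/-- Every state is admissible. -/
theorem adm {a b : E → W} {k : ℕ} {Adm : Finset W → Finset E → Prop} (h : SlotSys a b k Adm)
    (l : List ((W ⊕ Fin (zz E W k)) × (W ⊕ Fin (zz E W k)))) :
    Adm (stA a b k Adm l).1 (stA a b k Adm l).2 := by
  classical
  induction l with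
  | nil => exact h.start
  | cons p l ih =>
    simp only [stA]
    set U := (stA a b k Adm l).1 with hU
    set F := (stA a b k Adm l).2 with hF
    by_cases hne : ∃ e, ((p.1 = Sum.inl (a e) ∧ p.2 = Sum.inl (b e)) ∨
          (p.1 = Sum.inl (b e) ∧ p.2 = Sum.inl (a e))) ∧
        a e ∈ U ∧ b e ∈ U ∧ Adm ((U.erase (a e)).erase (b e)) (insert e F)
    · obtain ⟨e, hpe, hae, hbe, hadm⟩ := hne
      have hfil : (univ.filter (fun e =>
        ((p.1 = Sum.inl (a e) ∧ p.2 = Sum.inl (b e)) ∨
          (p.1 = Sum.inl (b e) ∧ p.2 = Sum.inl (a e))) ∧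
        a e ∈ U ∧ b e ∈ U ∧
        Adm ((U.erase (a e)).erase (b e)) (insert e F))) = {e} := by
        ext e'
        simp only [mem_filter, mem_univ, true_and, mem_singleton]
        constructor
        · rintro ⟨hp', -, -, -⟩
          apply h.inj
          rcases hp' with ⟨h1, h2⟩ | ⟨h1, h2⟩ <;> rcases hpe with ⟨h3, h4⟩ | ⟨h3, h4⟩
          · left
            exact ⟨Sum.inl_injective (h1.symm.trans h3), Sum.inl_injective (h2.symm.trans h4)⟩
          · right
            exact ⟨Sum.inl_injective (h1.symm.trans h3), Sum.inl_injective (h2.symm.trans h4)⟩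
          · right
            exact ⟨Sum.inl_injective (h2.symm.trans h4), Sum.inl_injective (h1.symm.trans h3)⟩
          · left
            exact ⟨Sum.inl_injective (h2.symm.trans h4), Sum.inl_injective (h1.symm.trans h3)⟩
        · rintro rfl
          exact ⟨hpe, hae, hbe, hadm⟩
      rw [hfil]
      have hF' : F ∪ {e} = insert e F := by
        ext z
        simp
      rw [hF']
      refine h.mono _ _ _ hadm ?_
      intro x hx
      rw [mem_filter] at hx
      obtain ⟨hxU, hx1, hx2⟩ := hx
      rw [mem_erase, mem_erase]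
      rcases hpe with ⟨h3, h4⟩ | ⟨h3, h4⟩
      · refine ⟨fun hc => hx2 ?_, fun hc => hx1 ?_, hxU⟩
        · rw [h4, hc]
        · rw [h3, hc]
      · refine ⟨fun hc => hx1 ?_, fun hc => hx2 ?_, hxU⟩
        · rw [h3, hc]
        · rw [h4, hc]
    · have hfil : (univ.filter (fun e =>
        ((p.1 = Sum.inl (a e) ∧ p.2 = Sum.inl (b e)) ∨
          (p.1 = Sum.inl (b e) ∧ p.2 = Sum.inl (a e))) ∧
        a e ∈ U ∧ b e ∈ U ∧
        Adm ((U.erase (a e)).erase (b e)) (insert e F))) = ∅ := by
        apply filter_eq_empty_iff.2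
        intro e _ hc
        exact hne ⟨e, hc⟩
      rw [hfil, union_empty]
      exact h.mono _ _ _ ih (filter_subset _ _)

/-- A slot which is free in the state is in no pair of the list. -/
theorem notMem_of_mem {a b : E → W} {k : ℕ} {Adm : Finset W → Finset E → Prop}
    (l : List ((W ⊕ Fin (zz E W k)) × (W ⊕ Fin (zz E W k)))) (x : W)
    (hx : x ∈ (stA a b k Adm l).1) : ∀ p ∈ l, Sum.inl x ≠ p.1 ∧ Sum.inl x ≠ p.2 := by
  induction l with
  | nil => intro p hp; simp at hp
  | cons q l ih =>
    simp only [stA, mem_filter] at hx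
    intro p hp
    rcases List.mem_cons.1 hp with rfl | hp
    · exact hx.2
    · exact ih hx.1 p hp

theorem mem_free {V : Type} [Fintype V] (π : Ord V) (f : V → V) (m : ℕ) (v : V) :
    v ∈ free π f m ↔ v ∉ seen π m ∧ ∀ u ∈ seen π m, f u ≠ v := by
  simp [free]

/-- The pairs of the past. -/
theorem mem_past {V : Type} [Fintype V] (π : Ord V) (f : V → V) (m : ℕ) (u : V)
    (hu : u ∈ seen π m) : (u, f u) ∈ past π f m := by
  induction m with
  | zero => simp [seen] at hu
  | succ m ih =>
    rw [past]
    simp only [seen, mem_filter, mem_univ, true_and] at hu ih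
    by_cases hlt : ((π.symm u : Fin (Fintype.card V)) : ℕ) < m
    · split_ifs with h
      · exact List.mem_cons_of_mem _ (ih hlt)
      · exact ih hlt
    · have hm : ((π.symm u : Fin (Fintype.card V)) : ℕ) = m := by omega
      have hmlt : m < Fintype.card V := hm ▸ (π.symm u).isLt
      rw [dif_pos hmlt]
      have : π ⟨m, hmlt⟩ = u := by
        have h1 : (⟨m, hmlt⟩ : Fin (Fintype.card V)) = π.symm u := by
          apply Fin.ext
          simp [hm]
        rw [h1, Equiv.apply_symm_apply]
      rw [this]
      exact List.mem_cons_self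

/-- The free slots of the state are free vertices. -/
theorem card_le {a b : E → W} {k : ℕ} {Adm : Finset W → Finset E → Prop}
    (π : Ord (W ⊕ Fin (zz E W k))) (τ : W ⊕ Fin (zz E W k) → W ⊕ Fin (zz E W k)) (m : ℕ) :
    (stA a b k Adm (past π τ m)).1.card ≤ (free π τ m).card := by
  classical
  apply card_le_card_of_injOn (fun x => (Sum.inl x : W ⊕ Fin (zz E W k)))
  · intro x hx
    have hx' : x ∈ (stA a b k Adm (past π τ m)).1 := hx
    have hn := notMem_of_mem _ x hx'
    show (Sum.inl x : W ⊕ Fin (zz E W k)) ∈ free π τ m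
    rw [mem_free]
    refine ⟨?_, ?_⟩
    · intro hs
      exact (hn _ (mem_past π τ m _ hs)).1 rfl
    · intro u hu hc
      exact (hn _ (mem_past π τ m _ hu)).2 hc.symm
  · intro x _ y _ hxy
    exact Sum.inl_injective hxy

end Pool.Agent.Rem2.FOREST

namespace Pool.Agent.Rem2

open Finset

theorem FOREST : Stmt_FOREST := by
  classical
  intro E W _ _ _ _ a b k Adm hk h τ hτ π m
  set l := past π τ m with hl
  set U := (stA a b k Adm l).1 with hU
  set F := (stA a b k Adm l).2 with hF
  have hkpos : (0 : ℝ) < k := by exact_mod_cast hk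
  set D : Finset E := univ.filter (fun e => a e ∈ U ∧ b e ∈ U ∧
    ¬ Adm ((U.erase (a e)).erase (b e)) (insert e F)) with hD
  have hDU : D.card ≤ U.card := by
    refine h.block U F (FOREST.adm h l) D ?_
    intro e he
    exact (mem_filter.1 he).2
  have hUf : U.card ≤ (free π τ m).card := FOREST.card_le π τ m
  -- the pointwise bound
  have hpt : ∀ v y : W ⊕ Fin (zz E W k),
      (if BlkA a b k Adm l v y then BW a b k v y else 0) ≤
        ∑ e ∈ D, ((if v = Sum.inl (a e) then (if y = Sum.inl (b e) then 1 / (k : ℝ) else 0) else 0)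
          + (if v = Sum.inl (b e) then (if y = Sum.inl (a e) then 1 / (k : ℝ) else 0) else 0)) := by
    intro v y
    have hnn : ∀ e ∈ D, (0 : ℝ) ≤
        ((if v = Sum.inl (a e) then (if y = Sum.inl (b e) then 1 / (k : ℝ) else 0) else 0)
          + (if v = Sum.inl (b e) then (if y = Sum.inl (a e) then 1 / (k : ℝ) else 0) else 0)) := by
      intro e _
      have : (0 : ℝ) ≤ 1 / k := by positivity
      split_ifs <;> linarith
    split_ifs with hb
    · obtain ⟨e, hpe, hae, hbe, hadm⟩ := hb
      have heD : e ∈ D := mem_filter.2 ⟨mem_univ _, hae, hbe, hadm⟩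
      refine le_trans ?_ (single_le_sum hnn heD)
      have hk0 : (0 : ℝ) ≤ 1 / k := by positivity
      rcases hpe with ⟨rfl, rfl⟩ | ⟨rfl, rfl⟩
      · have h1 : BW a b k (Sum.inl (a e)) (Sum.inl (b e)) ≤ 1 / (k : ℝ) := by
          simp only [BW]
          split_ifs
          · exact le_rfl
          · exact hk0
        rw [if_pos rfl, if_pos rfl]
        refine h1.trans ?_
        have : (0 : ℝ) ≤ (if (Sum.inl (a e) : W ⊕ Fin (zz E W k)) = Sum.inl (b e) then
          (if (Sum.inl (b e) : W ⊕ Fin (zz E W k)) = Sum.inl (a e) then 1 / (k : ℝ) else 0)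
            else 0) := by split_ifs <;> linarith
        linarith
      · have h1 : BW a b k (Sum.inl (b e)) (Sum.inl (a e)) ≤ 1 / (k : ℝ) := by
          simp only [BW]
          split_ifs
          · exact le_rfl
          · exact hk0
        have h2 : (if (Sum.inl (b e) : W ⊕ Fin (zz E W k)) = Sum.inl (b e) then
          (if (Sum.inl (a e) : W ⊕ Fin (zz E W k)) = Sum.inl (a e) then 1 / (k : ℝ) else 0)
            else 0) = 1 / (k : ℝ) := by rw [if_pos rfl, if_pos rfl]
        rw [h2]
        refine h1.trans ?_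
        have : (0 : ℝ) ≤ (if (Sum.inl (b e) : W ⊕ Fin (zz E W k)) = Sum.inl (a e) then
          (if (Sum.inl (a e) : W ⊕ Fin (zz E W k)) = Sum.inl (b e) then 1 / (k : ℝ) else 0)
            else 0) := by split_ifs <;> linarith
        linarith
    · exact sum_nonneg hnn
  -- the sum over everything
  have hnnB : ∀ v y : W ⊕ Fin (zz E W k), (0 : ℝ) ≤
      ∑ e ∈ D, ((if v = Sum.inl (a e) then (if y = Sum.inl (b e) then 1 / (k : ℝ) else 0) else 0)
          + (if v = Sum.inl (b e) then (if y = Sum.inl (a e) then 1 / (k : ℝ) else 0) else 0)) := by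
    intro v y
    apply sum_nonneg
    intro e _
    have : (0 : ℝ) ≤ 1 / k := by positivity
    split_ifs <;> linarith
  calc ∑ v ∈ free π τ m, ∑ y ∈ free π τ m,
      (if BlkA a b k Adm (past π τ m) v y then BW a b k v y else 0)
      ≤ ∑ v ∈ free π τ m, ∑ y ∈ free π τ m, ∑ e ∈ D,
        ((if v = Sum.inl (a e) then (if y = Sum.inl (b e) then 1 / (k : ℝ) else 0) else 0)
          + (if v = Sum.inl (b e) then (if y = Sum.inl (a e) then 1 / (k : ℝ) else 0) else 0)) :=
        sum_le_sum fun v _ => sum_le_sum fun y _ => hpt v y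
    _ ≤ ∑ v, ∑ y, ∑ e ∈ D,
        ((if v = Sum.inl (a e) then (if y = Sum.inl (b e) then 1 / (k : ℝ) else 0) else 0)
          + (if v = Sum.inl (b e) then (if y = Sum.inl (a e) then 1 / (k : ℝ) else 0) else 0)) := by
        have h0 : ∀ v : W ⊕ Fin (zz E W k), ∑ y ∈ free π τ m, ∑ e ∈ D,
            ((if v = Sum.inl (a e) then (if y = Sum.inl (b e) then 1 / (k : ℝ) else 0) else 0)
            + (if v = Sum.inl (b e) then (if y = Sum.inl (a e) then 1 / (k : ℝ) else 0) else 0)) ≤
            ∑ y, ∑ e ∈ D,
            ((if v = Sum.inl (a e) then (if y = Sum.inl (b e) then 1 / (k : ℝ) else 0) else 0)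
            + (if v = Sum.inl (b e) then (if y = Sum.inl (a e) then 1 / (k : ℝ) else 0) else 0)) :=
          fun v => sum_le_sum_of_subset_of_nonneg (subset_univ _) fun y _ _ => hnnB v y
        refine le_trans (sum_le_sum fun v _ => h0 v) ?_
        exact sum_le_sum_of_subset_of_nonneg (subset_univ _) fun v _ _ =>
          sum_nonneg fun y _ => hnnB v y
    _ = ∑ _e ∈ D, (2 / (k : ℝ)) := by
        have h1 : ∀ v : W ⊕ Fin (zz E W k), ∑ y : W ⊕ Fin (zz E W k), ∑ e ∈ D,
            ((if v = Sum.inl (a e) then (if y = Sum.inl (b e) then 1 / (k : ℝ) else 0) else 0)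
            + (if v = Sum.inl (b e) then (if y = Sum.inl (a e) then 1 / (k : ℝ) else 0) else 0)) =
            ∑ e ∈ D, ((if v = Sum.inl (a e) then 1 / (k : ℝ) else 0) +
              (if v = Sum.inl (b e) then 1 / (k : ℝ) else 0)) := by
          intro v
          rw [sum_comm]
          refine sum_congr rfl fun e _ => ?_
          rw [sum_add_distrib]
          congr 1
          · by_cases hv : v = Sum.inl (a e)
            · simp [hv]
            · simp [hv]
          · by_cases hv : v = Sum.inl (b e)
            · simp [hv]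
            · simp [hv]
        rw [Finset.sum_congr rfl (fun (v : W ⊕ Fin (zz E W k)) _ => h1 v), sum_comm]
        refine sum_congr rfl fun e _ => ?_
        rw [sum_add_distrib, Finset.sum_ite_eq', Finset.sum_ite_eq']
        simp only [mem_univ, if_true]
        ring
    _ = 2 / (k : ℝ) * D.card := by
        rw [sum_const, nsmul_eq_mul, mul_comm]
    _ ≤ 2 / (k : ℝ) * (free π τ m).card := by
        have h2 : (D.card : ℝ) ≤ (free π τ m).card := by exact_mod_cast hDU.trans hUf
        have h3 : (0 : ℝ) ≤ 2 / k := by positivity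
        exact mul_le_mul_of_nonneg_left h2 h3

end Pool.Agent.Rem2
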