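import Pool.Agent.Rem2.Stmts

set_option autoImplicit false

namespace Pool.Agent.Rem2.K1

open Finset

/-- The chain from `y` reaches `v`, all earlier vertices lie in `R`. -/
def Ch {V : Type} (R : Finset V) (f : V → V) (v y : V) : Prop :=
  ∃ j : ℕ, f^[j] y = v ∧ ∀ l, l < j → f^[l] y ∈ R

theorem iter_congr {V : Type} (R : Finset V) (f g : V → V) (y : V)
    (hfg : ∀ x ∈ R, f x = g x) (j : ℕ) (hj : ∀ l, l < j → f^[l] y ∈ R) :
    ∀ l, l ≤ j → g^[l] y = f^[l] y := by
  intro l
  induction l with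
  | zero => intro _; rfl
  | succ l ih =>
    intro hl
    rw [Function.iterate_succ_apply', Function.iterate_succ_apply', ih (by omega)]
    exact (hfg _ (hj l (by omega))).symm

theorem Ch_congr {V : Type} (R : Finset V) (f g : V → V) (v y : V)
    (hfg : ∀ x ∈ R, f x = g x) (h : Ch R f v y) : Ch R g v y := by
  obtain ⟨j, hj, hl⟩ := h
  refine ⟨j, ?_, ?_⟩
  · rw [iter_congr R f g y hfg j hl j le_rfl]; exact hj
  · intro l hlj
    rw [iter_congr R f g y hfg j hl l hlj.le]; exact hl l hlj

theorem Ch_iff {V : Type} (R : Finset V) (f g : V → V) (v y : V)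
    (hfg : ∀ x ∈ R, f x = g x) : Ch R f v y ↔ Ch R g v y :=
  ⟨Ch_congr R f g v y hfg, Ch_congr R g f v y (fun x hx => (hfg x hx).symm)⟩

theorem chain_unique {V : Type} [DecidableEq V] (R : Finset V) (f : V → V)
    (hinj : ∀ a ∈ R, ∀ b ∈ R, f a = f b → a = b) (y y' : V)
    (hy : y ∉ R.image f) (hy' : y' ∉ R.image f) :
    ∀ j j' : ℕ, (∀ l, l < j → f^[l] y ∈ R) → (∀ l, l < j' → f^[l] y' ∈ R) →
      f^[j] y = f^[j'] y' → y = y' := by
  intro j
  induction j with
  | zero =>
    intro j' _ h2 h3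
    cases j' with
    | zero => exact h3
    | succ k =>
      exfalso
      apply hy
      rw [Finset.mem_image]
      refine ⟨f^[k] y', h2 k (by omega), ?_⟩
      rw [← Function.iterate_succ_apply' f k y', ← h3]
      rfl
  | succ k ih =>
    intro j' h1 h2 h3
    cases j' with
    | zero =>
      exfalso
      apply hy'
      rw [Finset.mem_image]
      refine ⟨f^[k] y, h1 k (by omega), ?_⟩
      rw [← Function.iterate_succ_apply' f k y, h3]
      rfl
    | succ k' =>
      apply ih k' (fun l hl => h1 l (by omega)) (fun l hl => h2 l (by omega))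
      rw [Function.iterate_succ_apply', Function.iterate_succ_apply'] at h3
      exact hinj _ (h1 k (by omega)) _ (h2 k' (by omega)) h3

theorem Ch_unique {V : Type} [DecidableEq V] (R : Finset V) (f : V → V) (v : V)
    (hinj : ∀ a ∈ R, ∀ b ∈ R, f a = f b → a = b) (y y' : V)
    (hy : y ∉ R.image f) (hy' : y' ∉ R.image f) (h : Ch R f v y) (h' : Ch R f v y') :
    y = y' := by
  obtain ⟨j, hj, hl⟩ := h
  obtain ⟨j', hj', hl'⟩ := h'
  exact chain_unique R f hinj y y' hy hy' j j' hl hl' (hj.trans hj'.symm)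

theorem mem_seen {V : Type} [Fintype V] (π : Ord V) (m : ℕ) (v : V) :
    v ∈ seen π m ↔ ((π.symm v : Fin (Fintype.card V)) : ℕ) < m := by
  classical
  unfold seen
  simp

theorem self_not_seen {V : Type} [Fintype V] (π : Ord V) (i : Fin (Fintype.card V)) :
    π i ∉ seen π i := by
  rw [mem_seen]; simp

open Classical in
/-- The kernel. -/
noncomputable def Ker {V : Type} [Fintype V] [DecidableEq V] (B : V → V → ℝ) (μ : V → ℝ)
    (π : Ord V) (f : V → V) (i : Fin (Fintype.card V)) : ℝ :=
  if (∀ a ∈ seen π i, ∀ b ∈ seen π i, f a = f b → a = b) ∧ f (π i) ∉ (seen π i).image f then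
    B (π i) (f (π i)) * (if Ch (seen π i) f (π i) (f (π i)) then Real.exp 1 else 1) /
      den1 B μ π f i
  else 0

theorem den1_pos {V : Type} [Fintype V] [DecidableEq V] (B : V → V → ℝ) (μ : V → ℝ)
    (π : Ord V) (f : V → V) (i : Fin (Fintype.card V)) (hB : ∀ v y, 0 ≤ B v y)
    (hμ : ∀ v, 0 < μ v) : 0 < den1 B μ π f i := by
  unfold den1
  have h1 : 0 ≤ ∑ y ∈ ((seen π i).image f)ᶜ, B (π i) y := Finset.sum_nonneg (fun y _ => hB _ _)
  have h2 := hμ (π i)
  linarith

theorem Ker_nonneg {V : Type} [Fintype V] [DecidableEq V] (B : V → V → ℝ) (μ : V → ℝ)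
    (π : Ord V) (f : V → V) (i : Fin (Fintype.card V)) (hB : ∀ v y, 0 ≤ B v y)
    (hμ : ∀ v, 0 < μ v) : 0 ≤ Ker B μ π f i := by
  unfold Ker
  split_ifs with h1 h2
  · exact div_nonneg (mul_nonneg (hB _ _) (Real.exp_pos 1).le) (den1_pos B μ π f i hB hμ).le
  · exact div_nonneg (mul_nonneg (hB _ _) zero_le_one) (den1_pos B μ π f i hB hμ).le
  · exact le_rfl

theorem image_congr' {V : Type} [DecidableEq V] (R : Finset V) (f g : V → V)
    (hfg : ∀ x ∈ R, f x = g x) : R.image f = R.image g := by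
  apply Finset.image_congr
  intro x hx
  exact hfg x hx

theorem inj_congr {V : Type} (R : Finset V) (f g : V → V) (hfg : ∀ x ∈ R, f x = g x) :
    (∀ a ∈ R, ∀ b ∈ R, f a = f b → a = b) ↔ (∀ a ∈ R, ∀ b ∈ R, g a = g b → a = b) := by
  constructor
  · intro h a ha b hb hab
    exact h a ha b hb (by rw [hfg a ha, hfg b hb]; exact hab)
  · intro h a ha b hb hab
    exact h a ha b hb (by rw [← hfg a ha, ← hfg b hb]; exact hab)

theorem den1_congr {V : Type} [Fintype V] [DecidableEq V] (B : V → V → ℝ) (μ : V → ℝ)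
    (π : Ord V) (f g : V → V) (i : Fin (Fintype.card V))
    (hfg : ∀ x ∈ seen π i, f x = g x) : den1 B μ π f i = den1 B μ π g i := by
  unfold den1
  rw [image_congr' (seen π i) f g hfg]

theorem Ker_congr {V : Type} [Fintype V] [DecidableEq V] (B : V → V → ℝ) (μ : V → ℝ)
    (π : Ord V) (f g : V → V) (i : Fin (Fintype.card V))
    (hfg : ∀ j, j ≤ i → f (π j) = g (π j)) : Ker B μ π f i = Ker B μ π g i := by
  have h1 : ∀ x ∈ seen π i, f x = g x := by
    intro x hx
    rw [mem_seen] at hx
    have h2 := hfg (π.symm x) (by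
      rw [Fin.le_def]; exact hx.le)
    rw [Equiv.apply_symm_apply] at h2
    exact h2
  have h0 : f (π i) = g (π i) := hfg i le_rfl
  unfold Ker
  rw [den1_congr B μ π f g i h1, image_congr' (seen π i) f g h1, h0,
    propext (Ch_iff (seen π i) f g (π i) (g (π i)) h1)]
  simp only [inj_congr (seen π i) f g h1]

theorem Ker_sum {V : Type} [Fintype V] [DecidableEq V] (B : V → V → ℝ) (μ : V → ℝ)
    (π : Ord V) (hB : ∀ v y, 0 ≤ B v y) (hBμ : ∀ v y, B v y ≤ μ v)
    (hμ : ∀ v, 0 < μ v) (f : V → V) (i : Fin (Fintype.card V)) :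
    ∑ y, Ker B μ π (Function.update f (π i) y) i ≤ 1 := by
  classical
  have hns := self_not_seen π i
  have hup : ∀ y, ∀ x ∈ seen π i, (Function.update f (π i) y) x = f x := by
    intro y x hx
    apply Function.update_of_ne
    rintro rfl
    exact hns hx
  by_cases hinj : ∀ a ∈ seen π i, ∀ b ∈ seen π i, f a = f b → a = b
  · set D := den1 B μ π f i with hD
    have hDpos : 0 < D := den1_pos B μ π f i hB hμ
    set C : Finset V := ((seen π i).image f)ᶜ with hC
    have hker : ∀ y, Ker B μ π (Function.update f (π i) y) i =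
        if y ∈ C then B (π i) y * (if Ch (seen π i) f (π i) y then Real.exp 1 else 1) / D
        else 0 := by
      intro y
      unfold Ker
      rw [den1_congr B μ π _ f i (hup y), image_congr' (seen π i) _ f (hup y),
        Function.update_self]
      simp only [inj_congr (seen π i) _ f (hup y), Ch_iff (seen π i) _ f (π i) y (hup y)]
      have hmem : y ∈ C ↔ y ∉ (seen π i).image f := by rw [hC, Finset.mem_compl]
      by_cases hy : y ∉ (seen π i).image f
      · rw [if_pos ⟨hinj, hy⟩, if_pos (hmem.2 hy)]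
      · rw [if_neg (fun h => hy h.2), if_neg (fun h => hy (hmem.1 h))]
    have hsum : ∑ y, Ker B μ π (Function.update f (π i) y) i =
        (∑ y ∈ C, B (π i) y * (if Ch (seen π i) f (π i) y then Real.exp 1 else 1)) / D := by
      rw [Finset.sum_congr rfl (fun y _ => hker y), Finset.sum_ite_mem, Finset.univ_inter,
        Finset.sum_div]
    rw [hsum, div_le_one hDpos]
    have hsplit : ∀ y ∈ C, B (π i) y * (if Ch (seen π i) f (π i) y then Real.exp 1 else 1) =
        B (π i) y + (if Ch (seen π i) f (π i) y then (Real.exp 1 - 1) * B (π i) y else 0) := by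
      intro y _
      split_ifs <;> ring
    rw [Finset.sum_congr rfl hsplit, Finset.sum_add_distrib, ← Finset.sum_filter]
    have he : Real.exp 1 - 1 ≤ 2 := by
      have := Real.exp_one_lt_d9
      linarith
    have he0 : 0 ≤ Real.exp 1 - 1 := by
      have := Real.add_one_le_exp (1 : ℝ)
      linarith
    have hcard : (C.filter (fun y => Ch (seen π i) f (π i) y)).card ≤ 1 := by
      rw [Finset.card_le_one]
      intro a ha b hb
      rw [Finset.mem_filter] at ha hb
      rw [hC, Finset.mem_compl] at ha hb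
      exact Ch_unique (seen π i) f (π i) hinj a b ha.1 hb.1 ha.2 hb.2
    have hbound : ∑ y ∈ C.filter (fun y => Ch (seen π i) f (π i) y),
        (Real.exp 1 - 1) * B (π i) y ≤ 2 * μ (π i) := by
      have hterm : ∀ y ∈ C.filter (fun y => Ch (seen π i) f (π i) y),
          (Real.exp 1 - 1) * B (π i) y ≤ 2 * μ (π i) := by
        intro y _
        have h1 := hBμ (π i) y
        have h2 := hB (π i) y
        have h3 := hμ (π i)
        calc (Real.exp 1 - 1) * B (π i) y ≤ 2 * B (π i) y := mul_le_mul_of_nonneg_right he h2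
          _ ≤ 2 * μ (π i) := by linarith
      have h4 := Finset.sum_le_card_nsmul _ _ _ hterm
      rw [nsmul_eq_mul] at h4
      have h5 : ((C.filter (fun y => Ch (seen π i) f (π i) y)).card : ℝ) ≤ 1 := by
        exact_mod_cast hcard
      have h6 : 0 < 2 * μ (π i) := by have := hμ (π i); linarith
      calc _ ≤ ((C.filter (fun y => Ch (seen π i) f (π i) y)).card : ℝ) * (2 * μ (π i)) := h4
        _ ≤ 1 * (2 * μ (π i)) := mul_le_mul_of_nonneg_right h5 h6.le
        _ = 2 * μ (π i) := one_mul _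
    have hDe : D = ∑ y ∈ C, B (π i) y + 2 * μ (π i) := by
      rw [hD, hC]; rfl
    rw [hDe]
    linarith
  · have hz : ∀ y, Ker B μ π (Function.update f (π i) y) i = 0 := by
      intro y
      unfold Ker
      rw [if_neg]
      rintro ⟨h, _⟩
      exact hinj ((inj_congr (seen π i) _ f (hup y)).1 h)
    rw [Finset.sum_congr rfl (fun y _ => hz y), Finset.sum_const_zero]
    exact zero_le_one

theorem pow_eq_iter {V : Type} (σ : Equiv.Perm V) (n : ℕ) (v : V) :
    (σ ^ n) v = (⇑σ)^[n] v := by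
  rw [Equiv.Perm.iterate_eq_pow]

theorem Clo_Ch {V : Type} [Fintype V] [DecidableEq V] (π : Ord V) (σ : Equiv.Perm V)
    (i : Fin (Fintype.card V)) (h : Clo π σ i) :
    Ch (seen π i) σ (π i) (σ (π i)) := by
  classical
  have hex : ∃ n : ℕ, 0 < n ∧ (σ ^ n) (π i) = π i := by
    refine ⟨orderOf σ, orderOf_pos σ, ?_⟩
    rw [pow_orderOf_eq_one]
    rfl
  have hn := Nat.find_spec hex
  set n := Nat.find hex with hndef
  refine ⟨n - 1, ?_, ?_⟩
  · rw [← Function.iterate_succ_apply, Nat.succ_eq_add_one, Nat.sub_add_cancel hn.1,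
      ← pow_eq_iter]
    exact hn.2
  · intro l hl
    rw [← Function.iterate_succ_apply, Nat.succ_eq_add_one, ← pow_eq_iter]
    apply h
    intro hc
    exact Nat.find_min hex (m := l + 1) (by omega) ⟨by omega, hc⟩

theorem term_le {V : Type} [Fintype V] [DecidableEq V] (B : V → V → ℝ) (μ : V → ℝ)
    (π : Ord V) (hB : ∀ v y, 0 ≤ B v y) (hμ : ∀ v, 0 < μ v) (σ : Equiv.Perm V)
    (i : Fin (Fintype.card V)) :
    (open Classical in (B (π i) (σ (π i)) * (if Clo π σ i then Real.exp 1 else 1) /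
      den1 B μ π σ i)) ≤ Ker B μ π σ i := by
  classical
  have hns := self_not_seen π i
  have hc : (∀ a ∈ seen π i, ∀ b ∈ seen π i, σ a = σ b → a = b) ∧
      σ (π i) ∉ (seen π i).image σ := by
    refine ⟨fun a _ b _ hab => σ.injective hab, ?_⟩
    intro hm
    rw [Finset.mem_image] at hm
    obtain ⟨a, ha, hab⟩ := hm
    rw [σ.injective hab] at ha
    exact hns ha
  unfold Ker
  rw [if_pos hc]
  apply div_le_div_of_nonneg_right _ (den1_pos B μ π σ i hB hμ).le
  apply mul_le_mul_of_nonneg_left _ (hB _ _)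
  have he1 : (1 : ℝ) ≤ Real.exp 1 := by
    have := Real.add_one_le_exp (1 : ℝ)
    linarith
  by_cases h1 : Clo π σ i
  · rw [if_pos h1, if_pos (Clo_Ch π σ i h1)]
  · rw [if_neg h1]
    split_ifs
    · exact he1
    · exact le_rfl

theorem term_nonneg {V : Type} [Fintype V] [DecidableEq V] (B : V → V → ℝ) (μ : V → ℝ)
    (π : Ord V) (hB : ∀ v y, 0 ≤ B v y) (hμ : ∀ v, 0 < μ v) (σ : Equiv.Perm V)
    (i : Fin (Fintype.card V)) :
    0 ≤ (open Classical in (B (π i) (σ (π i)) * (if Clo π σ i then Real.exp 1 else 1) /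
      den1 B μ π σ i)) := by
  apply div_nonneg _ (den1_pos B μ π σ i hB hμ).le
  apply mul_nonneg (hB _ _)
  split_ifs
  · exact (Real.exp_pos 1).le
  · exact zero_le_one

end Pool.Agent.Rem2.K1

namespace Pool.Agent.Rem2

open Finset

theorem K1 (h : Stmt_SEQ) : Stmt_K1 := by
  intro V _ _ B μ π hB hBμ hμ
  classical
  have hseq := h V π (K1.Ker B μ π) (fun f i => K1.Ker_nonneg B μ π f i hB hμ)
    (fun f g i hfg => K1.Ker_congr B μ π f g i hfg)
    (fun f i => K1.Ker_sum B μ π hB hBμ hμ f i)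
  have h1 : (open Classical in ∑ σ : Equiv.Perm V, ∏ i, (B (π i) (σ (π i)) *
      (if Clo π σ i then Real.exp 1 else 1) / den1 B μ π σ i)) ≤
      ∑ σ : Equiv.Perm V, ∏ i, K1.Ker B μ π σ i := by
    apply Finset.sum_le_sum
    intro σ _
    apply Finset.prod_le_prod
    · intro i _
      exact K1.term_nonneg B μ π hB hμ σ i
    · intro i _
      exact K1.term_le B μ π hB hμ σ i
  have h2 : ∑ σ : Equiv.Perm V, ∏ i, K1.Ker B μ π σ i ≤
      ∑ f : V → V, ∏ i, K1.Ker B μ π f i := by
    have hinj : Function.Injective (fun σ : Equiv.Perm V => (σ : V → V)) :=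
      DFunLike.coe_injective
    have h3 : ∑ σ : Equiv.Perm V, ∏ i, K1.Ker B μ π σ i =
        ∑ f ∈ (univ : Finset (Equiv.Perm V)).image (fun σ : Equiv.Perm V => (σ : V → V)),
          ∏ i, K1.Ker B μ π f i := by
      rw [Finset.sum_image (fun a _ b _ hab => hinj hab)]
    rw [h3]
    apply Finset.sum_le_sum_of_subset_of_nonneg (Finset.subset_univ _)
    intro f _ _
    exact Finset.prod_nonneg (fun i _ => K1.Ker_nonneg B μ π f i hB hμ)
  exact h1.trans (h2.trans hseq)

end Pool.Agent.Rem2
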