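import Pool.Agent.Rem2.Stmts

set_option autoImplicit false

namespace Pool.Agent.Rem2

open Finset

namespace K1CNT

variable {V : Type} [Fintype V] [DecidableEq V]

/-- Powers can be taken back. -/
lemma back (σ : Equiv.Perm V) (a b : ℕ) (s t : V) (h : (σ ^ a) s = (σ ^ b) t) :
    ∃ c : ℕ, (σ ^ c) s = t := by
  have hpos : 0 < orderOf σ := orderOf_pos σ
  refine ⟨a + b * (orderOf σ - 1), ?_⟩
  have h1 : (σ ^ (b * (orderOf σ - 1))) ((σ ^ b) t) = t := by
    rw [← Equiv.Perm.mul_apply, ← pow_add]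
    have : b * (orderOf σ - 1) + b = orderOf σ * b := by
      obtain ⟨n, hn⟩ : ∃ n, orderOf σ = n + 1 := ⟨orderOf σ - 1, by omega⟩
      rw [hn]; simp; ring
    rw [this, pow_mul, pow_orderOf_eq_one, one_pow]
    rfl
  calc (σ ^ (a + b * (orderOf σ - 1))) s = (σ ^ (b * (orderOf σ - 1))) ((σ ^ a) s) := by
        rw [← Equiv.Perm.mul_apply, ← pow_add, add_comm]
    _ = (σ ^ (b * (orderOf σ - 1))) ((σ ^ b) t) := by rw [h]
    _ = t := h1

lemma exists_last (π : Ord V) (σ : Equiv.Perm V) (s : V) :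
    ∃ i : Fin (Fintype.card V), Clo π σ i ∧ ∃ a : ℕ, (σ ^ a) s = π i := by
  classical
  obtain ⟨v, hv, hmax⟩ := Finset.exists_max_image
    (univ.filter (fun v => ∃ a : ℕ, (σ ^ a) s = v)) (fun v => ((π.symm v : Fin _) : ℕ))
    ⟨s, by simp; exact ⟨0, by simp⟩⟩
  rw [mem_filter] at hv
  obtain ⟨-, a, ha⟩ := hv
  refine ⟨π.symm v, ?_, a, by simpa using ha⟩
  intro j hj
  rw [Equiv.apply_symm_apply] at hj ⊢
  have hmem : (σ ^ j) v ∈ univ.filter (fun v => ∃ a : ℕ, (σ ^ a) s = v) := by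
    rw [mem_filter]
    refine ⟨mem_univ _, j + a, ?_⟩
    rw [pow_add, Equiv.Perm.mul_apply, ha]
  have hle := hmax _ hmem
  simp only [seen, mem_filter, mem_univ, true_and]
  refine lt_of_le_of_ne hle ?_
  intro he
  apply hj
  have := π.symm.injective (Fin.ext he)
  exact this

end K1CNT

theorem K1CNT : Stmt_K1CNT := by
  intro V _ _ π σ S hS
  classical
  choose f hf hfa using fun s : V => K1CNT.exists_last π σ s
  refine Finset.card_le_card_of_injOn f ?_ ?_
  · intro s _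
    simpa using hf s
  · intro s hs t ht hst
    obtain ⟨a, ha⟩ := hfa s
    obtain ⟨b, hb⟩ := hfa t
    have h : (σ ^ a) s = (σ ^ b) t := by rw [ha, hb, hst]
    obtain ⟨c, hc⟩ := K1CNT.back σ a b s t h
    have := hS s hs c (by rw [hc]; exact ht)
    rw [← hc, this]

end Pool.Agent.Rem2
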