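import Pool.Agent.Rem2.Stmts

/-!
# MP_df1a54_co: the second kernel
-/

set_option autoImplicit false

namespace Pool.Agent.Rem2

open Finset

namespace K2

variable {V : Type} [Fintype V]

theorem mem_seen {π : Ord V} {m : ℕ} {v : V} :
    v ∈ seen π m ↔ ((π.symm v : Fin (Fintype.card V)) : ℕ) < m := by
  simp [seen]

theorem mem_free {π : Ord V} {f : V → V} {m : ℕ} {v : V} :
    v ∈ free π f m ↔ v ∉ seen π m ∧ ∀ u ∈ seen π m, f u ≠ v := by
  simp [free]

theorem not_seen (π : Ord V) (i : Fin (Fintype.card V)) : π i ∉ seen π i := by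
  rw [mem_seen, Equiv.symm_apply_apply]
  exact lt_irrefl _

theorem free_congr {π : Ord V} {f g : V → V} {m : ℕ} (h : ∀ u ∈ seen π m, f u = g u) :
    free π f m = free π g m := by
  ext v
  rw [mem_free, mem_free]
  refine and_congr_right fun _ => ?_
  exact forall₂_congr fun u hu => by rw [h u hu]

theorem past_congr {π : Ord V} {f g : V → V} {m : ℕ} (h : ∀ u ∈ seen π m, f u = g u) :
    past π f m = past π g m := by
  induction m with
  | zero => rfl
  | succ m ih =>
    have h1 : past π f m = past π g m := ih fun u hu => h u (by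
      rw [mem_seen] at hu ⊢
      omega)
    unfold past
    by_cases hm : m < Fintype.card V
    · rw [dif_pos hm, dif_pos hm, h1]
      have h2 : π ⟨m, hm⟩ ∈ seen π (m + 1) := by
        rw [mem_seen, Equiv.symm_apply_apply]
        exact Nat.lt_succ_self m
      rw [h _ h2]
    · rw [dif_neg hm, dif_neg hm, h1]

theorem den2_congr {B : V → V → ℝ} {k : ℕ} {Blk : List (V × V) → V → V → Prop} {π : Ord V}
    {f g : V → V} {m : ℕ} (h : ∀ u ∈ seen π m, f u = g u) (v : V) :
    den2 B k Blk π f m v = den2 B k Blk π g m v := by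
  unfold den2
  rw [free_congr h, past_congr h]

theorem den2_pos {B : V → V → ℝ} {k : ℕ} {Blk : List (V × V) → V → V → Prop} {π : Ord V}
    {f : V → V} {m : ℕ} {v : V} (hk : 1 ≤ k) (hB : ∀ v y, 0 ≤ B v y) :
    0 < den2 B k Blk π f m v := by
  unfold den2
  have h1 : (0 : ℝ) < 1 / (k : ℝ) := by
    have : (0 : ℝ) < k := by exact_mod_cast hk
    positivity
  refine add_pos_of_pos_of_nonneg h1 (Finset.sum_nonneg fun y _ => ?_)
  refine mul_nonneg (hB v y) ?_
  split_ifs
  · exact (Real.exp_pos 1).le
  · exact zero_le_one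

open Classical in
/-- the second kernel -/
noncomputable def KK (B : V → V → ℝ) (k : ℕ) (Blk : List (V × V) → V → V → Prop) (π : Ord V)
    (f : V → V) (i : Fin (Fintype.card V)) : ℝ :=
  if Set.InjOn f (seen π i) then
    if π i ∈ free π f i then
      if f (π i) = π i then (1 / (k : ℝ)) / den2 B k Blk π f i (π i)
      else if f (π i) ∈ free π f i then
        B (π i) (f (π i)) * (if Blk (past π f i) (π i) (f (π i)) then Real.exp 1 else 1) /
          den2 B k Blk π f i (π i)
      else 0
    else if f (π i) ∈ seen π i ∧ f (f (π i)) = π i then 1 else 0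
  else 0

theorem KK_nonneg {B : V → V → ℝ} {k : ℕ} {Blk : List (V × V) → V → V → Prop} {π : Ord V}
    (hk : 1 ≤ k) (hB : ∀ v y, 0 ≤ B v y) (f : V → V) (i : Fin (Fintype.card V)) :
    0 ≤ KK B k Blk π f i := by
  have hD : 0 < den2 B k Blk π f i (π i) := den2_pos hk hB
  unfold KK
  split_ifs
  · positivity
  · exact div_nonneg (mul_nonneg (hB _ _) (Real.exp_pos 1).le) hD.le
  · exact div_nonneg (mul_nonneg (hB _ _) zero_le_one) hD.le
  · exact le_rfl
  · exact zero_le_one
  · exact le_rfl
  · exact le_rfl

theorem KK_congr {B : V → V → ℝ} {k : ℕ} {Blk : List (V × V) → V → V → Prop} {π : Ord V}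
    {f g : V → V} {i : Fin (Fintype.card V)} (h : ∀ j, j ≤ i → f (π j) = g (π j)) :
    KK B k Blk π f i = KK B k Blk π g i := by
  have hs : ∀ u ∈ seen π i, f u = g u := by
    intro u hu
    rw [mem_seen] at hu
    have h1 := h (π.symm u) (le_of_lt (Fin.lt_def.2 hu))
    rwa [Equiv.apply_symm_apply] at h1
  have hi : f (π i) = g (π i) := h i le_rfl
  have hinj : Set.InjOn f (seen π i) ↔ Set.InjOn g (seen π i) :=
    Set.EqOn.injOn_iff fun u hu => hs u hu
  have hff : (f (π i) ∈ seen π i ∧ f (f (π i)) = π i) ↔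
      (g (π i) ∈ seen π i ∧ g (g (π i)) = π i) := by
    rw [hi]
    refine and_congr_right fun hu => ?_
    rw [hs _ hu]
  unfold KK
  rw [free_congr hs, past_congr hs, den2_congr hs, hi]
  rw [hi] at hff
  by_cases h1 : Set.InjOn g (seen π i)
  · rw [if_pos h1, if_pos (hinj.2 h1)]
    by_cases h2 : π i ∈ free π g i
    · rw [if_pos h2, if_pos h2]
    · rw [if_neg h2, if_neg h2]
      by_cases h3 : g (π i) ∈ seen π i ∧ g (g (π i)) = π i
      · rw [if_pos h3, if_pos (hff.2 h3)]
      · rw [if_neg h3, if_neg (fun h => h3 (hff.1 h))]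
  · rw [if_neg h1, if_neg (fun h => h1 (hinj.1 h))]

/-- the sum over the values at `π i` -/
theorem KK_sum {B : V → V → ℝ} {k : ℕ} {Blk : List (V × V) → V → V → Prop} {π : Ord V}
    [DecidableEq V] (hk : 1 ≤ k) (hB : ∀ v y, 0 ≤ B v y) (f : V → V)
    (i : Fin (Fintype.card V)) :
    ∑ y, KK B k Blk π (Function.update f (π i) y) i ≤ 1 := by
  classical
  have hns := not_seen π i
  have hs : ∀ y, ∀ u ∈ seen π i, Function.update f (π i) y u = f u := by
    intro y u hu
    refine Function.update_of_ne ?_ _ _
    rintro rfl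
    exact hns hu
  have hinj : ∀ y, Set.InjOn (Function.update f (π i) y) (seen π i) ↔ Set.InjOn f (seen π i) :=
    fun y => Set.EqOn.injOn_iff fun u hu => hs y u hu
  have hD : 0 < den2 B k Blk π f i (π i) := den2_pos hk hB
  by_cases h1 : Set.InjOn f (seen π i)
  swap
  · have h2 : ∀ y, KK B k Blk π (Function.update f (π i) y) i = 0 := by
      intro y
      unfold KK
      rw [if_neg (fun h => h1 ((hinj y).1 h))]
    simp only [h2, Finset.sum_const_zero]
    exact zero_le_one
  by_cases h2 : π i ∈ free π f i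
  · have h3 : ∀ y, KK B k Blk π (Function.update f (π i) y) i =
        (if y = π i then (1 / (k : ℝ)) / den2 B k Blk π f i (π i) else 0) +
        (if y ∈ (free π f i).erase (π i) then
          B (π i) y * (if Blk (past π f i) (π i) y then Real.exp 1 else 1) /
            den2 B k Blk π f i (π i) else 0) := by
      intro y
      unfold KK
      rw [if_pos ((hinj y).2 h1), free_congr (hs y), past_congr (hs y), den2_congr (hs y),
        Function.update_self, if_pos h2]
      by_cases hy : y = π i
      · rw [if_pos hy, if_pos hy, if_neg, add_zero]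
        rw [hy]
        exact Finset.notMem_erase _ _
      · rw [if_neg hy, if_neg hy, zero_add]
        by_cases hy2 : y ∈ free π f i
        · rw [if_pos hy2, if_pos (Finset.mem_erase.2 ⟨hy, hy2⟩)]
        · rw [if_neg hy2, if_neg (fun h => hy2 (Finset.mem_of_mem_erase h))]
    simp only [h3, Finset.sum_add_distrib]
    rw [Finset.sum_ite_eq' Finset.univ (π i), if_pos (Finset.mem_univ _), Finset.sum_ite_mem,
      Finset.univ_inter, ← Finset.sum_div, ← add_div]
    refine le_of_eq ?_
    have h4 : den2 B k Blk π f i (π i) = 1 / (k : ℝ) + ∑ y ∈ (free π f i).erase (π i),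
        B (π i) y * (if Blk (past π f i) (π i) y then Real.exp 1 else 1) := by
      unfold den2
      congr 1
      refine Finset.sum_congr ?_ fun _ _ => rfl
      ext y
      simp only [Finset.mem_erase]
    rw [← h4]
    exact div_self hD.ne'
  · have h3 : ∀ y, KK B k Blk π (Function.update f (π i) y) i =
        if y ∈ (seen π i).filter (fun y => f y = π i) then 1 else 0 := by
      intro y
      unfold KK
      rw [if_pos ((hinj y).2 h1), free_congr (hs y), if_neg h2, Function.update_self]
      have h4 : (y ∈ seen π i ∧ Function.update f (π i) y y = π i) ↔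
          y ∈ (seen π i).filter (fun y => f y = π i) := by
        rw [Finset.mem_filter]
        refine and_congr_right fun hy => ?_
        rw [hs y y hy]
      simp only [h4]
    simp only [h3]
    rw [Finset.sum_ite_mem, Finset.univ_inter, Finset.sum_const, nsmul_eq_mul, mul_one]
    have h5 : ((seen π i).filter (fun y => f y = π i)).card ≤ 1 := by
      rw [Finset.card_le_one]
      intro a ha b hb
      rw [Finset.mem_filter] at ha hb
      exact h1 (Finset.mem_coe.2 ha.1) (Finset.mem_coe.2 hb.1) (ha.2.trans hb.2.symm)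
    exact_mod_cast h5

/-- the value for an involution -/
theorem KK_inv {B : V → V → ℝ} {k : ℕ} {Blk : List (V × V) → V → V → Prop} {π : Ord V}
    (hk : 1 ≤ k) (hB : ∀ v y, 0 ≤ B v y) {τ : V → V} (hτ : ∀ v, τ (τ v) = v)
    (hpos : ∀ v, τ v ≠ v → 0 < B v (τ v)) (i : Fin (Fintype.card V)) :
    0 < KK B k Blk π τ i ∧ (open Classical in Real.log (KK B k Blk π τ i) =
      if π i ∈ free π τ i then
        ((if τ (π i) = π i then -Real.log k else
            Real.log (B (π i) (τ (π i))) +
              (if Blk (past π τ i) (π i) (τ (π i)) then (1 : ℝ) else 0)) -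
          Real.log (den2 B k Blk π τ i (π i)))
        else 0) := by
  classical
  have hinj : Function.Injective τ := fun a b h => by rw [← hτ a, h, hτ b]
  have hns := not_seen π i
  have hD : 0 < den2 B k Blk π τ i (π i) := den2_pos hk hB
  have hk0 : (0 : ℝ) < k := by exact_mod_cast hk
  have h0 : Set.InjOn τ (seen π i) := hinj.injOn
  by_cases h1 : π i ∈ free π τ i
  · by_cases h2 : τ (π i) = π i
    · have h3 : KK B k Blk π τ i = (1 / (k : ℝ)) / den2 B k Blk π τ i (π i) := by
        unfold KK
        rw [if_pos h0, if_pos h1, if_pos h2]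
      rw [h3]
      refine ⟨by positivity, ?_⟩
      rw [if_pos h1, if_pos h2, Real.log_div (by positivity) hD.ne', one_div, Real.log_inv]
    · have h4 : τ (π i) ∈ free π τ i := by
        rw [mem_free] at h1 ⊢
        refine ⟨fun h => h1.2 _ h (hτ _), fun u hu h => ?_⟩
        have : u = π i := hinj h
        rw [this] at hu
        exact hns hu
      have h3 : KK B k Blk π τ i = B (π i) (τ (π i)) *
          (if Blk (past π τ i) (π i) (τ (π i)) then Real.exp 1 else 1) /
          den2 B k Blk π τ i (π i) := by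
        unfold KK
        rw [if_pos h0, if_pos h1, if_neg h2, if_pos h4]
      have hBp := hpos _ h2
      have he : (0 : ℝ) < (if Blk (past π τ i) (π i) (τ (π i)) then Real.exp 1 else 1) := by
        split_ifs
        · exact Real.exp_pos 1
        · exact one_pos
      rw [h3]
      refine ⟨div_pos (mul_pos hBp he) hD, ?_⟩
      rw [if_pos h1, if_neg h2, Real.log_div (mul_pos hBp he).ne' hD.ne',
        Real.log_mul hBp.ne' he.ne']
      congr 2
      split_ifs
      · exact Real.log_exp 1
      · exact Real.log_one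
  · have h4 : ∃ u ∈ seen π i, τ u = π i := by
      by_contra hcon
      push Not at hcon
      exact h1 (mem_free.2 ⟨hns, hcon⟩)
    obtain ⟨u, hu, hu2⟩ := h4
    have h5 : τ (π i) = u := by rw [← hu2, hτ]
    have h3 : KK B k Blk π τ i = 1 := by
      unfold KK
      rw [if_pos h0, if_neg h1, if_pos ⟨by rw [h5]; exact hu, hτ _⟩]
    rw [h3, if_neg h1, Real.log_one]
    exact ⟨one_pos, rfl⟩

end K2

/-- K2 -/
theorem K2 (h : Stmt_SEQ) : Stmt_K2 := by
  intro V _ _ B k Blk π hk hB
  refine ⟨fun f => ∏ i, K2.KK B k Blk π f i,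
    fun f => Finset.prod_nonneg fun i _ => K2.KK_nonneg hk hB f i, ?_, fun τ hτ hpos => ⟨?_, ?_⟩⟩
  · exact h V π (K2.KK B k Blk π) (K2.KK_nonneg hk hB) (fun f g i hfg => K2.KK_congr hfg)
      (K2.KK_sum hk hB)
  · exact Finset.prod_pos fun i _ => (K2.KK_inv hk hB hτ hpos i).1
  · rw [Real.log_prod fun i _ => (K2.KK_inv hk hB hτ hpos i).1.ne']
    refine Finset.sum_congr rfl fun i _ => ?_
    rw [(K2.KK_inv hk hB hτ hpos i).2]
    split_ifs <;> rfl

end Pool.Agent.Rem2
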