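import Pool.Agent.Rem2.Stmts

/-!
# NUM1: comparison of a logarithmic sum with its integral
-/

set_option autoImplicit false

namespace Pool.Agent.Rem2

open Finset

namespace NUM1

/-- Convexity of `x log x - x`. -/
theorem step {a b : ℝ} (ha : 0 < a) (hb : 0 < b) :
    Real.log a * (b - a) ≤ (b * Real.log b - b) - (a * Real.log a - a) := by
  have h1 := Real.log_le_sub_one_of_pos (div_pos ha hb)
  rw [Real.log_div ha.ne' hb.ne'] at h1
  have h2 : b * (Real.log a - Real.log b) ≤ b * (a / b - 1) :=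
    mul_le_mul_of_nonneg_left h1 hb.le
  have h3 : b * (a / b - 1) = a - b := by
    field_simp
  rw [h3] at h2
  linarith [h2]

end NUM1

theorem NUM1 : Stmt_NUM1 := by
  intro N k hk hkN
  have hkR : (8 : ℝ) ≤ k := by exact_mod_cast hk
  have hkNR : (k : ℝ) ≤ N := by exact_mod_cast hkN
  have hk0 : (0 : ℝ) < k := by linarith
  have hN0 : (0 : ℝ) < N := by linarith
  obtain ⟨e, he⟩ : ∃ e : ℝ, e = 9 / k := ⟨_, rfl⟩
  have he0 : 0 < e := by rw [he]; positivity
  have hke : k * e = 9 := by rw [he]; field_simp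
  have he1 : e ≤ 9 / 8 := by
    rw [he]
    exact div_le_div_of_nonneg_left (by norm_num) (by norm_num) hkR
  obtain ⟨a, ha⟩ : ∃ a : ℕ → ℝ, ∀ j, a j = (j : ℝ) / N + e := ⟨_, fun _ => rfl⟩
  have ha0 : ∀ j, 0 < a j := by
    intro j
    rw [ha]
    positivity
  have hda : ∀ j, a (j + 1) - a j = 1 / N := by
    intro j
    rw [ha, ha]
    push_cast
    ring
  have h1 : ∀ j ∈ range N, Real.log (((j : ℝ) + 1) / N + 9 / k) ≤
      (Real.log (a (j + 1)) - Real.log (a j)) + N * ((a (j + 1) * Real.log (a (j + 1)) - a (j + 1))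
        - (a j * Real.log (a j) - a j)) := by
    intro j _
    have h2 := NUM1.step (ha0 j) (ha0 (j + 1))
    rw [hda] at h2
    have h3 : ((j : ℝ) + 1) / N + 9 / k = a (j + 1) := by
      rw [ha, he]
      push_cast
      ring
    rw [h3]
    have h4 : N * (Real.log (a j) * (1 / N)) ≤ N * ((a (j + 1) * Real.log (a (j + 1)) - a (j + 1))
        - (a j * Real.log (a j) - a j)) := mul_le_mul_of_nonneg_left h2 hN0.le
    have h5 : N * (Real.log (a j) * (1 / N)) = Real.log (a j) := by
      field_simp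
    linarith
  have h2 := Finset.sum_le_sum h1
  rw [Finset.sum_add_distrib, ← Finset.mul_sum,
    Finset.sum_range_sub (fun j => Real.log (a j)),
    Finset.sum_range_sub (fun j => a j * Real.log (a j) - a j)] at h2
  have haN : a N = 1 + e := by
    rw [ha, div_self hN0.ne']
  have ha00 : a 0 = e := by
    rw [ha]
    simp
  rw [haN, ha00] at h2
  refine h2.trans ?_
  -- the logarithms
  have hl1 : Real.log (1 + e) ≤ e := by
    have := Real.log_le_sub_one_of_pos (show 0 < 1 + e by linarith)
    linarith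
  have hl9 : 0 ≤ Real.log 9 := Real.log_nonneg (by norm_num)
  have hle : Real.log k + Real.log e = Real.log 9 := by
    rw [← Real.log_mul hk0.ne' he0.ne', hke]
  have hl2 : Real.log (1 + e) ≤ Real.log 9 :=
    Real.log_le_log (by linarith) (by linarith)
  have hlk : 0 ≤ Real.log k := Real.log_nonneg (by linarith)
  have hNk : 1 ≤ (N : ℝ) / k := by
    rw [le_div_iff₀ hk0]
    linarith
  have h3 : Real.log (1 + e) - Real.log e ≤ (N : ℝ) / k * Real.log k := by
    have : 1 * Real.log k ≤ (N : ℝ) / k * Real.log k := mul_le_mul_of_nonneg_right hNk hlk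
    linarith
  have h4 : (1 + e) * Real.log (1 + e) - (1 + e) - (e * Real.log e - e) ≤
      -1 + e * (17 / 8 + Real.log k) := by
    have b1 : (1 + e) * Real.log (1 + e) ≤ (1 + e) * e := mul_le_mul_of_nonneg_left hl1 (by linarith)
    have b2 : e * (-Real.log e) ≤ e * Real.log k := mul_le_mul_of_nonneg_left (by linarith) he0.le
    have b3 : e * e ≤ e * (9 / 8) := mul_le_mul_of_nonneg_left he1 he0.le
    linarith
  have h5 : (N : ℝ) * ((1 + e) * Real.log (1 + e) - (1 + e) - (e * Real.log e - e)) ≤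
      N * (-1 + e * (17 / 8 + Real.log k)) := mul_le_mul_of_nonneg_left h4 hN0.le
  have h6 : (N : ℝ) * (-1 + e * (17 / 8 + Real.log k)) =
      -N + (N : ℝ) / k * (153 / 8 + 9 * Real.log k) := by
    rw [he]
    field_simp
    ring
  have h7 : (N : ℝ) / k * (153 / 8 + 9 * Real.log k) + (N : ℝ) / k * Real.log k ≤
      (N : ℝ) / k * (10 * Real.log k + 20) := by
    have : (N : ℝ) / k * (153 / 8 + 10 * Real.log k) ≤ (N : ℝ) / k * (10 * Real.log k + 20) :=
      mul_le_mul_of_nonneg_left (by linarith) (by linarith)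
    linarith
  linarith

end Pool.Agent.Rem2
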