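import Pool.Agent.Rem2.Stmts

/-!
# MP_df1a54_co: the numerical sum NUM2
-/

set_option autoImplicit false

namespace Pool.Agent.Rem2

open Finset

namespace NUM2

/-- `g(x) = x log (x^2 + e)` -/
noncomputable def g (e x : ℝ) : ℝ := x * Real.log (x ^ 2 + e)

/-- an antiderivative of `g` -/
noncomputable def G (e x : ℝ) : ℝ := ((x ^ 2 + e) * Real.log (x ^ 2 + e) - x ^ 2) / 2

theorem pos_aux {e : ℝ} (he : 0 < e) (x : ℝ) : 0 < x ^ 2 + e := by positivity

theorem hasDerivAt_q (e x : ℝ) : HasDerivAt (fun x : ℝ => x ^ 2 + e) (2 * x) x := by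
  simpa using (hasDerivAt_pow 2 x).add_const e

theorem hasDerivAt_G {e : ℝ} (he : 0 < e) (x : ℝ) : HasDerivAt (G e) (g e x) x := by
  have hp := pos_aux he x
  have h1 := hasDerivAt_q e x
  have h2 := h1.log hp.ne'
  have h3 := ((h1.mul h2).sub (hasDerivAt_pow 2 x)).div_const 2
  refine h3.congr_deriv ?_
  unfold g
  have : (x ^ 2 + e) * (2 * x / (x ^ 2 + e)) = 2 * x := by field_simp
  rw [this]
  norm_num
  ring

theorem hasDerivAt_g {e : ℝ} (he : 0 < e) (x : ℝ) :
    HasDerivAt (g e) (Real.log (x ^ 2 + e) + x * (2 * x / (x ^ 2 + e))) x := by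
  have hp := pos_aux he x
  have h2 := (hasDerivAt_q e x).log hp.ne'
  have h3 := (hasDerivAt_id x).mul h2
  refine h3.congr_deriv ?_
  simp

/-- the step estimate -/
theorem step {e : ℝ} (he : 0 < e) (he1 : e ≤ 1) {a b : ℝ} (ha : 0 ≤ a) (hab : a ≤ b) (hb : b ≤ 1) :
    (g e b - 3 * (b - a)) * (b - a) ≤ G e b - G e a := by
  have hdg : ∀ x, 0 ≤ x → x ≤ 1 → deriv (g e) x ≤ 3 := by
    intro x h0 h1
    rw [(hasDerivAt_g he x).deriv]
    have hp := pos_aux he x
    have h2 : Real.log (x ^ 2 + e) ≤ x ^ 2 + e - 1 := Real.log_le_sub_one_of_pos hp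
    have h3 : x ^ 2 ≤ 1 := by nlinarith
    have h4 : x * (2 * x / (x ^ 2 + e)) ≤ 2 := by
      have : x * (2 * x / (x ^ 2 + e)) = 2 * (x ^ 2 / (x ^ 2 + e)) := by ring
      rw [this]
      have h5 : x ^ 2 / (x ^ 2 + e) ≤ 1 := by
        rw [div_le_one hp]; linarith
      linarith
    linarith
  have hle : ∀ x ∈ Set.Icc a b, g e b - 3 * (b - a) ≤ g e x := by
    intro x hx
    have h1 := (convex_Icc x b).image_sub_le_mul_sub_of_deriv_le (f := g e) (C := 3)
      (fun y _ => (hasDerivAt_g he y).continuousAt.continuousWithinAt)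
      (fun y _ => (hasDerivAt_g he y).differentiableAt.differentiableWithinAt)
      (fun y hy => by
        rw [interior_Icc] at hy
        exact hdg y (by linarith [hx.1, hy.1]) (by linarith [hy.2]))
      x ⟨le_rfl, hx.2⟩ b ⟨hx.2, le_rfl⟩ hx.2
    have h2 : 3 * (b - x) ≤ 3 * (b - a) := by linarith [hx.1]
    linarith
  exact (convex_Icc a b).mul_sub_le_image_sub_of_le_deriv (f := G e) (C := g e b - 3 * (b - a))
    (fun y _ => (hasDerivAt_G he y).continuousAt.continuousWithinAt)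
    (fun y _ => (hasDerivAt_G he y).differentiableAt.differentiableWithinAt)
    (fun y hy => by
      rw [(hasDerivAt_G he y).deriv]
      exact hle y (interior_subset hy))
    a ⟨le_rfl, hab⟩ b ⟨hab, le_rfl⟩ hab

theorem sum_le {e : ℝ} (he : 0 < e) (he1 : e ≤ 1) {N : ℕ} (hN : 0 < N) :
    ∑ j ∈ range N, g e (((j : ℝ) + 1) / N) ≤ N * (G e 1 - G e 0) + 3 := by
  have hN' : (0 : ℝ) < N := by exact_mod_cast hN
  have h1 : ∀ j ∈ range N, g e (((j : ℝ) + 1) / N) ≤
      N * (G e (((j + 1 : ℕ) : ℝ) / N) - G e ((j : ℝ) / N)) + 3 / N := by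
    intro j hj
    have hj' : j + 1 ≤ N := mem_range.1 hj
    have hj2 : ((j : ℝ) + 1) ≤ N := by exact_mod_cast hj'
    have hs := step he he1 (a := (j : ℝ) / N) (b := ((j : ℝ) + 1) / N) (by positivity)
      (by gcongr; linarith) (by rw [div_le_one hN']; exact hj2)
    have h2 : ((j : ℝ) + 1) / N - (j : ℝ) / N = 1 / N := by ring
    rw [h2] at hs
    have h3 : (N : ℝ) * ((g e (((j : ℝ) + 1) / N) - 3 * (1 / N)) * (1 / N)) =
        g e (((j : ℝ) + 1) / N) - 3 / N := by
      field_simp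
    have h4 := mul_le_mul_of_nonneg_left hs hN'.le
    rw [h3] at h4
    push_cast
    linarith
  refine (sum_le_sum h1).trans (le_of_eq ?_)
  rw [sum_add_distrib, ← mul_sum, sum_const, card_range,
    Finset.sum_range_sub (fun j : ℕ => G e ((j : ℝ) / N)) N, nsmul_eq_mul]
  have h5 : (N : ℝ) / N = 1 := div_self hN'.ne'
  rw [h5]
  have h6 : (N : ℝ) * (3 / N) = 3 := by field_simp
  rw [h6]
  simp

end NUM2

open NUM2 in
theorem NUM2 : Stmt_NUM2 := by
  intro N k hk hkN
  have hk' : (8 : ℝ) ≤ k := by exact_mod_cast hk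
  have hk0 : (0 : ℝ) < k := by linarith
  have hN : 0 < N := by omega
  have hN' : (0 : ℝ) < N := by exact_mod_cast hN
  set e : ℝ := 8 / k with he
  have he0 : 0 < e := by positivity
  have he1 : e ≤ 1 := by rw [he, div_le_one hk0]; exact hk'
  have h1 := sum_le he0 he1 hN
  have h2 : ∑ j ∈ range N, ((j : ℝ) + 1) / N * Real.log ((((j : ℝ) + 1) / N) ^ 2 + e) =
      ∑ j ∈ range N, g e (((j : ℝ) + 1) / N) := rfl
  rw [h2]
  refine h1.trans ?_
  have h3 : G e 1 - G e 0 = ((1 + e) * Real.log (1 + e) - 1 - e * Real.log e) / 2 := by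
    unfold G
    norm_num
    ring
  have h4 : Real.log (1 + e) ≤ e := by
    have := Real.log_le_sub_one_of_pos (show (0 : ℝ) < 1 + e by linarith)
    linarith
  have h5 : (1 + e) * Real.log (1 + e) ≤ 2 * e := by
    calc (1 + e) * Real.log (1 + e) ≤ (1 + e) * e := by
          apply mul_le_mul_of_nonneg_left h4; linarith
      _ ≤ 2 * e := by nlinarith
  have h6 : Real.log e = Real.log 8 - Real.log k := Real.log_div (by norm_num) hk0.ne'
  have h7 : 0 ≤ Real.log 8 := Real.log_nonneg (by norm_num)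
  have h8 : -(e * Real.log e) ≤ e * Real.log k := by
    rw [h6]
    nlinarith
  have h9 : G e 1 - G e 0 ≤ -1 / 2 + e * (Real.log k + 2) / 2 := by
    rw [h3]
    linarith
  have h10 : (N : ℝ) * (G e 1 - G e 0) ≤ N * (-1 / 2 + e * (Real.log k + 2) / 2) :=
    mul_le_mul_of_nonneg_left h9 hN'.le
  have h11 : (N : ℝ) * (-1 / 2 + e * (Real.log k + 2) / 2) =
      -(N : ℝ) / 2 + 4 * N * (Real.log k + 2) / k := by
    rw [he]
    field_simp
    ring
  linarith

end Pool.Agent.Rem2
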