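import Pool.Agent.Rem2.Stmts

/-!
# MP_df1a54_co, module NUM3
-/

set_option autoImplicit false

open Finset

namespace Pool.Agent.Rem2

theorem NUM3 : Stmt_NUM3 := by
  intro N k hk hkN
  have hk0 : (8 : ℝ) ≤ k := by exact_mod_cast hk
  have hkN' : (k : ℝ) ≤ N := by exact_mod_cast hkN
  have hkpos : (0 : ℝ) < k := by linarith
  have hN0 : (0 : ℝ) < N := by linarith
  have hepos : (0 : ℝ) < 8 / k := by positivity
  let f : ℕ → ℝ := fun j => Real.log (((j : ℝ) / N) ^ 2 + 8 / k)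
  have hterm : ∀ j ∈ range N,
      (2 * (((j : ℝ) + 1) / N) + 5 / k) / ((((j : ℝ) + 1) / N) ^ 2 + 8 / k) ≤
        N * (f (j + 1) - f j) + 3 / 4 := by
    intro j _
    have hf : f (j + 1) - f j = Real.log ((((j : ℝ) + 1) / N) ^ 2 + 8 / k) -
        Real.log (((j : ℝ) / N) ^ 2 + 8 / k) := by
      simp only [f]
      push_cast
      rfl
    rw [hf]
    have hab : (j : ℝ) / N = ((j : ℝ) + 1) / N - 1 / N := by ring
    have hbpos : 0 ≤ ((j : ℝ) + 1) / N := by positivity
    rw [hab]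
    set b : ℝ := ((j : ℝ) + 1) / N with hb
    have hB : 0 < b ^ 2 + 8 / k := by positivity
    have hA : 0 < (b - 1 / N) ^ 2 + 8 / (k : ℝ) := by positivity
    have hlog : (b ^ 2 - (b - 1 / N) ^ 2) / (b ^ 2 + 8 / k) ≤
        Real.log (b ^ 2 + 8 / k) - Real.log ((b - 1 / N) ^ 2 + 8 / k) := by
      rw [← Real.log_div hB.ne' hA.ne']
      have h1 := Real.one_sub_inv_le_log_of_pos (div_pos hB hA)
      rw [inv_div] at h1
      have h2 : 1 - ((b - 1 / N) ^ 2 + 8 / k) / (b ^ 2 + 8 / k) =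
          (b ^ 2 - (b - 1 / N) ^ 2) / (b ^ 2 + 8 / k) := by
        rw [eq_div_iff hB.ne', sub_mul, div_mul_cancel₀ _ hB.ne']
        ring
      rw [← h2]
      exact h1
    have h3 : (N : ℝ) * ((b ^ 2 - (b - 1 / N) ^ 2) / (b ^ 2 + 8 / k)) =
        (2 * b - 1 / N) / (b ^ 2 + 8 / k) := by
      rw [← mul_div_assoc]
      congr 1
      field_simp
      ring
    have h4 : (1 / (N : ℝ)) / (b ^ 2 + 8 / k) ≤ 1 / 8 := by
      rw [div_le_iff₀ hB]
      have h5 : 1 / (N : ℝ) ≤ 1 / k := one_div_le_one_div_of_le hkpos hkN'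
      have h6 : 1 / (k : ℝ) = 1 / 8 * (8 / k) := by field_simp
      nlinarith [sq_nonneg b]
    have h7 : (5 / (k : ℝ)) / (b ^ 2 + 8 / k) ≤ 5 / 8 := by
      rw [div_le_iff₀ hB]
      have h6 : 5 / (k : ℝ) = 5 / 8 * (8 / k) := by field_simp
      nlinarith [sq_nonneg b]
    have h8 : (2 * b + 5 / k) / (b ^ 2 + 8 / k) = (2 * b - 1 / N) / (b ^ 2 + 8 / k) +
        (1 / (N : ℝ)) / (b ^ 2 + 8 / k) + (5 / (k : ℝ)) / (b ^ 2 + 8 / k) := by
      rw [← add_div, ← add_div]
      congr 1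
      ring
    have h9 := mul_le_mul_of_nonneg_left hlog hN0.le
    rw [h8]
    linarith
  refine (Finset.sum_le_sum hterm).trans ?_
  rw [Finset.sum_add_distrib, ← Finset.mul_sum, Finset.sum_range_sub, Finset.sum_const,
    Finset.card_range, nsmul_eq_mul]
  have hf1 : f N - f 0 = Real.log (k / 8 + 1) := by
    have e1 : f N = Real.log (1 + 8 / k) := by
      simp only [f]
      rw [div_self hN0.ne']
      norm_num
    have e2 : f 0 = Real.log (8 / k) := by
      simp [f]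
    rw [e1, e2, ← Real.log_div (by positivity) (by positivity)]
    congr 1
    field_simp
  rw [hf1]
  have h10 : Real.log ((k : ℝ) / 8 + 1) ≤ Real.log k :=
    Real.log_le_log (by positivity) (by linarith)
  nlinarith

end Pool.Agent.Rem2
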