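import Pool.Agent.Rem2.Stmts

/-!
# MP_df1a54_co: module ORD, uniformly random orders
-/

set_option autoImplicit false

namespace Pool.Agent.Rem2

open Finset

namespace ORD

variable {V : Type} [Fintype V]

theorem mem_seen (π : Ord V) (m : ℕ) (v : V) :
    v ∈ seen π m ↔ ((π.symm v : Fin (Fintype.card V)) : ℕ) < m := by
  classical
  simp [seen]

theorem seen_zero (π : Ord V) : seen π 0 = ∅ := by
  ext v
  simp [mem_seen]

theorem swap_val_lt {n : ℕ} {i j x : Fin n} {m : ℕ} (hij : i ≤ j) (hm : m ≤ i) :
    ((Equiv.swap i j x : Fin n) : ℕ) < m ↔ (x : ℕ) < m := by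
  have hij' : (i : ℕ) ≤ (j : ℕ) := hij
  by_cases hi : x = i
  · subst hi
    rw [Equiv.swap_apply_left]
    omega
  · by_cases hj : x = j
    · subst hj
      rw [Equiv.swap_apply_right]
      omega
    · rw [Equiv.swap_apply_of_ne_of_ne hi hj]

theorem seen_swap (π : Ord V) (i j : Fin (Fintype.card V)) (m : ℕ) (hij : i ≤ j)
    (hm : m ≤ i) : seen ((Equiv.swap i j).trans π) m = seen π m := by
  ext v
  rw [mem_seen, mem_seen]
  have h : ((Equiv.swap i j).trans π).symm v = Equiv.swap i j (π.symm v) := by
    simp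
  rw [h]
  exact swap_val_lt hij hm

theorem past_swap (π : Ord V) (f : V → V) (i j : Fin (Fintype.card V)) (hij : i ≤ j) :
    ∀ m : ℕ, m ≤ i → past ((Equiv.swap i j).trans π) f m = past π f m := by
  intro m
  induction m with
  | zero => intro _; rfl
  | succ m ih =>
    intro hm
    have ih' := ih (by omega)
    have hij' : (i : ℕ) ≤ (j : ℕ) := hij
    unfold past
    by_cases h : m < Fintype.card V
    · rw [dif_pos h, dif_pos h, ih']
      have h1 : ((Equiv.swap i j).trans π) ⟨m, h⟩ = π ⟨m, h⟩ := by
        rw [Equiv.trans_apply, Equiv.swap_apply_of_ne_of_ne]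
        · intro h2
          have := congrArg Fin.val h2
          simp only at this
          omega
        · intro h2
          have := congrArg Fin.val h2
          simp only at this
          omega
      rw [h1]
    · rw [dif_neg h, dif_neg h, ih']

theorem part1 (π : Ord V) (f : V → V) (i j : Fin (Fintype.card V)) (m : ℕ) (hij : i ≤ j)
    (hm : m ≤ i) :
    seen ((Equiv.swap i j).trans π) m = seen π m ∧
    free ((Equiv.swap i j).trans π) f m = free π f m ∧
    past ((Equiv.swap i j).trans π) f m = past π f m := by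
  refine ⟨seen_swap π i j m hij hm, ?_, past_swap π f i j hij m hm⟩
  unfold free
  rw [seen_swap π i j m hij hm]

variable [DecidableEq V]

theorem sum_swap (i j : Fin (Fintype.card V)) (hij : i ≤ j) (H : Ord V → V → ℝ)
    (hH : ∀ π j, i ≤ j → ∀ v, H ((Equiv.swap i j).trans π) v = H π v) :
    ∑ π : Ord V, H π (π i) = ∑ π : Ord V, H π (π j) := by
  have hinv : Function.Involutive (fun π : Ord V => (Equiv.swap i j).trans π) := by
    intro π
    ext x
    simp
  rw [← Equiv.sum_comp hinv.toPerm (fun π : Ord V => H π (π i))]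
  refine Finset.sum_congr rfl fun π _ => ?_
  show H ((Equiv.swap i j).trans π) (((Equiv.swap i j).trans π) i) = H π (π j)
  rw [hH π j hij, Equiv.trans_apply, Equiv.swap_apply_left]

theorem part2 (i : Fin (Fintype.card V)) (H : Ord V → V → ℝ)
    (hH : ∀ π j, i ≤ j → ∀ v, H ((Equiv.swap i j).trans π) v = H π v) :
    ((Fintype.card V : ℝ) - (i : ℕ)) * ∑ π, H π (π i) =
      ∑ π : Ord V, ∑ v ∈ (seen π i)ᶜ, H π v := by
  have h1 : ∀ π : Ord V, ∑ v ∈ (seen π i)ᶜ, H π v = ∑ j ∈ Finset.Ici i, H π (π j) := by
    intro π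
    symm
    refine Finset.sum_bij (fun j _ => π j) ?_ ?_ ?_ ?_
    · intro j hj
      rw [Finset.mem_compl, mem_seen, Equiv.symm_apply_apply]
      have := Finset.mem_Ici.1 hj
      exact not_lt.2 this
    · intro a _ b _ h
      exact π.injective h
    · intro v hv
      rw [Finset.mem_compl, mem_seen] at hv
      refine ⟨π.symm v, Finset.mem_Ici.2 (not_lt.1 hv), ?_⟩
      exact Equiv.apply_symm_apply π v
    · intro j _
      rfl
  simp only [h1]
  rw [Finset.sum_comm]
  have h2 : ∀ j ∈ Finset.Ici i, ∑ π : Ord V, H π (π j) = ∑ π : Ord V, H π (π i) := by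
    intro j hj
    exact (sum_swap i j (Finset.mem_Ici.1 hj) H hH).symm
  rw [Finset.sum_congr rfl h2, Finset.sum_const, nsmul_eq_mul, Fin.card_Ici]
  congr 1
  rw [Nat.cast_sub i.isLt.le]

theorem card_seen (π : Ord V) (m : ℕ) (hm : m ≤ Fintype.card V) : (seen π m).card = m := by
  have h : (seen π m).card = (Finset.range m).card := by
    refine Finset.card_bij (fun v _ => ((π.symm v : Fin (Fintype.card V)) : ℕ)) ?_ ?_ ?_
    · intro v hv
      exact Finset.mem_range.2 ((mem_seen π m v).1 hv)
    · intro a _ b _ h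
      exact π.symm.injective (Fin.ext h)
    · intro x hx
      have hx' := Finset.mem_range.1 hx
      refine ⟨π ⟨x, lt_of_lt_of_le hx' hm⟩, ?_, ?_⟩
      · rw [mem_seen, Equiv.symm_apply_apply]
        exact hx'
      · rw [Equiv.symm_apply_apply]
  rw [h, Finset.card_range]

/-- The number of orders such that no vertex of `Q` is seen before time `m`. -/
noncomputable def P (Q : Finset V) (m : ℕ) : ℝ :=
  ∑ π : Ord V, (if Disjoint (seen π m) Q then (1 : ℝ) else 0)

theorem P_nonneg (Q : Finset V) (m : ℕ) : 0 ≤ P Q m := by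
  refine Finset.sum_nonneg fun π _ => ?_
  split_ifs <;> norm_num

theorem P_zero (Q : Finset V) : P Q 0 = (Fintype.card V).factorial := by
  unfold P
  have h : ∀ π : Ord V, (if Disjoint (seen π 0) Q then (1 : ℝ) else 0) = 1 := by
    intro π
    rw [seen_zero, if_pos (Finset.disjoint_empty_left Q)]
  simp only [h]
  rw [Finset.sum_const, nsmul_eq_mul, mul_one, Finset.card_univ]
  have h2 : Fintype.card (Ord V) = (Fintype.card V).factorial := by
    have e : Fin (Fintype.card V) ≃ V := (Fintype.equivFin V).symm
    rw [Fintype.card_equiv e, Fintype.card_fin]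
  rw [h2]

theorem seen_succ (π : Ord V) (i : Fin (Fintype.card V)) :
    seen π (i + 1) = insert (π i) (seen π i) := by
  ext v
  rw [Finset.mem_insert, mem_seen, mem_seen]
  constructor
  · intro h
    rcases Nat.lt_succ_iff_lt_or_eq.1 h with h1 | h1
    · exact Or.inr h1
    · left
      have h2 : π.symm v = i := Fin.ext h1
      rw [← h2, Equiv.apply_symm_apply]
  · rintro (h | h)
    · rw [h, Equiv.symm_apply_apply]
      exact Nat.lt_succ_self _
    · exact Nat.lt_succ_of_lt h

theorem P_succ (Q : Finset V) (i : Fin (Fintype.card V)) :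
    ((Fintype.card V : ℝ) - (i : ℕ)) * P Q (i + 1) =
      ((Fintype.card V : ℝ) - (i : ℕ) - Q.card) * P Q i := by
  have h1 : P Q (i + 1) = ∑ π : Ord V,
      (if Disjoint (seen π i) Q ∧ π i ∉ Q then (1 : ℝ) else 0) := by
    unfold P
    refine Finset.sum_congr rfl fun π _ => ?_
    have h : Disjoint (seen π (i + 1)) Q ↔ (Disjoint (seen π i) Q ∧ π i ∉ Q) := by
      rw [seen_succ, Finset.disjoint_insert_left, and_comm]
    simp only [h]
  rw [h1]
  have h2 := part2 i (fun π v => if Disjoint (seen π i) Q ∧ v ∉ Q then (1 : ℝ) else 0)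
    (by
      intro π j hij v
      simp only [seen_swap π i j i hij le_rfl])
  rw [h2]
  unfold P
  rw [Finset.mul_sum]
  refine Finset.sum_congr rfl fun π _ => ?_
  by_cases hd : Disjoint (seen π i) Q
  · simp only [hd, true_and, if_true, mul_one]
    rw [← Finset.sum_filter, Finset.sum_const, nsmul_eq_mul, mul_one]
    have h3 : ((seen π i)ᶜ).filter (fun v => v ∉ Q) = (seen π i ∪ Q)ᶜ := by
      ext v
      simp [Finset.mem_filter, Finset.mem_compl]
    rw [h3, Finset.card_compl, Finset.card_union_of_disjoint hd,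
      card_seen π i i.isLt.le]
    have h4 : (i : ℕ) + Q.card ≤ Fintype.card V := by
      have h5 := Finset.card_le_univ (seen π i ∪ Q)
      rwa [Finset.card_union_of_disjoint hd, card_seen π i i.isLt.le] at h5
    rw [Nat.cast_sub h4]
    push_cast
    ring
  · simp only [hd, false_and, if_false, Finset.sum_const_zero, mul_zero]

theorem part3 (Q : Finset V) (hN : 1 ≤ Fintype.card V) : ∀ m : ℕ, m ≤ Fintype.card V →
    P Q m ≤ (Fintype.card V).factorial *
      (((Fintype.card V : ℝ) - m) / Fintype.card V) ^ Q.card := by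
  have hNpos : (0 : ℝ) < Fintype.card V := by exact_mod_cast hN
  intro m
  induction m with
  | zero =>
    intro _
    rw [P_zero]
    simp [hNpos.ne']
  | succ m ih =>
    intro hm
    have ih' := ih (by omega)
    have hrec := P_succ Q ⟨m, by omega⟩
    simp only at hrec
    have hxpos : (0 : ℝ) < (Fintype.card V : ℝ) - m := by
      have : (m : ℝ) + 1 ≤ Fintype.card V := by exact_mod_cast hm
      linarith
    obtain ⟨x, hx⟩ : ∃ x : ℝ, x = (Fintype.card V : ℝ) - m := ⟨_, rfl⟩
    rw [← hx] at hrec ih' hxpos
    have hx1 : (1 : ℝ) ≤ x := by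
      have : (m : ℝ) + 1 ≤ Fintype.card V := by exact_mod_cast hm
      rw [hx]; linarith
    have hgoal : ((Fintype.card V : ℝ) - ((m + 1 : ℕ) : ℝ)) = x - 1 := by
      rw [hx]; push_cast; ring
    rw [hgoal]
    have hfac : (0 : ℝ) ≤ ((Fintype.card V).factorial : ℝ) := by positivity
    have hrhs : 0 ≤ ((Fintype.card V).factorial : ℝ) *
        ((x - 1) / Fintype.card V) ^ Q.card := by
      apply mul_nonneg hfac
      apply pow_nonneg
      exact div_nonneg (by linarith) hNpos.le
    by_cases hq : (Q.card : ℝ) ≤ x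
    · -- Bernoulli
      have hb : 1 - (Q.card : ℝ) / x ≤ (1 - 1 / x) ^ Q.card := by
        have h1 : (-2 : ℝ) ≤ -(1 / x) := by
          have : 1 / x ≤ 1 := by rw [div_le_one hxpos]; exact hx1
          linarith
        have h2 := one_add_mul_le_pow h1 Q.card
        calc 1 - (Q.card : ℝ) / x = 1 + (Q.card : ℝ) * -(1 / x) := by ring
          _ ≤ (1 + -(1 / x)) ^ Q.card := h2
          _ = (1 - 1 / x) ^ Q.card := by rw [← sub_eq_add_neg]
      have h3 : P Q (m + 1) = (1 - (Q.card : ℝ) / x) * P Q m := by
        have h4 : x * P Q (m + 1) = x * ((1 - (Q.card : ℝ) / x) * P Q m) := by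
          rw [hrec]
          field_simp
        exact mul_left_cancel₀ hxpos.ne' h4
      have h5 : 0 ≤ 1 - (Q.card : ℝ) / x := by
        have : (Q.card : ℝ) / x ≤ 1 := by rw [div_le_one hxpos]; exact hq
        linarith
      rw [h3]
      calc (1 - (Q.card : ℝ) / x) * P Q m
          ≤ (1 - (Q.card : ℝ) / x) * ((Fintype.card V).factorial *
              (x / Fintype.card V) ^ Q.card) := mul_le_mul_of_nonneg_left ih' h5
        _ ≤ (1 - 1 / x) ^ Q.card * ((Fintype.card V).factorial *
              (x / Fintype.card V) ^ Q.card) := by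
            apply mul_le_mul_of_nonneg_right hb
            positivity
        _ = (Fintype.card V).factorial * ((x - 1) / Fintype.card V) ^ Q.card := by
            rw [mul_left_comm, ← mul_pow]
            congr 2
            field_simp
    · push Not at hq
      have h6 : x * P Q (m + 1) ≤ 0 := by
        rw [hrec]
        exact mul_nonpos_of_nonpos_of_nonneg (by linarith) (P_nonneg Q m)
      have h7 : P Q (m + 1) ≤ 0 := by
        by_contra hcon
        push Not at hcon
        exact absurd h6 (not_le.2 (mul_pos hxpos hcon))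
      exact h7.trans hrhs

theorem part4 (u v : V) (huv : u ≠ v) : ∀ m : ℕ, m ≤ Fintype.card V →
    (Fintype.card V : ℝ) * ((Fintype.card V : ℝ) - 1) * P ({u, v} : Finset V) m =
      (Fintype.card V).factorial *
        (((Fintype.card V : ℝ) - m) * ((Fintype.card V : ℝ) - m - 1)) := by
  intro m
  induction m with
  | zero =>
    intro _
    rw [P_zero]
    push_cast
    ring
  | succ m ih =>
    intro hm
    have ih' := ih (by omega)
    have hrec := P_succ ({u, v} : Finset V) ⟨m, by omega⟩
    simp only [Finset.card_pair huv] at hrec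
    have hxpos : (0 : ℝ) < (Fintype.card V : ℝ) - m := by
      have : (m : ℝ) + 1 ≤ Fintype.card V := by exact_mod_cast hm
      linarith
    apply mul_left_cancel₀ hxpos.ne'
    calc ((Fintype.card V : ℝ) - m) * ((Fintype.card V : ℝ) * ((Fintype.card V : ℝ) - 1) *
          P ({u, v} : Finset V) (m + 1))
        = (Fintype.card V : ℝ) * ((Fintype.card V : ℝ) - 1) *
          (((Fintype.card V : ℝ) - m) * P ({u, v} : Finset V) (m + 1)) := by ring
      _ = (Fintype.card V : ℝ) * ((Fintype.card V : ℝ) - 1) *
          (((Fintype.card V : ℝ) - m - (2 : ℕ)) * P ({u, v} : Finset V) m) := by rw [hrec]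
      _ = ((Fintype.card V : ℝ) - m - (2 : ℕ)) *
          ((Fintype.card V : ℝ) * ((Fintype.card V : ℝ) - 1) * P ({u, v} : Finset V) m) := by
            ring
      _ = _ := by
            rw [ih']
            push_cast
            ring

end ORD

theorem ORD : Stmt_ORD := by
  intro V _ _
  refine ⟨fun π f i j m hij hm => ORD.part1 π f i j m hij hm,
    fun i H hH => ORD.part2 i H hH, fun m Q hm hN => ?_, fun m u v hm huv => ?_⟩
  · exact ORD.part3 Q hN m hm
  · have h := ORD.part4 u v huv m hm
    have h2 : ∑ π : Ord V, (if u ∉ seen π m ∧ v ∉ seen π m then (1 : ℝ) else 0) =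
        ORD.P ({u, v} : Finset V) m := by
      unfold ORD.P
      refine Finset.sum_congr rfl fun π _ => ?_
      have h3 : Disjoint (seen π m) ({u, v} : Finset V) ↔ (u ∉ seen π m ∧ v ∉ seen π m) := by
        rw [Finset.disjoint_right]
        simp
      simp only [h3]
    rw [h2]
    exact h

end Pool.Agent.Rem2
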