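import Pool.Agent.Rem2.Stmts

/-!
# MP_df1a54_co: PER, the lower bound for the permanent of a doubly stochastic matrix
-/

set_option autoImplicit false

open Filter Topology

namespace Pool.Agent.Rem2

open Finset

theorem PER (h : Stmt_PERPOS) : Stmt_PER := by
  intro V _ _ B h0 h1 h2
  rcases isEmpty_or_nonempty V with hV | hV
  · have hc : Fintype.card V = 0 := Fintype.card_eq_zero
    rw [hc]
    simp
  have hN : (0 : ℝ) < Fintype.card V := by exact_mod_cast Fintype.card_pos
  set g : ℝ → ℝ := fun t => ∑ σ : Equiv.Perm V, ∏ v, ((1 - t) * B v (σ v) + t / Fintype.card V)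
    with hg
  have hcont : Continuous g := by
    refine continuous_finsetSum _ fun σ _ => continuous_finsetProd _ fun v _ => ?_
    fun_prop
  have hlim : Tendsto g (𝓝[>] 0) (𝓝 (g 0)) := hcont.continuousAt.tendsto.mono_left nhdsWithin_le_nhds
  have hg0 : g 0 = ∑ σ : Equiv.Perm V, ∏ v, B v (σ v) := by
    simp [hg]
  rw [← hg0]
  refine ge_of_tendsto hlim ?_
  have hev : ∀ᶠ t : ℝ in 𝓝[>] 0, t ∈ Set.Ioo (0 : ℝ) 1 := Ioo_mem_nhdsGT one_pos
  filter_upwards [hev] with t ht
  have ht0 : 0 < t / Fintype.card V := div_pos ht.1 hN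
  have hsum : ∑ _y : V, t / (Fintype.card V : ℝ) = t := by
    rw [Finset.sum_const, Finset.card_univ, nsmul_eq_mul]
    field_simp
  refine h V (fun v y => (1 - t) * B v y + t / Fintype.card V) ?_ ?_ ?_
  · intro v y
    have := mul_nonneg (sub_nonneg.2 ht.2.le) (h0 v y)
    linarith
  · intro v
    rw [Finset.sum_add_distrib, ← Finset.mul_sum, h1, hsum]
    ring
  · intro y
    rw [Finset.sum_add_distrib, ← Finset.mul_sum, h2, hsum]
    ring

end Pool.Agent.Rem2
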