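import Pool.Agent.Rem2.Stmts

/-!
# MP_df1a54_co: lower bound for the permanent of a positive doubly stochastic matrix
(capacity argument of Gurvits with the Alexandrov-Fenchel inequality)
-/

set_option autoImplicit false

namespace Pool.Agent.Rem2

open Finset

namespace PERPOS

section general

variable {V : Type} [DecidableEq V]

theorem PP_cons (a : V → ℝ) (L : List (V → ℝ)) (S : Finset V) :
    PP (a :: L) S = ∑ i ∈ S, a i * PP L (S.erase i) := rfl

theorem PP_nil (S : Finset V) : PP ([] : List (V → ℝ)) S = 1 := rfl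

theorem PP_pos (L : List (V → ℝ)) : ∀ S : Finset V, S.card = L.length →
    (∀ a ∈ L, ∀ i, 0 < a i) → 0 < PP L S := by
  induction L with
  | nil =>
    intro S _ _
    rw [PP_nil]
    exact one_pos
  | cons a L ih =>
    intro S hS ha
    rw [PP_cons]
    have hne : S.Nonempty := by
      rw [← Finset.card_pos, hS, List.length_cons]
      exact Nat.succ_pos _
    refine Finset.sum_pos (fun i hi => ?_) hne
    refine mul_pos (ha a List.mem_cons_self i) (ih _ ?_ ?_)
    · rw [Finset.card_erase_of_mem hi, hS, List.length_cons]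
      rfl
    · intro b hb
      exact ha b (List.mem_cons_of_mem _ hb)

theorem PP_add (a b : V → ℝ) (t : ℝ) (L : List (V → ℝ)) (S : Finset V) :
    PP ((fun v => a v + t * b v) :: L) S = PP (a :: L) S + t * PP (b :: L) S := by
  rw [PP_cons, PP_cons, PP_cons, Finset.mul_sum, ← Finset.sum_add_distrib]
  refine Finset.sum_congr rfl fun i _ => ?_
  ring

theorem PP_replicate (y : V → ℝ) (n : ℕ) : ∀ S : Finset V, S.card = n →
    PP (List.replicate n y) S = n.factorial * ∏ i ∈ S, y i := by
  induction n with
  | zero =>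
    intro S hS
    rw [Finset.card_eq_zero.1 hS, List.replicate_zero, PP_nil]
    simp
  | succ n ih =>
    intro S hS
    rw [List.replicate_succ, PP_cons]
    have h1 : ∀ i ∈ S, y i * PP (List.replicate n y) (S.erase i) =
        n.factorial * ∏ i ∈ S, y i := by
      intro i hi
      rw [ih _ (by rw [Finset.card_erase_of_mem hi, hS]; rfl), ← Finset.mul_prod_erase S y hi]
      ring
    rw [Finset.sum_congr rfl h1, Finset.sum_const, hS, nsmul_eq_mul, Nat.factorial_succ]
    push_cast
    ring

end general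

/-- Ratios of a log-concave sequence. -/
theorem ratio (c : ℕ → ℝ) (m : ℕ) (hpos : ∀ j, j ≤ m → 0 < c j)
    (hlc : ∀ j, j + 2 ≤ m → c j * c (j + 2) ≤ c (j + 1) ^ 2) : c m ≤ c 0 * (c 1 / c 0) ^ m := by
  have h0 := hpos 0 (Nat.zero_le _)
  have step : ∀ j, j + 1 ≤ m → c (j + 1) ≤ c 1 / c 0 * c j := by
    intro j
    induction j with
    | zero =>
      intro _
      rw [div_mul_cancel₀ _ h0.ne']
    | succ j ih =>
      intro hj
      have h1 := hpos j (by omega)
      have h2 := hpos (j + 1) (by omega)
      have h3 := hlc j hj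
      have h4 := ih (by omega)
      have h5 : c j * c (j + 2) ≤ c j * (c 1 / c 0 * c (j + 1)) := by
        calc c j * c (j + 2) ≤ c (j + 1) * c (j + 1) := by rw [← sq]; exact h3
          _ ≤ (c 1 / c 0 * c j) * c (j + 1) := mul_le_mul_of_nonneg_right h4 h2.le
          _ = c j * (c 1 / c 0 * c (j + 1)) := by ring
      exact le_of_mul_le_mul_left h5 h1
  have hr : 0 ≤ c 1 / c 0 ∨ m = 0 := by
    rcases Nat.eq_zero_or_pos m with h | h
    · exact Or.inr h
    · exact Or.inl (div_nonneg (hpos 1 h).le h0.le)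
  rcases hr with hr | hr
  · have all : ∀ j, j ≤ m → c j ≤ c 0 * (c 1 / c 0) ^ j := by
      intro j
      induction j with
      | zero =>
        intro _
        rw [pow_zero, mul_one]
      | succ j ih =>
        intro hj
        calc c (j + 1) ≤ c 1 / c 0 * c j := step j hj
          _ ≤ c 1 / c 0 * (c 0 * (c 1 / c 0) ^ j) :=
            mul_le_mul_of_nonneg_left (ih (by omega)) hr
          _ = c 0 * (c 1 / c 0) ^ (j + 1) := by rw [pow_succ]; ring
    exact all m le_rfl
  · rw [hr, pow_zero, mul_one]

section claim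

variable {V : Type} [DecidableEq V] [Fintype V]

/-- The combination of the columns outside `D`. -/
def yv (B : V → V → ℝ) (D : Finset V) (x : V → ℝ) : V → ℝ := fun v => ∑ j ∈ Dᶜ, x j * B v j

/-- The columns in `D`. -/
noncomputable def R (B : V → V → ℝ) (D : Finset V) : List (V → ℝ) :=
  D.toList.map (fun y => fun v => B v y)

theorem R_pos {B : V → V → ℝ} (hB : ∀ v y, 0 < B v y) (D : Finset V) :
    ∀ a ∈ R B D, ∀ i, 0 < a i := by
  intro a ha i
  obtain ⟨y, -, rfl⟩ := List.mem_map.1 ha
  exact hB i y

theorem R_length (B : V → V → ℝ) (D : Finset V) : (R B D).length = D.card := by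
  rw [R, List.length_map, Finset.length_toList]

theorem yv_pos {B : V → V → ℝ} (hB : ∀ v y, 0 < B v y) {D : Finset V} (hD : Dᶜ.Nonempty)
    {x : V → ℝ} (hx : ∀ j, 0 < x j) (i : V) : 0 < yv B D x i :=
  Finset.sum_pos (fun j _ => mul_pos (hx j) (hB i j)) hD

theorem base {B : V → V → ℝ} (hB : ∀ v y, 0 < B v y) (hr : ∀ v, ∑ y, B v y = 1)
    (hc : ∀ y, ∑ v, B v y = 1) (x : V → ℝ) (hx : ∀ j, 0 < x j) :
    ∏ j, x j ≤ ∏ v, ∑ j, x j * B v j := by
  have h1 : ∀ v, ∏ j, x j ^ B v j ≤ ∑ j, x j * B v j := by
    intro v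
    have := Real.geom_mean_le_arith_mean_weighted univ (fun j => B v j) x
      (fun j _ => (hB v j).le) (hr v) (fun j _ => (hx j).le)
    refine this.trans (le_of_eq ?_)
    exact Finset.sum_congr rfl fun j _ => mul_comm _ _
  calc ∏ j, x j = ∏ j, ∏ v, x j ^ B v j := by
        refine Finset.prod_congr rfl fun j _ => ?_
        rw [← Real.rpow_sum_of_pos (hx j), hc j, Real.rpow_one]
    _ = ∏ v, ∏ j, x j ^ B v j := Finset.prod_comm
    _ ≤ ∏ v, ∑ j, x j * B v j :=
        Finset.prod_le_prod (fun v _ => Finset.prod_nonneg fun j _ =>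
          Real.rpow_nonneg (hx j).le _) fun v _ => h1 v

theorem claim (hPPX : Stmt_PPX) (hAF : Stmt_AF) {B : V → V → ℝ} (hB : ∀ v y, 0 < B v y)
    (hr : ∀ v, ∑ y, B v y = 1) (hc : ∀ y, ∑ v, B v y = 1) :
    ∀ D : Finset V, Dᶜ.Nonempty → ∀ x : V → ℝ, (∀ j, 0 < x j) →
      (Dᶜ.card.factorial : ℝ) * Real.exp (-(D.card : ℝ)) * ∏ j ∈ Dᶜ, x j ≤
        PP (List.replicate Dᶜ.card (yv B D x) ++ R B D) univ := by
  intro D
  induction D using Finset.induction_on with
  | empty =>
    intro _ x hx
    have h1 : R B (∅ : Finset V) = [] := by simp [R]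
    rw [h1, List.append_nil, PP_replicate _ _ _ (by simp)]
    have h2 := base hB hr hc x hx
    simp only [Finset.compl_empty, Finset.card_empty, Nat.cast_zero, neg_zero, Real.exp_zero,
      mul_one]
    refine mul_le_mul_of_nonneg_left ?_ (Nat.cast_nonneg _)
    simpa only [yv, Finset.compl_empty] using h2
  | insert c D hcD ih =>
    intro hne x hx
    obtain ⟨m, hm⟩ : ∃ m, m = Dᶜ.card := ⟨_, rfl⟩
    have hcD' : c ∈ Dᶜ := Finset.mem_compl.2 hcD
    have hA : (insert c D)ᶜ = Dᶜ.erase c := Finset.compl_insert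
    have hAc : (insert c D)ᶜ.card = m - 1 := by
      rw [hA, Finset.card_erase_of_mem hcD', hm]
    have hm2 : 2 ≤ m := by
      have := Finset.card_pos.2 hne
      omega
    obtain ⟨k, rfl⟩ : ∃ k, m = k + 2 := ⟨m - 2, by omega⟩
    have hDne : Dᶜ.Nonempty := ⟨c, hcD'⟩
    have hcard : k + 2 + D.card = (univ : Finset V).card := by
      rw [hm, Finset.card_univ]
      exact Finset.card_compl_add_card D
    obtain ⟨y, hy⟩ : ∃ y, y = yv B (insert c D) x := ⟨_, rfl⟩
    have hy0 : ∀ i, 0 < y i := by
      rw [hy]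
      exact yv_pos hB hne hx
    obtain ⟨a, ha⟩ : ∃ a : V → ℝ, a = fun v => B v c := ⟨_, rfl⟩
    have ha0 : ∀ i, 0 < a i := by
      rw [ha]
      exact fun i => hB i c
    have hR0 := R_pos hB D
    have hRl := R_length B D
    obtain ⟨c0, hc0⟩ : ∃ c0, c0 = PP (List.replicate (k + 2) y ++ R B D) univ := ⟨_, rfl⟩
    obtain ⟨Q, hQ⟩ : ∃ Q, Q = PP (a :: (List.replicate (k + 1) y ++ R B D)) univ := ⟨_, rfl⟩
    have memb : ∀ (n : ℕ) (b : V → ℝ) (L : List (V → ℝ)), (∀ i, 0 < b i) →
        (∀ a ∈ L, ∀ i, 0 < a i) → ∀ a ∈ List.replicate n b ++ L, ∀ i, 0 < a i := by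
      intro n b L hb hL a' ha' i
      rcases List.mem_append.1 ha' with h | h
      · rw [List.eq_of_mem_replicate h]
        exact hb i
      · exact hL a' h i
    have hc0p : 0 < c0 := by
      rw [hc0]
      refine PP_pos _ _ ?_ (memb _ _ _ hy0 hR0)
      rw [List.length_append, List.length_replicate, hRl, hcard]
    have hQp : 0 < Q := by
      rw [hQ]
      refine PP_pos _ _ ?_ ?_
      · rw [List.length_cons, List.length_append, List.length_replicate, hRl, ← hcard]
        omega
      · intro b hb
        rcases List.mem_cons.1 hb with h | h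
        · rw [h]
          exact ha0
        · exact memb _ _ _ hy0 hR0 b h
    -- the parameter
    obtain ⟨t, ht⟩ : ∃ t : ℝ, t = c0 / (((k + 2 : ℕ) : ℝ) * Q) := ⟨_, rfl⟩
    have hk0 : (0 : ℝ) < ((k + 2 : ℕ) : ℝ) := by positivity
    have ht0 : 0 < t := by
      rw [ht]
      positivity
    obtain ⟨x', hx'⟩ : ∃ x', x' = Function.update x c t := ⟨_, rfl⟩
    have hx'0 : ∀ j, 0 < x' j := by
      intro j
      rw [hx']
      by_cases h : j = c
      · rw [h, Function.update_self]
        exact ht0
      · rw [Function.update_of_ne h]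
        exact hx j
    obtain ⟨u, hu⟩ : ∃ u, u = yv B D x' := ⟨_, rfl⟩
    have hxA : ∀ j ∈ (insert c D)ᶜ, x' j = x j := by
      intro j hj
      rw [hA, Finset.mem_erase] at hj
      rw [hx', Function.update_of_ne hj.1]
    have hxc : x' c = t := by rw [hx', Function.update_self]
    have hueq : u = fun v => y v + t * a v := by
      rw [hu, hy, ha]
      funext v
      show ∑ j ∈ Dᶜ, x' j * B v j = ∑ j ∈ (insert c D)ᶜ, x j * B v j + t * B v c
      rw [← Finset.sum_erase_add _ _ hcD', hxc, ← hA]
      congr 1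
      exact Finset.sum_congr rfl fun j hj => by rw [hxA j hj]
    have hu0 : ∀ i, 0 < u i := by
      rw [hu]
      exact yv_pos hB hDne hx'0
    have hih := ih hDne x' hx'0
    rw [← hm, ← hu, ← Finset.prod_erase_mul _ _ hcD', hxc, ← hA,
      Finset.prod_congr rfl hxA] at hih
    -- the log-concave sequence
    obtain ⟨cc, hcc⟩ : ∃ cc : ℕ → ℝ, cc = fun j =>
        PP (List.replicate j u ++ (List.replicate (k + 2 - j) y ++ R B D)) univ := ⟨_, rfl⟩
    have hcc0 : cc 0 = c0 := by
      rw [hcc, hc0]
      rfl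
    have hcc1 : cc 1 = c0 + t * Q := by
      rw [hcc, hc0, hQ]
      show PP (u :: (List.replicate (k + 1) y ++ R B D)) univ = _
      rw [hueq, PP_add]
      rfl
    have hccm : cc (k + 2) = PP (List.replicate (k + 2) u ++ R B D) univ := by
      rw [hcc]
      show PP (List.replicate (k + 2) u ++ (List.replicate (k + 2 - (k + 2)) y ++ R B D)) univ = _
      rw [Nat.sub_self, List.replicate_zero, List.nil_append]
    have hrat := ratio cc (k + 2)
      (by
        intro j hj
        rw [hcc]
        refine PP_pos _ _ ?_ (memb _ _ _ hu0 (memb _ _ _ hy0 hR0))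
        rw [List.length_append, List.length_append, List.length_replicate,
          List.length_replicate, hRl, ← hcard]
        omega)
      (by
        intro j hj
        obtain ⟨n, hn⟩ : ∃ n, k + 2 - j = n + 2 := ⟨k - j, by omega⟩
        have hn1 : k + 2 - (j + 1) = n + 1 := by omega
        have hn2 : k + 2 - (j + 2) = n := by omega
        obtain ⟨L, hL⟩ : ∃ L, L = List.replicate j u ++ (List.replicate n y ++ R B D) :=
          ⟨_, rfl⟩
        have e0 : cc j = PP (y :: y :: L) univ := by
          rw [hcc]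
          show PP (List.replicate j u ++ (List.replicate (k + 2 - j) y ++ R B D)) univ = _
          rw [hn, hL]
          refine hPPX.1 V _ _ univ ?_
          show (List.replicate j u ++ (y :: y :: (List.replicate n y ++ R B D))).Perm _
          refine List.perm_middle.trans (List.Perm.cons y ?_)
          exact List.perm_middle
        have e1 : cc (j + 1) = PP (u :: y :: L) univ := by
          rw [hcc]
          show PP (List.replicate (j + 1) u ++ (List.replicate (k + 2 - (j + 1)) y ++ R B D))
            univ = _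
          rw [hn1, hL]
          refine hPPX.1 V _ _ univ ?_
          show (u :: (List.replicate j u ++ (y :: (List.replicate n y ++ R B D)))).Perm _
          exact List.Perm.cons u List.perm_middle
        have e2 : cc (j + 2) = PP (u :: u :: L) univ := by
          rw [hcc]
          show PP (List.replicate (j + 2) u ++ (List.replicate (k + 2 - (j + 2)) y ++ R B D))
            univ = _
          rw [hn2, hL]
          rfl
        rw [e0, e1, e2, mul_comm]
        refine hAF V L univ u y ?_ ?_ hy0
        · rw [hL, List.length_append, List.length_append, List.length_replicate,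
            List.length_replicate, hRl, ← hcard]
          omega
        · rw [hL]
          exact memb _ _ _ hu0 (memb _ _ _ hy0 hR0))
    rw [hccm, hcc0, hcc1] at hrat
    -- `(1 + 1/m)^m ≤ e`
    have hr1 : (c0 + t * Q) / c0 = 1 + 1 / ((k + 2 : ℕ) : ℝ) := by
      rw [ht]
      field_simp
    have hr2 : (1 + 1 / ((k + 2 : ℕ) : ℝ)) ^ (k + 2) ≤ Real.exp 1 := by
      have h1 : 1 + 1 / ((k + 2 : ℕ) : ℝ) ≤ Real.exp (1 / ((k + 2 : ℕ) : ℝ)) := by
        rw [add_comm]
        exact Real.add_one_le_exp _
      calc (1 + 1 / ((k + 2 : ℕ) : ℝ)) ^ (k + 2) ≤ Real.exp (1 / ((k + 2 : ℕ) : ℝ)) ^ (k + 2) :=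
            pow_le_pow_left₀ (by positivity) h1 _
        _ = Real.exp 1 := by
            rw [← Real.exp_nat_mul]
            congr 1
            field_simp
    rw [hr1] at hrat
    have hfin : ((k + 2).factorial : ℝ) * Real.exp (-(D.card : ℝ)) *
        ((∏ j ∈ (insert c D)ᶜ, x j) * t) ≤ c0 * Real.exp 1 :=
      hih.trans (hrat.trans (mul_le_mul_of_nonneg_left hr2 hc0p.le))
    -- conclusion
    have hQ' : PP (List.replicate (insert c D)ᶜ.card (yv B (insert c D) x) ++
        R B (insert c D)) univ = Q := by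
      rw [hQ, hAc, ← hy]
      refine hPPX.1 V _ _ univ ?_
      have p1 : (R B (insert c D)).Perm (a :: R B D) := by
        rw [ha]
        exact (Finset.toList_insert hcD).map _
      exact (p1.append_left _).trans List.perm_middle
    rw [hQ', hAc, Finset.card_insert_of_notMem hcD]
    obtain ⟨X, hX⟩ : ∃ X, X = ∏ j ∈ (insert c D)ᶜ, x j := ⟨_, rfl⟩
    rw [← hX] at hfin ⊢
    have hexp : Real.exp (-((D.card + 1 : ℕ) : ℝ)) * Real.exp 1 = Real.exp (-(D.card : ℝ)) := by
      rw [← Real.exp_add]
      congr 1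
      push_cast
      ring
    have hfac : ((k + 2).factorial : ℝ) = ((k + 2 : ℕ) : ℝ) * ((k + 1).factorial : ℝ) := by
      rw [Nat.factorial_succ (k + 1)]
      push_cast
      ring
    show ((k + 1).factorial : ℝ) * Real.exp (-((D.card + 1 : ℕ) : ℝ)) * X ≤ Q
    have h3 : ((k + 2).factorial : ℝ) * Real.exp (-(D.card : ℝ)) * (X * t) =
        (((k + 1).factorial : ℝ) * Real.exp (-((D.card + 1 : ℕ) : ℝ)) * X) *
          (Real.exp 1 * c0 / Q) := by
      rw [hfac, ← hexp, ht]
      field_simp
    have h4 : c0 * Real.exp 1 = Q * (Real.exp 1 * c0 / Q) := by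
      field_simp
    rw [h3, h4] at hfin
    exact le_of_mul_le_mul_right hfin (by positivity)

end claim

end PERPOS

theorem PERPOS (h1 : Stmt_PPX) (h2 : Stmt_AF) : Stmt_PERPOS := by
  intro V _ _ B hB hr hc
  rcases isEmpty_or_nonempty V with hV | ⟨⟨c⟩⟩
  · simp
  · rw [← h1.2 V B]
    have hcl := PERPOS.claim h1 h2 hB hr hc (({c} : Finset V)ᶜ)
      (by rw [compl_compl]; exact Finset.singleton_nonempty c) (fun _ => 1) (fun _ => one_pos)
    have e1 : PP (List.replicate (({c} : Finset V)ᶜ)ᶜ.card
        (PERPOS.yv B (({c} : Finset V)ᶜ) (fun _ => 1)) ++ PERPOS.R B (({c} : Finset V)ᶜ)) univ =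
        PP ((univ : Finset V).toList.map (fun y => fun v => B v y)) univ := by
      refine h1.1 V _ _ univ ?_
      have e2 : PERPOS.yv B (({c} : Finset V)ᶜ) (fun _ => 1) = fun v => B v c := by
        funext v
        simp [PERPOS.yv]
      have e3 : (univ : Finset V) = insert c (({c} : Finset V)ᶜ) := by
        ext v
        by_cases h : v = c <;> simp [h]
      have e4 : ((univ : Finset V).toList).Perm (c :: (({c} : Finset V)ᶜ).toList) := by
        rw [show (univ : Finset V).toList = (insert c (({c} : Finset V)ᶜ)).toList from by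
          rw [← e3]]
        exact Finset.toList_insert (by simp)
      rw [e2, compl_compl, Finset.card_singleton]
      exact (e4.map (fun y => fun v => B v y)).symm
    rw [e1] at hcl
    refine le_trans ?_ hcl
    have e5 : (({c} : Finset V)ᶜ)ᶜ.card = 1 := by rw [compl_compl, Finset.card_singleton]
    rw [e5]
    have e6 : ((({c} : Finset V)ᶜ).card : ℝ) ≤ Fintype.card V := by
      exact_mod_cast Finset.card_le_univ _
    simp only [Nat.factorial_one, Nat.cast_one, one_mul, Finset.prod_const_one, mul_one]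
    exact Real.exp_le_exp.2 (by linarith)

end Pool.Agent.Rem2
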