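import Pool.Agent.Rem2.Stmts

/-!
# MP_df1a54_co: the expansion `PP` does not depend on the order, and it is the permanent
-/

set_option autoImplicit false

namespace Pool.Agent.Rem2.PPX

open Finset

lemma swap2 {V : Type} [DecidableEq V] (a b : V → ℝ) (L : List (V → ℝ)) (S : Finset V) :
    PP (a :: b :: L) S = PP (b :: a :: L) S := by
  simp only [PP, Finset.mul_sum]
  rw [Finset.sum_comm' (s := S) (t := fun i => S.erase i) (t' := S) (s' := fun i => S.erase i)]
  · refine Finset.sum_congr rfl fun i _ => Finset.sum_congr rfl fun j _ => ?_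
    rw [Finset.erase_right_comm]
    ring
  · intro i j
    simp only [Finset.mem_erase]
    constructor
    · rintro ⟨h1, h2, h3⟩
      exact ⟨⟨fun h => h2 h.symm, h1⟩, h3⟩
    · rintro ⟨⟨h1, h2⟩, h3⟩
      exact ⟨h2, fun h => h1 h.symm, h3⟩

lemma perm {V : Type} [DecidableEq V] (L L' : List (V → ℝ)) (h : L.Perm L') :
    ∀ S : Finset V, PP L S = PP L' S := by
  induction h with
  | nil => intro S; rfl
  | cons a _ ih =>
    intro S
    simp only [PP]
    exact Finset.sum_congr rfl fun i _ => by rw [ih]
  | swap a b L => intro S; exact swap2 b a L S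
  | trans _ _ ih1 ih2 => intro S; rw [ih1, ih2]

open Classical in
lemma formula {V : Type} [Fintype V] [DecidableEq V] (L : List (V → ℝ)) :
    ∀ S : Finset V, PP L S = ∑ e : Fin L.length → V,
      if (Function.Injective e ∧ ∀ j, e j ∈ S) then ∏ j, L.get j (e j) else 0 := by
  induction L with
  | nil =>
    intro S
    have hu : (Finset.univ : Finset (Fin ([] : List (V → ℝ)).length → V)) =
        {fun j => Fin.elim0 j} := by
      ext e
      simp only [Finset.mem_univ, Finset.mem_singleton, true_iff]
      funext j
      exact Fin.elim0 j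
    rw [hu, Finset.sum_singleton, if_pos]
    · rw [Finset.prod_eq_one]
      · rfl
      · intro j _
        exact Fin.elim0 j
    · exact ⟨fun j => Fin.elim0 j, fun j => Fin.elim0 j⟩
  | cons a L ih =>
    intro S
    have e1 : ∑ e : Fin (L.length + 1) → V,
        (if (Function.Injective e ∧ ∀ j, e j ∈ S) then
          ∏ j : Fin (L.length + 1), (a :: L).get j (e j) else 0) =
        ∑ p : V × (Fin L.length → V),
        (if (Function.Injective (Fin.cons p.1 p.2 : Fin (L.length + 1) → V) ∧
          ∀ j, (Fin.cons p.1 p.2 : Fin (L.length + 1) → V) j ∈ S) then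
          ∏ j : Fin (L.length + 1), (a :: L).get j
            ((Fin.cons p.1 p.2 : Fin (L.length + 1) → V) j) else 0) := by
      exact ((Fin.consEquiv (fun _ : Fin (L.length + 1) => V)).sum_comp (fun e =>
        (if (Function.Injective e ∧ ∀ j, e j ∈ S) then
          ∏ j : Fin (L.length + 1), (a :: L).get j (e j) else 0))).symm
    have e2 : PP (a :: L) S = ∑ i ∈ S, a i * PP L (S.erase i) := rfl
    rw [e2]
    refine Eq.trans ?_ e1.symm
    rw [Fintype.sum_prod_type]
    have e3 : ∑ i ∈ S, a i * PP L (S.erase i) =
        ∑ i : V, if i ∈ S then a i * PP L (S.erase i) else 0 := by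
      rw [Finset.sum_ite_mem, Finset.univ_inter]
    rw [e3]
    refine Finset.sum_congr rfl fun i _ => ?_
    by_cases hi : i ∈ S
    · rw [if_pos hi, ih (S.erase i), Finset.mul_sum]
      refine Finset.sum_congr rfl fun e _ => ?_
      by_cases hc : Function.Injective e ∧ ∀ j, e j ∈ S.erase i
      · rw [if_pos hc, if_pos]
        · rw [Fin.prod_univ_succ]
          rfl
        · constructor
          · rw [Fin.cons_injective_iff]
            refine ⟨?_, hc.1⟩
            rintro ⟨j, hj⟩
            exact (Finset.mem_erase.mp (hc.2 j)).1 hj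
          · intro j
            refine Fin.cases ?_ (fun j => ?_) j
            · exact hi
            · exact Finset.mem_of_mem_erase (hc.2 j)
      · rw [if_neg hc, mul_zero, if_neg]
        rintro ⟨h1, h2⟩
        rw [Fin.cons_injective_iff] at h1
        refine hc ⟨h1.2, fun j => Finset.mem_erase.mpr ⟨?_, ?_⟩⟩
        · intro h
          exact h1.1 ⟨j, h⟩
        · exact h2 j.succ
    · rw [if_neg hi]
      symm
      refine Finset.sum_eq_zero fun e _ => ?_
      rw [if_neg]
      rintro ⟨_, h2⟩
      exact hi (h2 0)

lemma permanent (V : Type) [Fintype V] [DecidableEq V] (B : V → V → ℝ) :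
    PP ((univ : Finset V).toList.map (fun y => fun v => B v y)) univ =
      ∑ σ : Equiv.Perm V, ∏ v, B v (σ v) := by
  classical
  set l : List V := (univ : Finset V).toList with hl
  set L : List (V → ℝ) := l.map (fun y => fun v => B v y) with hL
  have hlen : L.length = l.length := by rw [hL, List.length_map]
  have hnd : l.Nodup := Finset.nodup_toList _
  have hcard : l.length = Fintype.card V := by rw [hl, Finset.length_toList, Finset.card_univ]
  let c : Fin L.length → V := fun j => l.get (Fin.cast hlen j)
  have hci : Function.Injective c := by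
    intro i j h
    have h1 := (List.nodup_iff_injective_get.mp hnd) h
    exact Fin.ext (by simpa using congrArg Fin.val h1)
  have hcb : Function.Bijective c := by
    rw [Fintype.bijective_iff_injective_and_card]
    exact ⟨hci, by rw [Fintype.card_fin, hlen, hcard]⟩
  have hget : ∀ (j : Fin L.length) (v : V), L.get j v = B v (c j) := by
    intro j v
    have h0 : L[(j : ℕ)] = fun v => B v (l[(j : ℕ)]'(hlen ▸ j.2)) := by
      simp only [hL, List.getElem_map]
    have h1 : L.get j = L[(j : ℕ)] := rfl
    rw [h1, h0]
    rfl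
  rw [formula, ← Finset.sum_filter]
  symm
  refine Finset.sum_bij (fun (σ : Equiv.Perm V) _ => fun j => σ.symm (c j)) ?_ ?_ ?_ ?_
  · intro σ _
    rw [Finset.mem_filter]
    exact ⟨Finset.mem_univ _, σ.symm.injective.comp hci, fun j => Finset.mem_univ _⟩
  · intro σ _ τ _ h
    have h1 : σ.symm = τ.symm := by
      ext v
      obtain ⟨j, rfl⟩ := hcb.2 v
      exact congrFun h j
    exact Equiv.symm_bijective.injective h1
  · intro e he
    have hei : Function.Injective e := (Finset.mem_filter.mp he).2.1
    have heb : Function.Bijective e := by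
      rw [Fintype.bijective_iff_injective_and_card]
      exact ⟨hei, by rw [Fintype.card_fin, hlen, hcard]⟩
    refine ⟨(Equiv.ofBijective e heb).symm.trans (Equiv.ofBijective c hcb), Finset.mem_univ _, ?_⟩
    funext j
    have h1 : (Equiv.ofBijective c hcb).symm (c j) = j :=
      (Equiv.ofBijective c hcb).symm_apply_apply j
    show (Equiv.ofBijective e heb) ((Equiv.ofBijective c hcb).symm (c j)) = e j
    rw [h1]
    rfl
  · intro σ _
    have h1 : ∏ j, L.get j (σ.symm (c j)) = ∏ j, B (σ.symm (c j)) (c j) :=
      Finset.prod_congr rfl fun j _ => hget j _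
    rw [h1]
    have h2 : ∏ j, B (σ.symm (c j)) (c j) = ∏ v, B (σ.symm v) v :=
      hcb.prod_comp (fun v => B (σ.symm v) v)
    rw [h2]
    have h3 := Equiv.prod_comp σ (fun v => B (σ.symm v) v)
    rw [← h3]
    refine Finset.prod_congr rfl fun v _ => ?_
    rw [Equiv.symm_apply_apply]

end Pool.Agent.Rem2.PPX

namespace Pool.Agent.Rem2

theorem PPX : Stmt_PPX :=
  ⟨fun _ _ L L' S h => PPX.perm L L' h S, fun V _ _ B => PPX.permanent V B⟩

end Pool.Agent.Rem2
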