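import Pool.Agent.Rem2.Stmts

/-!
# SEQ: a product of conditional subprobabilities has total mass at most one
-/

set_option autoImplicit false

namespace Pool.Agent.Rem2

open Finset

namespace SEQ

variable {V : Type} [DecidableEq V]

/-- Exchange of the value at `v`. -/
def sw (v : V) : (V → V) × V ≃ (V → V) × V where
  toFun x := (Function.update x.1 v x.2, x.1 v)
  invFun x := (Function.update x.1 v x.2, x.1 v)
  left_inv x := by
    obtain ⟨f, y⟩ := x
    simp
  right_inv x := by
    obtain ⟨f, y⟩ := x
    simp

variable [Fintype V]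

lemma sum_update (v : V) (F : (V → V) → ℝ) :
    ∑ f : V → V, ∑ y, F (Function.update f v y) = (Fintype.card V : ℝ) * ∑ f : V → V, F f := by
  have h1 : ∑ x : (V → V) × V, F (Function.update x.1 v x.2) = ∑ x : (V → V) × V, F x.1 :=
    Equiv.sum_comp (sw v) (fun x => F x.1)
  rw [Fintype.sum_prod_type, Fintype.sum_prod_type] at h1
  refine h1.trans ?_
  rw [Finset.mul_sum]
  refine Finset.sum_congr rfl fun f _ => ?_
  change ∑ _y : V, F f = _
  rw [Finset.sum_const, Finset.card_univ, nsmul_eq_mul]

end SEQ

theorem SEQ : Stmt_SEQ := by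
  intro V _ _ π K h0 hdep hsum
  have hS : ∀ m : ℕ, m ≤ Fintype.card V → (Fintype.card V : ℝ) ^ m *
      (∑ f : V → V, ∏ i ∈ univ.filter (fun i : Fin (Fintype.card V) => (i : ℕ) < m), K f i)
        ≤ (Fintype.card V : ℝ) ^ (Fintype.card V) := by
    intro m
    induction m with
    | zero =>
      intro _
      simp
    | succ m ih =>
      intro hm
      have hm' : m < Fintype.card V := hm
      refine le_trans ?_ (ih hm'.le)
      rw [pow_succ, mul_assoc]
      refine mul_le_mul_of_nonneg_left ?_ (by positivity)
      rw [← SEQ.sum_update (π ⟨m, hm'⟩)]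
      refine Finset.sum_le_sum fun f _ => ?_
      have hfil : univ.filter (fun i : Fin (Fintype.card V) => (i : ℕ) < m + 1)
          = insert ⟨m, hm'⟩ (univ.filter (fun i : Fin (Fintype.card V) => (i : ℕ) < m)) := by
        ext i
        simp only [mem_filter, mem_univ, true_and, mem_insert, Fin.ext_iff]
        omega
      have hni : (⟨m, hm'⟩ : Fin (Fintype.card V)) ∉
          univ.filter (fun i : Fin (Fintype.card V) => (i : ℕ) < m) := by
        simp
      have hval : ∀ y, ∏ i ∈ univ.filter (fun i : Fin (Fintype.card V) => (i : ℕ) < m + 1),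
          K (Function.update f (π ⟨m, hm'⟩) y) i
          = K (Function.update f (π ⟨m, hm'⟩) y) ⟨m, hm'⟩ *
            ∏ i ∈ univ.filter (fun i : Fin (Fintype.card V) => (i : ℕ) < m), K f i := by
        intro y
        rw [hfil, Finset.prod_insert hni]
        congr 1
        refine Finset.prod_congr rfl fun i hi => ?_
        have hi' : (i : ℕ) < m := (mem_filter.1 hi).2
        refine hdep _ _ i fun j hj => ?_
        rw [Function.update_of_ne]
        intro h
        have h1 : j = ⟨m, hm'⟩ := π.injective h
        have h2 : (j : ℕ) = m := by rw [h1]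
        have h3 : (j : ℕ) ≤ (i : ℕ) := hj
        omega
      rw [Finset.sum_congr rfl fun y _ => hval y, ← Finset.sum_mul]
      have hp : 0 ≤ ∏ i ∈ univ.filter (fun i : Fin (Fintype.card V) => (i : ℕ) < m), K f i :=
        Finset.prod_nonneg fun i _ => h0 f i
      calc (∑ y, K (Function.update f (π ⟨m, hm'⟩) y) ⟨m, hm'⟩) *
            ∏ i ∈ univ.filter (fun i : Fin (Fintype.card V) => (i : ℕ) < m), K f i
          ≤ 1 * ∏ i ∈ univ.filter (fun i : Fin (Fintype.card V) => (i : ℕ) < m), K f i :=
            mul_le_mul_of_nonneg_right (hsum f _) hp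
        _ = _ := one_mul _
  have h1 := hS (Fintype.card V) le_rfl
  have h2 : univ.filter (fun i : Fin (Fintype.card V) => (i : ℕ) < Fintype.card V) = univ := by
    refine Finset.filter_true_of_mem fun i _ => i.2
  rw [h2] at h1
  have h3 : (0 : ℝ) < (Fintype.card V : ℝ) ^ (Fintype.card V) := by
    rcases Nat.eq_zero_or_pos (Fintype.card V) with h | h
    · rw [h]
      simp
    · positivity
  refine le_of_mul_le_mul_left ?_ h3
  rw [mul_one]
  exact h1

end Pool.Agent.Rem2
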