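import Pool.Agent.Rem2.DefsA

/-!
# MP_df1a54_co: the result for slots and edges
-/

set_option autoImplicit false

namespace Pool.Agent.Rem2

open Finset

theorem SLOT (hM : Stmt_MAIN) (h1 : Stmt_BMAT) (h2 : Stmt_FOREST) (h3 : Stmt_COUNT) :
    Stmt_SLOT := by
  intro E W _ _ _ _ a b k Adm hk hS
  obtain ⟨hDS, hBμ, hμ, hμs, hEW, hkW, hz, hzW⟩ := h1 E W a b k Adm (by omega) hS
  have hcard : Fintype.card (W ⊕ Fin (zz E W k)) = Fintype.card W + zz E W k := by
    rw [Fintype.card_sum, Fintype.card_fin]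
  have hkw := hS.k_le
  obtain ⟨π, τ, hτ, hpos, hb⟩ := hM (W ⊕ Fin (zz E W k)) (BW a b k) (muW a b k) k
    (BlkA a b k Adm) hk (by rw [hcard]; omega) hDS hBμ hμ hμs
    (fun τ hτ => h2 E W a b k Adm (by omega) hS τ hτ)
  obtain ⟨U, F, hA, hF⟩ := h3 E W a b k Adm (by omega) hS π τ hτ hpos
  refine ⟨U, F, hA, ?_⟩
  rw [hcard] at hb
  have hkR : (8 : ℝ) ≤ k := by exact_mod_cast hk
  have hk0 : (0 : ℝ) < k := by linarith
  have hwk : (k : ℝ) ≤ Fintype.card W := by exact_mod_cast hkw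
  have hzw : (zz E W k : ℝ) ≤ Fintype.card W := by exact_mod_cast hzW
  have hL : 0 ≤ Real.log k := Real.log_natCast_nonneg k
  have hz' : (k : ℝ) * zz E W k + 1 ≤ k * Fintype.card W - 2 * Fintype.card E + k := by
    have h4 : k * zz E W k + 1 + 2 * Fintype.card E ≤ k * Fintype.card W + k := by omega
    have h5 : (k : ℝ) * zz E W k + 1 + 2 * Fintype.card E ≤ k * Fintype.card W + k := by
      exact_mod_cast h4
    linarith
  have hF' : (Fintype.card W : ℝ) ≤ 2 * F.card + zz E W k + fixn τ +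
      2 * blk (BlkA a b k Adm) π τ := by exact_mod_cast hF
  push_cast at hb
  set w : ℝ := (Fintype.card W : ℝ) with hw
  set e : ℝ := (Fintype.card E : ℝ) with he
  set z : ℝ := (zz E W k : ℝ) with hzz
  set L : ℝ := Real.log k with hLd
  have h6 : z ≤ w - 2 * (e / k) + 1 := by
    have h7 : k * z ≤ k * (w - 2 * (e / k) + 1) := by
      have h8 : k * (w - 2 * (e / k) + 1) = k * w - 2 * e + k := by
        field_simp
      rw [h8]
      linarith
    exact le_of_mul_le_mul_left h7 hk0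
  have hq : 1 ≤ w / k := by
    rw [le_div_iff₀ hk0]
    linarith
  have hL1 : 1 ≤ (L + 1) ^ 2 := by nlinarith
  have h9 : (w + z) / k ≤ 2 * (w / k) := by
    rw [← mul_div_assoc]
    exact div_le_div_of_nonneg_right (by linarith) hk0.le
  have h10 : 85 * ((w + z) / k) * (L + 1) ^ 2 ≤ 170 * (w / k) * (L + 1) ^ 2 :=
    mul_le_mul_of_nonneg_right (by linarith) (by positivity)
  have h11 : 1 ≤ w / k * (L + 1) ^ 2 := by nlinarith
  nlinarith

end Pool.Agent.Rem2
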