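import Pool.Agent.Rem2.Stmts

/-!
# SPEC: the spectral step
-/

set_option autoImplicit false

namespace Pool.Agent.Rem2

open Finset

namespace SPEC

variable {ι : Type} [Fintype ι] {T : ι → ι → ℝ} {w : ι → ℝ}

/-- Perron argument, for a vector with a nonnegative entry. -/
theorem perron_aux (hpos : ∀ i j, i ≠ j → 0 < T i j) (hdiag : ∀ i, 0 ≤ T i i)
    (hw : ∀ i, 0 < w i) (hTw : ∀ i, ∑ j, T i j * w j = w i) (v : ι → ℝ) (l : ℝ) (hl : 1 ≤ l)
    (hv : ∀ i, ∑ j, T i j * v j = l * v i) (i1 : ι) (hi1 : 0 ≤ v i1) :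
    ∃ c : ℝ, ∀ i, v i = c * w i := by
  obtain ⟨i0, -, hi0⟩ := Finset.exists_max_image univ (fun i => v i / w i) ⟨i1, mem_univ _⟩
  obtain ⟨c, hcdef⟩ : ∃ c, c = v i0 / w i0 := ⟨_, rfl⟩
  have hv0 : v i0 = c * w i0 := by
    rw [hcdef, div_mul_cancel₀ _ (hw i0).ne']
  have hc : 0 ≤ c := by
    rw [hcdef]
    exact (div_nonneg hi1 (hw i1).le).trans (hi0 i1 (mem_univ _))
  have hu : ∀ j, v j - c * w j ≤ 0 := by
    intro j
    have h1 : v j / w j ≤ v i0 / w i0 := hi0 j (mem_univ _)
    rw [← hcdef, div_le_iff₀ (hw j)] at h1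
    linarith
  have hsum : ∑ j, T i0 j * (v j - c * w j) = (l - 1) * (c * w i0) := by
    have h1 : ∑ j, T i0 j * (c * w j) = c * w i0 := by
      rw [← hTw i0, Finset.mul_sum]
      exact Finset.sum_congr rfl fun j _ => by ring
    simp only [mul_sub, Finset.sum_sub_distrib]
    rw [hv i0, h1, hv0]
    ring
  have hT : ∀ j, 0 ≤ T i0 j := by
    intro j
    by_cases hj : i0 = j
    · rw [← hj]; exact hdiag i0
    · exact (hpos i0 j hj).le
  have hle : ∀ j ∈ (univ : Finset ι), T i0 j * (v j - c * w j) ≤ 0 := fun j _ =>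
    mul_nonpos_of_nonneg_of_nonpos (hT j) (hu j)
  have hge : 0 ≤ ∑ j, T i0 j * (v j - c * w j) := by
    rw [hsum]
    exact mul_nonneg (by linarith) (mul_nonneg hc (hw i0).le)
  have h0 := (Finset.sum_eq_zero_iff_of_nonpos hle).1 (le_antisymm (Finset.sum_nonpos hle) hge)
  refine ⟨c, fun j => ?_⟩
  by_cases hj : i0 = j
  · rw [← hj]; exact hv0
  · rcases mul_eq_zero.1 (h0 j (mem_univ _)) with h | h
    · exact absurd h (hpos i0 j hj).ne'
    · linarith

/-- Perron argument. -/
theorem perron (hpos : ∀ i j, i ≠ j → 0 < T i j) (hdiag : ∀ i, 0 ≤ T i i)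
    (hw : ∀ i, 0 < w i) (hTw : ∀ i, ∑ j, T i j * w j = w i) (v : ι → ℝ) (l : ℝ) (hl : 1 ≤ l)
    (hv : ∀ i, ∑ j, T i j * v j = l * v i) : ∃ c : ℝ, ∀ i, v i = c * w i := by
  by_cases h : ∃ i, 0 ≤ v i
  · obtain ⟨i1, hi1⟩ := h
    exact perron_aux hpos hdiag hw hTw v l hl hv i1 hi1
  · push Not at h
    rcases isEmpty_or_nonempty ι with he | ⟨⟨i1⟩⟩
    · exact ⟨0, fun i => he.elim i⟩
    · obtain ⟨c, hc⟩ := perron_aux hpos hdiag hw hTw (fun i => - v i) l hl (by
        intro i
        have := hv i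
        simp only [mul_neg, Finset.sum_neg_distrib]
        rw [this]) i1 (by have := h i1; show 0 ≤ - v i1; linarith)
      refine ⟨-c, fun i => ?_⟩
      have h1 : - v i = c * w i := hc i
      linarith

end SPEC

open SPEC in
theorem SPEC : Stmt_SPEC := by
  intro ι _ _ T w hsymm hpos hdiag hw hTw hform x hx
  have hA : (Matrix.of T).IsHermitian := by
    ext i j
    simp only [Matrix.conjTranspose_apply, Matrix.of_apply, star_trivial]
    exact hsymm j i
  -- eigenvectors
  obtain ⟨V, hVdef⟩ : ∃ V : ι → ι → ℝ, ∀ k i, V k i = hA.eigenvectorBasis k i :=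
    ⟨fun k i => hA.eigenvectorBasis k i, fun _ _ => rfl⟩
  obtain ⟨l, hldef⟩ : ∃ l : ι → ℝ, ∀ k, l k = hA.eigenvalues k := ⟨_, fun _ => rfl⟩
  have hev : ∀ k i, ∑ j, T i j * V k j = l k * V k i := by
    intro k i
    have h1 := congrFun (hA.mulVec_eigenvectorBasis k) i
    simp only [Matrix.mulVec, dotProduct, Matrix.of_apply, Pi.smul_apply, smul_eq_mul] at h1
    rw [hldef, hVdef, ← h1]
    exact Finset.sum_congr rfl fun j _ => by rw [hVdef]
  have hnorm : ∀ k, ∑ i, V k i * V k i = 1 := by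
    intro k
    have h1 : inner ℝ (hA.eigenvectorBasis k) (hA.eigenvectorBasis k) = (1 : ℝ) := by
      rw [real_inner_self_eq_norm_sq, hA.eigenvectorBasis.orthonormal.1 k]
      norm_num
    rw [EuclideanSpace.inner_eq_star_dotProduct] at h1
    simp only [dotProduct, star_trivial] at h1
    rw [← h1]
    exact Finset.sum_congr rfl fun i _ => by rw [hVdef]
  obtain ⟨c, hcdef⟩ : ∃ c : ι → ℝ, ∀ k, c k = ∑ i, V k i * x i := ⟨_, fun _ => rfl⟩
  have hexp : ∀ i, x i = ∑ k, c k * V k i := by
    intro i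
    have h1 := hA.eigenvectorBasis.sum_repr (WithLp.toLp 2 x)
    have h2 : (WithLp.toLp 2 x : EuclideanSpace ℝ ι) i = x i := rfl
    rw [← h2, ← h1]
    have h3 : ∀ k, hA.eigenvectorBasis.repr (WithLp.toLp 2 x) k = c k := by
      intro k
      rw [hA.eigenvectorBasis.repr_apply_apply, EuclideanSpace.inner_eq_star_dotProduct, hcdef]
      simp only [dotProduct, star_trivial]
      exact Finset.sum_congr rfl fun i _ => by rw [hVdef]; ring
    simp only [h3]
    rw [WithLp.ofLp_sum, Finset.sum_apply]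
    exact Finset.sum_congr rfl fun k _ => by
      rw [hVdef]
      rfl
  have hmain : ∑ i, ∑ j, x i * T i j * x j = ∑ k, l k * c k ^ 2 := by
    have h1 : ∀ i, ∑ j, x i * T i j * x j = ∑ k, c k * (l k * (V k i * x i)) := by
      intro i
      calc ∑ j, x i * T i j * x j = ∑ j, ∑ k, x i * (T i j * (c k * V k j)) := by
            refine Finset.sum_congr rfl fun j _ => ?_
            rw [← Finset.mul_sum, ← Finset.mul_sum, ← hexp j]
            ring
        _ = ∑ k, ∑ j, x i * (T i j * (c k * V k j)) := Finset.sum_comm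
        _ = ∑ k, c k * (l k * (V k i * x i)) := by
            refine Finset.sum_congr rfl fun k _ => ?_
            have h2 : ∑ j, x i * (T i j * (c k * V k j)) = x i * c k * ∑ j, T i j * V k j := by
              rw [Finset.mul_sum]
              exact Finset.sum_congr rfl fun j _ => by ring
            rw [h2, hev]
            ring
    simp only [h1]
    rw [Finset.sum_comm]
    refine Finset.sum_congr rfl fun k _ => ?_
    rw [← Finset.mul_sum, ← Finset.mul_sum, ← hcdef]
    ring
  rw [hmain]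
  refine Finset.sum_nonpos fun k _ => ?_
  by_cases hk : l k ≤ 0
  · exact mul_nonpos_of_nonpos_of_nonneg hk (sq_nonneg _)
  · push Not at hk
    -- `l k ≥ 1`
    have h1 := hform (V k)
    have h2 : ∑ i, ∑ j, V k i * T i j * V k j = l k := by
      have : ∀ i, ∑ j, V k i * T i j * V k j = l k * (V k i * V k i) := by
        intro i
        have h3 : ∑ j, V k i * T i j * V k j = V k i * ∑ j, T i j * V k j := by
          rw [Finset.mul_sum]
          exact Finset.sum_congr rfl fun j _ => by ring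
        rw [h3, hev]
        ring
      simp only [this]
      rw [← Finset.mul_sum, hnorm, mul_one]
    have h3 : ∑ i, (∑ j, T i j * V k j) ^ 2 = l k ^ 2 := by
      have : ∀ i, (∑ j, T i j * V k j) ^ 2 = l k ^ 2 * (V k i * V k i) := by
        intro i
        rw [hev]
        ring
      simp only [this]
      rw [← Finset.mul_sum, hnorm, mul_one]
    rw [h2, h3] at h1
    have h4 : 1 ≤ l k := by nlinarith
    obtain ⟨a, ha⟩ := perron hpos hdiag hw hTw (V k) (l k) h4 (hev k)
    have h5 : c k = 0 := by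
      rw [hcdef]
      have : ∑ i, V k i * x i = a * ∑ i, w i * x i := by
        rw [Finset.mul_sum]
        exact Finset.sum_congr rfl fun i _ => by rw [ha]; ring
      rw [this, hx, mul_zero]
    rw [h5]
    simp

end Pool.Agent.Rem2
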