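import Pool.Agent.Rem2.MAIN
import Pool.Agent.Rem2.SLOT
import Pool.Agent.Rem2.PPX
import Pool.Agent.Rem2.SPEC
import Pool.Agent.Rem2.AF
import Pool.Agent.Rem2.PERPOS
import Pool.Agent.Rem2.PER
import Pool.Agent.Rem2.SEQ
import Pool.Agent.Rem2.ORD
import Pool.Agent.Rem2.NUM1
import Pool.Agent.Rem2.NUM2
import Pool.Agent.Rem2.NUM3
import Pool.Agent.Rem2.K1
import Pool.Agent.Rem2.K1CNT
import Pool.Agent.Rem2.K2
import Pool.Agent.Rem2.AVG1
import Pool.Agent.Rem2.EFREE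
import Pool.Agent.Rem2.ED
import Pool.Agent.Rem2.AVG2
import Pool.Agent.Rem2.ALT
import Pool.Agent.Rem2.BMAT
import Pool.Agent.Rem2.FOREST
import Pool.Agent.Rem2.COUNT

/-!
# MP_df1a54_co: the modules composed
-/

namespace Pool.Agent.Rem2

theorem af : Stmt_AF := AF PPX SPEC
theorem perpos : Stmt_PERPOS := PERPOS PPX af
theorem per : Stmt_PER := PER perpos
theorem k1 : Stmt_K1 := K1 SEQ
theorem k2 : Stmt_K2 := K2 SEQ
theorem avg1 : Stmt_AVG1 := AVG1 ORD NUM1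
theorem efree : Stmt_EFREE := EFREE ORD
theorem ed : Stmt_ED := ED ORD efree
theorem avg2 : Stmt_AVG2 := AVG2 efree ed NUM2 NUM3
theorem main : Stmt_MAIN := MAIN per k1 K1CNT avg1 ALT k2 avg2
theorem slot : Stmt_SLOT := SLOT main BMAT FOREST COUNT

end Pool.Agent.Rem2
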