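import Pool.Agent.Rem2.Fin
import Pool.Agent.Lib_helper74.Rem.Quarter
import Pool.Agent.Lib_helper26.RE.RingF

/-!
# MP_df1a54_co: the second order term of `f(n, k)` (from `Stmt_SLOT`)
-/

set_option autoImplicit false

namespace Pool.Agent.Rem2

open Pool.Agent.RE26 Pool.Agent.Lib_helper74.Rem

/-- helper26's upper bound for even `k` (rings of cliques). -/
theorem even_upper (n k t : ℕ) (hk : Even k) (hk2 : 2 ≤ k) (ht : 2 ≤ t) (h1 : k * t ≤ n)
    (h2 : n ≤ (k + 1) * t) : fnk n k ≤ k * t / 2 + 1 := by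
  obtain ⟨m, hm⟩ := hk
  obtain rfl : k = 2 * m := by omega
  obtain ⟨b, rfl⟩ := Nat.exists_eq_add_of_le h1
  have h3 : (2 * m + 1) * t = 2 * m * t + t := by ring
  have h4 := fnk_le m t b (by omega) ht (by omega)
  have h5 : 2 * m * t / 2 = m * t := by
    rw [mul_assoc]
    exact Nat.mul_div_cancel_left _ (by norm_num)
  rw [h5]
  exact h4

/-- The deficit for even `k`: `n / 2 - f(n, k) ≥ n / (2 (k + 1)) - k / 2 - 1` if `n ≥ k ^ 2`. -/
theorem even_deficit (n k : ℕ) (hk : Even k) (hk2 : 2 ≤ k) (hn : k ^ 2 ≤ n) :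
    (n : ℝ) / (2 * (k + 1)) - k / 2 - 1 ≤ (n : ℝ) / 2 - fnk n k := by
  set t := (n + k) / (k + 1) with ht
  have hdm := Nat.div_add_mod (n + k) (k + 1)
  have hmod : (n + k) % (k + 1) < k + 1 := Nat.mod_lt _ (Nat.succ_pos k)
  rw [← ht] at hdm
  have hupt : (k + 1) * t ≤ n + k := by omega
  have hlow : n ≤ (k + 1) * t := by
    have : (n + k) % (k + 1) ≤ k := by omega
    omega
  have ht2 : k ≤ t := by
    rw [ht, Nat.le_div_iff_mul_le (Nat.succ_pos k)]
    nlinarith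
  have hkt : k * t ≤ n := by
    by_contra hlt
    push Not at hlt
    have h1 : k * (n + 1) ≤ k * (k * t) := Nat.mul_le_mul_left k hlt
    have h2 : k * ((k + 1) * t) ≤ k * (n + k) := Nat.mul_le_mul_left k hupt
    have h3 : k * ((k + 1) * t) = k * (k * t) + k * t := by ring
    have h4 : k * (n + k) = k * n + k ^ 2 := by ring
    have h5 : k * (n + 1) = k * n + k := by ring
    omega
  have hf := even_upper n k t hk hk2 (hk2.trans ht2) hkt hlow
  have hev : k * t / 2 * 2 = k * t := Nat.div_mul_cancel (Dvd.dvd.mul_right hk.two_dvd t)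
  have hf' : 2 * fnk n k ≤ k * t + 2 := by omega
  have hf'' : 2 * (fnk n k : ℝ) ≤ k * t + 2 := by exact_mod_cast hf'
  have hk0 : (0 : ℝ) < k + 1 := by positivity
  have htr : ((k : ℝ) + 1) * t ≤ n + k := by exact_mod_cast hupt
  have htr' : (t : ℝ) ≤ (n + k) / (k + 1) := by
    rw [le_div_iff₀ hk0]
    linarith
  have h6 : (k : ℝ) * t ≤ k * ((n + k) / (k + 1)) :=
    mul_le_mul_of_nonneg_left htr' (Nat.cast_nonneg _)
  have h7 : (k : ℝ) * ((n + k) / (k + 1)) = n - n / (k + 1) + k - k / (k + 1) := by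
    field_simp
    ring
  have h8 : (0 : ℝ) ≤ (k : ℝ) / (k + 1) := by positivity
  have h9 : (n : ℝ) / (2 * (k + 1)) = n / (k + 1) / 2 := by
    field_simp
  rw [h9]
  linarith

/-- The order of the deficit for even `k`. -/
theorem even_order (n k : ℕ) (hk : Even k) (hk2 : 2 ≤ k) (hn : 2 * (k + 1) * (k + 2) ≤ n) :
    (n : ℝ) / (4 * (k + 1)) ≤ (n : ℝ) / 2 - fnk n k := by
  have h1 := even_deficit n k hk hk2 (by nlinarith)
  have hk0 : (0 : ℝ) < k + 1 := by positivity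
  have h2 : 2 * ((k : ℝ) + 1) * (k + 2) ≤ n := by exact_mod_cast hn
  have h3 : ((k : ℝ) + 2) / 2 ≤ n / (4 * (k + 1)) := by
    rw [div_le_div_iff₀ two_pos (by positivity)]
    nlinarith
  have h4 : (n : ℝ) / (2 * (k + 1)) = n / (4 * (k + 1)) + n / (4 * (k + 1)) := by
    field_simp
    ring
  rw [h4] at h1
  linarith

/-- The theorem for the hand-in `SecondOrder`. -/
theorem second (h : Stmt_SLOT) :
    (∀ n k : ℕ, 2 ≤ k → k < n →
      (n : ℝ) / 2 * (1 - 684 * (Real.log k + 1) ^ 2 / k) ≤ (fnk n k : ℝ) ∧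
      (k - 2) * n + 2 ≤ (4 * k - 6) * fnk n k ∧
      fnk n k ≤ (k * n + 1) / 2 - ((k - 1) * n + 1) / 2) ∧
    (∀ n k : ℕ, Even k → 2 ≤ k → 2 * (k + 1) * (k + 2) ≤ n →
      (n : ℝ) / (4 * (k + 1)) ≤ (n : ℝ) / 2 - fnk n k ∧
      (n : ℝ) / 2 - fnk n k ≤ 342 * n * (Real.log k + 1) ^ 2 / k) := by
  refine ⟨fun n k hk hkn => ⟨FIN h n k hk hkn, quarter n k hk hkn, upper n k hk hkn⟩,
    fun n k hk hk2 hn => ⟨even_order n k hk hk2 hn, ?_⟩⟩
  have h1 := FIN h n k hk2 (by nlinarith)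
  have h2 : (n : ℝ) / 2 * (1 - 684 * (Real.log k + 1) ^ 2 / k) =
      n / 2 - 342 * n * (Real.log k + 1) ^ 2 / k := by ring
  rw [h2] at h1
  linarith

end Pool.Agent.Rem2
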