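import Mathlib

/-!
# MP_df1a54_co: second order term of `f(n, k)`; definitions for the abstract part

Everything is finite.  `V` is a finite set of vertices (slots and dummy vertices), `B` a symmetric
doubly stochastic matrix on `V`, an order of `V` is a bijection `π : Ord V`, the vertex `π i` is
processed at time `i`.
-/

set_option autoImplicit false

namespace Pool.Agent.Rem2

open Finset

/-- The orders of `V`. -/
abbrev Ord (V : Type) [Fintype V] : Type := Fin (Fintype.card V) ≃ V

/-- Symmetric doubly stochastic matrices. -/
structure DS {V : Type} [Fintype V] (B : V → V → ℝ) : Prop where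
  nonneg : ∀ v y, 0 ≤ B v y
  symm : ∀ v y, B v y = B y v
  row : ∀ v, ∑ y, B v y = 1

open Classical in
/-- The vertices seen before time `m`. -/
noncomputable def seen {V : Type} [Fintype V] (π : Ord V) (m : ℕ) : Finset V :=
  univ.filter (fun v => ((π.symm v : Fin (Fintype.card V)) : ℕ) < m)

open Classical in
/-- The vertices which are untouched at time `m` if the partners are given by `f`: neither they nor
their partners have been seen (for an involution `f`). -/
noncomputable def free {V : Type} [Fintype V] (π : Ord V) (f : V → V) (m : ℕ) : Finset V :=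
  univ.filter (fun v => v ∉ seen π m ∧ ∀ u ∈ seen π m, f u ≠ v)

/-- The pairs `(v, f v)` for the vertices `v` seen before time `m`, the latest one first. -/
noncomputable def past {V : Type} [Fintype V] (π : Ord V) (f : V → V) : ℕ → List (V × V)
  | 0 => []
  | m + 1 => if h : m < Fintype.card V then (π ⟨m, h⟩, f (π ⟨m, h⟩)) :: past π f m
      else past π f m

/-- The permanent with the list of columns `L` and the set of rows `S` (we only use
`L.length = S.card`), expanded along the first column. -/
noncomputable def PP {V : Type} [DecidableEq V] : List (V → ℝ) → Finset V → ℝ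
  | [], _ => 1
  | a :: L, S => ∑ i ∈ S, a i * PP L (S.erase i)

/-- The denominator of the first kernel at time `i`. -/
noncomputable def den1 {V : Type} [Fintype V] [DecidableEq V] (B : V → V → ℝ) (μ : V → ℝ)
    (π : Ord V) (f : V → V) (i : Fin (Fintype.card V)) : ℝ :=
  ∑ y ∈ ((seen π i).image f)ᶜ, B (π i) y + 2 * μ (π i)

/-- The times at which a cycle of `σ` is closed: `π i` is the last vertex of its cycle. -/
def Clo {V : Type} [Fintype V] (π : Ord V) (σ : Equiv.Perm V) (i : Fin (Fintype.card V)) : Prop :=
  ∀ j : ℕ, (σ ^ j) (π i) ≠ π i → (σ ^ j) (π i) ∈ seen π i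

open Classical in
/-- The denominator of the second kernel at time `m` for the vertex `v`. -/
noncomputable def den2 {V : Type} [Fintype V] (B : V → V → ℝ) (k : ℕ)
    (Blk : List (V × V) → V → V → Prop) (π : Ord V) (f : V → V) (m : ℕ) (v : V) : ℝ :=
  1 / (k : ℝ) + ∑ y ∈ (free π f m).erase v,
    B v y * (if Blk (past π f m) v y then Real.exp 1 else 1)

open Classical in
/-- The number of fixed points. -/
noncomputable def fixn {V : Type} [Fintype V] (τ : V → V) : ℕ :=
  (univ.filter (fun v => τ v = v)).card

open Classical in
/-- The number of blocked picks of the second process. -/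
noncomputable def blk {V : Type} [Fintype V] (Blk : List (V × V) → V → V → Prop) (π : Ord V)
    (τ : V → V) : ℕ :=
  (univ.filter (fun i : Fin (Fintype.card V) => π i ∈ free π τ i ∧ τ (π i) ≠ π i ∧
    Blk (past π τ i) (π i) (τ (π i)))).card

end Pool.Agent.Rem2
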