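import Pool.Agent.Rem2.Stmts

/-!
# MP_df1a54_co: from slots and edges to the abstract part

`E` edges, `W` slots, the edge `e` occupies the slots `a e ≠ b e`, every slot has at most `k` edges.
The vertices of the abstract part are the slots and `zz` dummy vertices.
-/

set_option autoImplicit false

namespace Pool.Agent.Rem2

open Finset

/-- The hypotheses on slots, edges and admissible pairs (free slots, removed edges). -/
structure SlotSys {E W : Type} [Fintype E] [Fintype W] [DecidableEq E] [DecidableEq W]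
    (a b : E → W) (k : ℕ) (Adm : Finset W → Finset E → Prop) : Prop where
  ne : ∀ e, a e ≠ b e
  inj : ∀ e e', ((a e = a e' ∧ b e = b e') ∨ (a e = b e' ∧ b e = a e')) → e = e'
  deg : ∀ w, (univ.filter (fun e => a e = w ∨ b e = w)).card ≤ k
  k_le : k ≤ Fintype.card W
  start : Adm univ ∅
  mono : ∀ U U' F, Adm U F → U' ⊆ U → Adm U' F
  out : ∀ U F e, Adm U F → e ∈ F → a e ∉ U
  block : ∀ U F, Adm U F → ∀ D : Finset E, (∀ e ∈ D, a e ∈ U ∧ b e ∈ U ∧
    ¬ Adm ((U.erase (a e)).erase (b e)) (insert e F)) → D.card ≤ U.card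

section

variable {E W : Type} [Fintype E] [Fintype W] [DecidableEq E] [DecidableEq W]

/-- The number of edges at a slot. -/
def dgw (a b : E → W) (x : W) : ℕ := (univ.filter (fun e => a e = x ∨ b e = x)).card

/-- The number of dummy vertices: `⌈(k |W| - 2 |E|) / k⌉`. -/
def zz (E W : Type) [Fintype E] [Fintype W] (k : ℕ) : ℕ :=
  (k * Fintype.card W - 2 * Fintype.card E + k - 1) / k

open Classical in
/-- The doubly stochastic matrix. -/
noncomputable def BW (a b : E → W) (k : ℕ) : W ⊕ Fin (zz E W k) → W ⊕ Fin (zz E W k) → ℝ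
  | Sum.inl x, Sum.inl y =>
      if ∃ e, (a e = x ∧ b e = y) ∨ (a e = y ∧ b e = x) then 1 / (k : ℝ) else 0
  | Sum.inl x, Sum.inr _ => ((k : ℝ) - dgw a b x) / (k * zz E W k)
  | Sum.inr _, Sum.inl x => ((k : ℝ) - dgw a b x) / (k * zz E W k)
  | Sum.inr _, Sum.inr _ =>
      (1 - ((k : ℝ) * Fintype.card W - 2 * Fintype.card E) / (k * zz E W k)) / zz E W k

/-- The row bounds. -/
noncomputable def muW (a b : E → W) (k : ℕ) : W ⊕ Fin (zz E W k) → ℝ
  | Sum.inl x => 1 / (k : ℝ) + ((k : ℝ) - dgw a b x) / (k * zz E W k)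
  | Sum.inr _ => 1 / (k : ℝ) + 1 / (zz E W k : ℝ)

open Classical in
/-- The state (free slots, removed edges) after the pairs of the list (the latest pair is the
first one of the list). -/
noncomputable def stA (a b : E → W) (k : ℕ) (Adm : Finset W → Finset E → Prop) :
    List ((W ⊕ Fin (zz E W k)) × (W ⊕ Fin (zz E W k))) → Finset W × Finset E
  | [] => (univ, ∅)
  | p :: l =>
    ((stA a b k Adm l).1.filter (fun x => Sum.inl x ≠ p.1 ∧ Sum.inl x ≠ p.2),
      (stA a b k Adm l).2 ∪ univ.filter (fun e =>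
        ((p.1 = Sum.inl (a e) ∧ p.2 = Sum.inl (b e)) ∨
          (p.1 = Sum.inl (b e) ∧ p.2 = Sum.inl (a e))) ∧
        a e ∈ (stA a b k Adm l).1 ∧ b e ∈ (stA a b k Adm l).1 ∧
        Adm (((stA a b k Adm l).1.erase (a e)).erase (b e)) (insert e (stA a b k Adm l).2)))

/-- The pair `v, y` is blocked after the pairs of the list: it is an edge with two free slots which
cannot be removed. -/
def BlkA (a b : E → W) (k : ℕ) (Adm : Finset W → Finset E → Prop)
    (l : List ((W ⊕ Fin (zz E W k)) × (W ⊕ Fin (zz E W k)))) (v y : W ⊕ Fin (zz E W k)) : Prop :=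
  ∃ e, ((v = Sum.inl (a e) ∧ y = Sum.inl (b e)) ∨ (v = Sum.inl (b e) ∧ y = Sum.inl (a e))) ∧
    a e ∈ (stA a b k Adm l).1 ∧ b e ∈ (stA a b k Adm l).1 ∧
    ¬ Adm (((stA a b k Adm l).1.erase (a e)).erase (b e)) (insert e (stA a b k Adm l).2)

end

/-- The matrix is symmetric and doubly stochastic, with the right row bounds. -/
def Stmt_BMAT : Prop := ∀ (E W : Type) [Fintype E] [Fintype W] [DecidableEq E] [DecidableEq W]
  (a b : E → W) (k : ℕ) (Adm : Finset W → Finset E → Prop), 1 ≤ k → SlotSys a b k Adm →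
  DS (BW a b k) ∧ (∀ v y, BW a b k v y ≤ muW a b k v) ∧ (∀ v, 0 < muW a b k v) ∧
  ∑ v, muW a b k v ≤ (Fintype.card (W ⊕ Fin (zz E W k)) : ℝ) / k + 2 ∧
  2 * Fintype.card E ≤ k * Fintype.card W ∧
  k * Fintype.card W ≤ 2 * Fintype.card E + k * zz E W k ∧
  k * zz E W k + 1 ≤ k * Fintype.card W - 2 * Fintype.card E + k ∧ zz E W k ≤ Fintype.card W

/-- The blocked pairs have small weight. -/
def Stmt_FOREST : Prop := ∀ (E W : Type) [Fintype E] [Fintype W] [DecidableEq E] [DecidableEq W]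
  (a b : E → W) (k : ℕ) (Adm : Finset W → Finset E → Prop), 1 ≤ k → SlotSys a b k Adm →
  ∀ τ : W ⊕ Fin (zz E W k) → W ⊕ Fin (zz E W k), (∀ v, τ (τ v) = v) →
  Forest (BW a b k) k (BlkA a b k Adm) τ

/-- The final set of removed edges is large. -/
def Stmt_COUNT : Prop := ∀ (E W : Type) [Fintype E] [Fintype W] [DecidableEq E] [DecidableEq W]
  (a b : E → W) (k : ℕ) (Adm : Finset W → Finset E → Prop), 1 ≤ k → SlotSys a b k Adm →
  ∀ (π : Ord (W ⊕ Fin (zz E W k))) (τ : W ⊕ Fin (zz E W k) → W ⊕ Fin (zz E W k)),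
  (∀ v, τ (τ v) = v) → (∀ v, τ v ≠ v → 0 < BW a b k v (τ v)) →
  ∃ U F, Adm U F ∧ Fintype.card W ≤ 2 * F.card + zz E W k + fixn τ +
    2 * blk (BlkA a b k Adm) π τ

/-- The result for slots and edges. -/
def Stmt_SLOT : Prop := ∀ (E W : Type) [Fintype E] [Fintype W] [DecidableEq E] [DecidableEq W]
  (a b : E → W) (k : ℕ) (Adm : Finset W → Finset E → Prop), 8 ≤ k → SlotSys a b k Adm →
  ∃ U F, Adm U F ∧ (Fintype.card E : ℝ) / k -
    171 * ((Fintype.card W : ℝ) / k) * (Real.log k + 1) ^ 2 ≤ (F.card : ℝ)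

end Pool.Agent.Rem2
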