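import Pool.Agent.Rem2.Stmts

/-!
# MP_df1a54_co: expectations of the free vertices
-/

set_option autoImplicit false

namespace Pool.Agent.Rem2

open Finset

namespace EFREE

variable {V : Type} [Fintype V] [DecidableEq V]

omit [DecidableEq V] in
theorem mem_free {π : Ord V} {τ : V → V} (hτ : ∀ v, τ (τ v) = v) (m : ℕ) (v : V) :
    v ∈ free π τ m ↔ v ∉ seen π m ∧ τ v ∉ seen π m := by
  classical
  unfold free
  simp only [mem_filter]
  constructor
  · rintro ⟨-, h1, h2⟩
    exact ⟨h1, fun h3 => h2 _ h3 (hτ v)⟩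
  · rintro ⟨h1, h2⟩
    refine ⟨mem_univ _, h1, fun u hu h3 => ?_⟩
    apply h2
    rw [← h3, hτ]
    exact hu

theorem mem_free_iff_disjoint {π : Ord V} {τ : V → V} (hτ : ∀ v, τ (τ v) = v) (m : ℕ) (v : V) :
    v ∈ free π τ m ↔ Disjoint (seen π m) {v, τ v} := by
  rw [mem_free hτ, Finset.disjoint_insert_right, Finset.disjoint_singleton_right]

theorem two_free_iff_disjoint {π : Ord V} {τ : V → V} (hτ : ∀ v, τ (τ v) = v) (m : ℕ)
    (v y : V) :
    (v ∈ free π τ m ∧ y ∈ free π τ m) ↔ Disjoint (seen π m) {v, τ v, y, τ y} := by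
  rw [mem_free hτ, mem_free hτ, Finset.disjoint_insert_right, Finset.disjoint_insert_right,
    Finset.disjoint_insert_right, Finset.disjoint_singleton_right]
  tauto

theorem fixn_eq (τ : V → V) : (fixn τ : ℝ) = ∑ v, (if τ v = v then (1 : ℝ) else 0) := by
  unfold fixn
  rw [Finset.sum_boole]
  congr 1
  congr 1
  ext v
  simp

omit [Fintype V] in
theorem card_four {τ : V → V} (hτ : ∀ v, τ (τ v) = v) {v y : V} (h1 : y ≠ v) (h2 : y ≠ τ v)
    (h3 : τ v ≠ v) (h4 : τ y ≠ y) : ({v, τ v, y, τ y} : Finset V).card = 4 := by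
  have h5 : v ≠ τ y := fun h => h2 (by rw [h, hτ])
  have h6 : τ v ≠ τ y := fun h => h1 (by rw [← hτ y, ← h, hτ])
  rw [Finset.card_insert_of_notMem, Finset.card_insert_of_notMem, Finset.card_insert_of_notMem,
    Finset.card_singleton]
  · simp only [Finset.mem_singleton]
    exact fun h => h4 h.symm
  · simp only [Finset.mem_insert, Finset.mem_singleton, not_or]
    exact ⟨fun h => h2 h.symm, h6⟩
  · simp only [Finset.mem_insert, Finset.mem_singleton, not_or]
    exact ⟨fun h => h3 h.symm, fun h => h1 h.symm, h5⟩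

omit [Fintype V] in
theorem card_two {τ : V → V} {v y : V} (h1 : y ≠ v) :
    2 ≤ ({v, τ v, y, τ y} : Finset V).card := by
  have h2 : ({v, y} : Finset V) ⊆ {v, τ v, y, τ y} := by
    intro z hz
    simp only [Finset.mem_insert, Finset.mem_singleton] at hz ⊢
    tauto
  have h3 := Finset.card_le_card h2
  rwa [Finset.card_pair (fun h => h1 h.symm)] at h3

end EFREE

open EFREE

theorem EFREE (h : Stmt_ORD) : Stmt_EFREE := by
  intro V _ _ τ hV hτ
  obtain ⟨ha, hb, hc, hd⟩ := h V
  set N : ℕ := Fintype.card V with hN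
  have hN0 : (0 : ℝ) < N := by
    have : 0 < N := by omega
    exact_mod_cast this
  have hN1 : (0 : ℝ) < (N : ℝ) - 1 := by
    have : (2 : ℝ) ≤ N := by exact_mod_cast hV
    linarith
  have hfac : (0 : ℝ) < (N.factorial : ℝ) := by exact_mod_cast N.factorial_pos
  have hs0 : ∀ m : ℕ, m ≤ N → 0 ≤ ((N : ℝ) - m) / N := by
    intro m hm
    have : (m : ℝ) ≤ N := by exact_mod_cast hm
    exact div_nonneg (by linarith) hN0.le
  have hs1 : ∀ m : ℕ, m ≤ N → ((N : ℝ) - m) / N ≤ 1 := by
    intro m hm
    rw [div_le_one hN0]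
    have : (0 : ℝ) ≤ m := Nat.cast_nonneg m
    linarith
  -- the probability that a vertex is free
  have hp1 : ∀ m : ℕ, m ≤ N → ∀ v : V,
      ∑ π : Ord V, (if v ∈ free π τ m then (1 : ℝ) else 0) ≤
        N.factorial * ((((N : ℝ) - m) / N) ^ 2 + (if τ v = v then ((N : ℝ) - m) / N else 0)) := by
    intro m hm v
    have h1 := hc m {v, τ v} hm (by omega)
    have h2 : ∑ π : Ord V, (if v ∈ free π τ m then (1 : ℝ) else 0)
        = ∑ π : Ord V, (if Disjoint (seen π m) {v, τ v} then (1 : ℝ) else 0) := by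
      refine Finset.sum_congr rfl fun π _ => ?_
      simp only [mem_free_iff_disjoint hτ]
    rw [h2]
    refine h1.trans (mul_le_mul_of_nonneg_left ?_ hfac.le)
    by_cases h3 : τ v = v
    · rw [if_pos h3, h3]
      simp only [Finset.pair_eq_singleton, Finset.card_singleton, pow_one]
      have := sq_nonneg (((N : ℝ) - m) / N)
      linarith
    · rw [if_neg h3, Finset.card_pair (fun h => h3 h.symm), add_zero]
  refine ⟨fun m hm => ?_, fun B ρ m hm hB hρ => ?_, fun i => ?_⟩
  · -- the number of free vertices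
    have h1 : ∑ π : Ord V, ((free π τ m).card : ℝ)
        = ∑ v, ∑ π : Ord V, (if v ∈ free π τ m then (1 : ℝ) else 0) := by
      rw [Finset.sum_comm]
      refine Finset.sum_congr rfl fun π _ => ?_
      rw [Finset.sum_boole]
      congr 1
      congr 1
      ext v
      simp
    rw [h1]
    refine (Finset.sum_le_sum fun v _ => hp1 m hm v).trans (le_of_eq ?_)
    rw [← Finset.mul_sum, Finset.sum_add_distrib, Finset.sum_const, Finset.card_univ,
      nsmul_eq_mul, fixn_eq, Finset.sum_mul]
    congr 1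
    congr 1
    refine Finset.sum_congr rfl fun v _ => ?_
    split_ifs <;> ring
  · -- the weight of the free pairs
    set s : ℝ := ((N : ℝ) - m) / N with hs
    have hs0' := hs0 m hm
    have hs1' := hs1 m hm
    have h1 : ∑ π : Ord V, ∑ v ∈ free π τ m, ∑ y ∈ (free π τ m).erase v, B v y
        = ∑ v, ∑ y ∈ univ.erase v, B v y *
          ∑ π : Ord V, (if Disjoint (seen π m) {v, τ v, y, τ y} then (1 : ℝ) else 0) := by
      have e1 : ∀ π : Ord V, ∑ v ∈ free π τ m, ∑ y ∈ (free π τ m).erase v, B v y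
          = ∑ v, ∑ y ∈ univ.erase v, B v y *
            (if Disjoint (seen π m) {v, τ v, y, τ y} then (1 : ℝ) else 0) := by
        intro π
        rw [← Finset.sum_subset (Finset.subset_univ (free π τ m))]
        · refine Finset.sum_congr rfl fun v hv => ?_
          rw [← Finset.sum_subset (Finset.erase_subset_erase v (Finset.subset_univ (free π τ m)))]
          · refine Finset.sum_congr rfl fun y hy => ?_
            rw [if_pos ((two_free_iff_disjoint hτ m v y).mp ⟨hv, (Finset.mem_erase.mp hy).2⟩),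
              mul_one]
          · intro y hy1 hy2
            rw [if_neg, mul_zero]
            intro h3
            have h4 := (two_free_iff_disjoint hτ m v y).mpr h3
            exact hy2 (Finset.mem_erase.mpr ⟨(Finset.mem_erase.mp hy1).1, h4.2⟩)
        · intro v _ hv
          refine Finset.sum_eq_zero fun y _ => ?_
          rw [if_neg, mul_zero]
          intro h3
          exact hv ((two_free_iff_disjoint hτ m v y).mpr h3).1
      simp only [e1]
      rw [Finset.sum_comm]
      refine Finset.sum_congr rfl fun v _ => ?_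
      rw [Finset.sum_comm]
      refine Finset.sum_congr rfl fun y _ => ?_
      rw [Finset.mul_sum]
    rw [h1]
    have h2 : ∀ v y : V, y ≠ v →
        ∑ π : Ord V, (if Disjoint (seen π m) {v, τ v, y, τ y} then (1 : ℝ) else 0) ≤
          N.factorial * (s ^ 4 + (if y = τ v then s ^ 2 else 0) + (if τ v = v then s ^ 2 else 0) +
            (if τ y = y then s ^ 2 else 0)) := by
      intro v y hy
      refine (hc m {v, τ v, y, τ y} hm (by omega)).trans (mul_le_mul_of_nonneg_left ?_ hfac.le)
      have hs2 : 0 ≤ s ^ 2 := sq_nonneg s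
      have hs4 : 0 ≤ s ^ 4 := by positivity
      have i1 : 0 ≤ (if y = τ v then s ^ 2 else 0) := by split_ifs <;> linarith
      have i2 : 0 ≤ (if τ v = v then s ^ 2 else 0) := by split_ifs <;> linarith
      have i3 : 0 ≤ (if τ y = y then s ^ 2 else 0) := by split_ifs <;> linarith
      have h3 : s ^ ({v, τ v, y, τ y} : Finset V).card ≤ s ^ 2 :=
        pow_le_pow_of_le_one hs0' hs1' (card_two hy)
      by_cases c1 : y = τ v
      · rw [if_pos c1]
        linarith
      · by_cases c2 : τ v = v
        · rw [if_pos c2]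
          linarith
        · by_cases c3 : τ y = y
          · rw [if_pos c3]
            linarith
          · rw [card_four hτ hy c1 c2 c3]
            linarith
    have h3 : ∑ v, ∑ y ∈ univ.erase v, B v y *
          ∑ π : Ord V, (if Disjoint (seen π m) {v, τ v, y, τ y} then (1 : ℝ) else 0)
        ≤ ∑ v, ∑ y, B v y * (N.factorial * (s ^ 4 + (if y = τ v then s ^ 2 else 0) +
          (if τ v = v then s ^ 2 else 0) + (if τ y = y then s ^ 2 else 0))) := by
      refine Finset.sum_le_sum fun v _ => ?_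
      refine (Finset.sum_le_sum fun y hy => mul_le_mul_of_nonneg_left
        (h2 v y (Finset.mem_erase.mp hy).1) (hB.nonneg v y)).trans ?_
      refine Finset.sum_le_sum_of_subset_of_nonneg (Finset.erase_subset _ _) fun y _ _ => ?_
      refine mul_nonneg (hB.nonneg v y) (mul_nonneg hfac.le ?_)
      have hs2 : 0 ≤ s ^ 2 := sq_nonneg s
      have hs4 : 0 ≤ s ^ 4 := by positivity
      split_ifs <;> linarith
    refine h3.trans ?_
    have h4 : ∑ v, ∑ y, B v y * (N.factorial * (s ^ 4 + (if y = τ v then s ^ 2 else 0) +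
          (if τ v = v then s ^ 2 else 0) + (if τ y = y then s ^ 2 else 0)))
        = N.factorial * (s ^ 4 * (∑ v, ∑ y, B v y) + s ^ 2 * (∑ v, B v (τ v)) +
          s ^ 2 * (∑ v, (if τ v = v then (1 : ℝ) else 0) * ∑ y, B v y) +
          s ^ 2 * (∑ y, (if τ y = y then (1 : ℝ) else 0) * ∑ v, B v y)) := by
      have e1 : ∑ y, (if τ y = y then (1 : ℝ) else 0) * ∑ v, B v y
          = ∑ v, ∑ y, B v y * (if τ y = y then (1 : ℝ) else 0) := by
        rw [Finset.sum_comm]
        refine Finset.sum_congr rfl fun y _ => ?_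
        rw [Finset.mul_sum]
        exact Finset.sum_congr rfl fun v _ => mul_comm _ _
      have e2 : ∑ v, B v (τ v) = ∑ v, ∑ y, B v y * (if y = τ v then (1 : ℝ) else 0) := by
        refine Finset.sum_congr rfl fun v _ => ?_
        simp
      have e3 : ∑ v, (if τ v = v then (1 : ℝ) else 0) * ∑ y, B v y
          = ∑ v, ∑ y, B v y * (if τ v = v then (1 : ℝ) else 0) := by
        refine Finset.sum_congr rfl fun v _ => ?_
        rw [Finset.mul_sum]
        exact Finset.sum_congr rfl fun y _ => mul_comm _ _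
      rw [e1, e2, e3]
      simp only [Finset.mul_sum, ← Finset.sum_add_distrib]
      refine Finset.sum_congr rfl fun v _ => Finset.sum_congr rfl fun y _ => ?_
      split_ifs <;> ring
    rw [h4]
    refine mul_le_mul_of_nonneg_left ?_ hfac.le
    have e1 : ∑ v, ∑ y, B v y = (N : ℝ) := by
      simp only [hB.row]
      rw [Finset.sum_const, Finset.card_univ, nsmul_eq_mul, mul_one]
    have e2 : ∑ v, (if τ v = v then (1 : ℝ) else 0) * ∑ y, B v y = fixn τ := by
      simp only [hB.row, mul_one]
      rw [fixn_eq]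
    have e3 : ∑ y, (if τ y = y then (1 : ℝ) else 0) * ∑ v, B v y = fixn τ := by
      rw [fixn_eq]
      refine Finset.sum_congr rfl fun y _ => ?_
      have : ∑ v, B v y = 1 := by
        rw [← hB.row y]
        exact Finset.sum_congr rfl fun v _ => hB.symm v y
      rw [this, mul_one]
    rw [e1, e2, e3]
    have h5 : s ^ 2 * (∑ v, B v (τ v)) ≤ s ^ 2 * ρ :=
      mul_le_mul_of_nonneg_left hρ (sq_nonneg s)
    nlinarith
  · -- the next vertex
    have hi : (i : ℕ) < N := i.2
    have hi' : (0 : ℝ) < (N : ℝ) - (i : ℕ) := by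
      have : ((i : ℕ) : ℝ) < N := by exact_mod_cast hi
      linarith
    have h1 := hb i (fun π v => if v ∈ free π τ i then (1 : ℝ) else 0) (by
      intro π j hij v
      rw [(ha π τ i j i hij le_rfl).2.1])
    have h2 : ∑ π : Ord V, ∑ v ∈ (seen π i)ᶜ, (if v ∈ free π τ i then (1 : ℝ) else 0)
        = ∑ v, ∑ π : Ord V, (if v ∉ seen π i ∧ τ v ∉ seen π i then (1 : ℝ) else 0) := by
      rw [Finset.sum_comm]
      refine Finset.sum_congr rfl fun π _ => ?_
      have e1 : ∑ v ∈ (seen π i)ᶜ, (if v ∈ free π τ i then (1 : ℝ) else 0)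
          = ∑ v, (if v ∈ free π τ i then (1 : ℝ) else 0) := by
        refine Finset.sum_subset (Finset.subset_univ _) fun v _ hv => ?_
        rw [if_neg]
        intro h3
        exact hv (Finset.mem_compl.mpr ((mem_free hτ i v).mp h3).1)
      rw [e1]
      refine Finset.sum_congr rfl fun v _ => ?_
      simp only [mem_free hτ]
    have h3 : ((N : ℝ) - fixn τ) * (N.factorial * (((N : ℝ) - (i : ℕ)) * ((N : ℝ) - (i : ℕ) - 1)))
        ≤ N * ((N : ℝ) - 1) *
          ∑ v, ∑ π : Ord V, (if v ∉ seen π i ∧ τ v ∉ seen π i then (1 : ℝ) else 0) := by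
      have e1 : (N : ℝ) - fixn τ = ∑ v : V, (if τ v = v then (0 : ℝ) else 1) := by
        have e2 : (∑ v : V, (if τ v = v then (0 : ℝ) else 1)) + fixn τ = N := by
          rw [fixn_eq, ← Finset.sum_add_distrib]
          have : ∀ v : V, ((if τ v = v then (0 : ℝ) else 1) + if τ v = v then (1 : ℝ) else 0) = 1 := by
            intro v
            split_ifs <;> norm_num
          simp only [this]
          rw [Finset.sum_const, Finset.card_univ, nsmul_eq_mul, mul_one]
        linarith
      rw [e1, Finset.sum_mul, Finset.mul_sum]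
      refine Finset.sum_le_sum fun v _ => ?_
      by_cases h4 : τ v = v
      · rw [if_pos h4, zero_mul]
        refine mul_nonneg (mul_nonneg hN0.le hN1.le) (Finset.sum_nonneg fun π _ => ?_)
        split_ifs <;> norm_num
      · rw [if_neg h4, one_mul]
        exact (hd i v (τ v) hi.le (fun h => h4 h.symm)).ge
    rw [← h2, ← h1] at h3
    set X : ℝ := ∑ π : Ord V, (if π i ∈ free π τ i then (1 : ℝ) else 0) with hX
    have h5 : ((N : ℝ) - (i : ℕ)) * (((N : ℝ) - fixn τ) * (N.factorial * ((N : ℝ) - (i : ℕ) - 1)))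
        ≤ ((N : ℝ) - (i : ℕ)) * (N * ((N : ℝ) - 1) * X) := by
      calc ((N : ℝ) - (i : ℕ)) * (((N : ℝ) - fixn τ) * (N.factorial * ((N : ℝ) - (i : ℕ) - 1)))
          = ((N : ℝ) - fixn τ) * (N.factorial * (((N : ℝ) - (i : ℕ)) *
            ((N : ℝ) - (i : ℕ) - 1))) := by ring
        _ ≤ N * ((N : ℝ) - 1) * (((N : ℝ) - (i : ℕ)) * X) := h3
        _ = ((N : ℝ) - (i : ℕ)) * (N * ((N : ℝ) - 1) * X) := by ring
    have h6 := le_of_mul_le_mul_left h5 hi'
    have h7 : (N.factorial : ℝ) * (((N : ℝ) - fixn τ) / N *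
        (((N : ℝ) - 1 - (i : ℕ)) / (N - 1)))
        = ((N : ℝ) - fixn τ) * (N.factorial * ((N : ℝ) - (i : ℕ) - 1)) / (N * ((N : ℝ) - 1)) := by
      field_simp
      ring
    rw [h7, div_le_iff₀ (by positivity)]
    linarith

end Pool.Agent.Rem2
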