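import Pool.Agent.Rem2.DefsA
import Pool.Agent.Lib_helper74.Rem.Num
import Pool.Agent.Lib_helper74.Rem.Split

/-!
# MP_df1a54_co: the lower bound for `f(n, k)` from the result for slots
(`blocked2` is a sharper form of helper74's lemma `blocked`)
-/

set_option autoImplicit false

namespace Pool.Agent.Rem2

open Pool.Agent.RE26 Finset Pool.Agent.Lib_helper74.Rem Pool.Agent.Lib_helper74.Rem.SplitPf

theorem blocked2 {n : ℕ} {G : SimpleGraph (Fin n)} {k : ℕ} (hk : 1 ≤ k) (hG : KConn G k)
    (U : Finset (WT G k)) (F : Finset (ET G)) (hA : Ad hk U F) (B : Finset (ET G))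
    (hB : open Classical in ∀ e ∈ B, fa hk e ∈ U ∧ fb hk e ∈ U ∧
      ¬ Ad hk ((U.erase (fa hk e)).erase (fb hk e)) (insert e F)) : B.card ≤ U.card := by
  classical
  obtain ⟨hA1, hA2, hA3⟩ := hA
  have hm : k - 1 + 1 = k := by omega
  rcases B.eq_empty_or_nonempty with hBe | ⟨e0, he0⟩
  · rw [hBe, card_empty]
    exact Nat.zero_le _
  have key := mader_in (G.deleteEdges (sy '' (F : Set (ET G)))) (k - 1) hA1 (B.image sy)
    (U.image Sigma.fst) ⟨(fa hk e0).1, mem_image_of_mem _ (hB e0 he0).1⟩ ?_ ?_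
  · rw [Finset.card_image_of_injective _ sy_inj] at key
    exact key.le.trans card_image_le
  · intro s hs v hv
    obtain ⟨e, he, rfl⟩ := mem_image.1 hs
    obtain ⟨h1, h2, -⟩ := hB e he
    rcases Sym2.mem_iff.1 hv with h3 | h3
    · exact mem_image.2 ⟨fa hk e, h1, h3.symm⟩
    · exact mem_image.2 ⟨fb hk e, h2, h3.symm⟩
  intro x y hxy
  rw [Finset.mem_image] at hxy
  obtain ⟨e, he, hexy⟩ := hxy
  obtain ⟨h1, h2, h3⟩ := hB e he
  have hadj : G.Adj x y := by
    have : s(x, y) ∈ G.edgeSet := by
      rw [← hexy]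
      exact e.2.2
    exact this
  have heF : e ∉ F := fun h => (hA2 e h).1 h1
  have hsl := slots_of hk hadj hexy
  have hslU : sl hk hadj ∈ U := by
    rcases hsl with ⟨h4, h5⟩ | ⟨h4, h5⟩
    · rw [← h4]; exact h1
    · rw [← h5]; exact h2
  refine ⟨?_, ?_, ?_⟩
  · rw [SimpleGraph.deleteEdges_adj]
    refine ⟨hadj, ?_⟩
    rintro ⟨f, hf, hfxy⟩
    have : f = e := sy_inj (hfxy.trans hexy.symm)
    subst this
    exact heF hf
  · refine ⟨univ.filter (fun z => (G.deleteEdges (sy '' (F : Set (ET G)))).Adj x z), ?_,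
      fun z hz => (Finset.mem_filter.1 hz).2⟩
    rw [hm]
    -- removed neighbours
    have h4 : (univ.filter (fun z => G.Adj x z ∧ s(x, z) ∈ sy '' (F : Set (ET G)))).card + 1 ≤
        cc G k x := by
      have h5 : (univ.filter (fun z => G.Adj x z ∧ s(x, z) ∈ sy '' (F : Set (ET G)))).card ≤
          ((Finset.range (cc G k x)).erase (rk G x y / k)).card := by
        apply Finset.card_le_card_of_injOn (fun z => rk G x z / k)
        · intro z hz
          simp only [coe_filter, mem_univ, true_and, Set.mem_ofPred_eq] at hz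
          obtain ⟨hxz, f, hf, hfz⟩ := hz
          rw [Finset.mem_coe, Finset.mem_erase, Finset.mem_range]
          refine ⟨fun h => ?_, slot_lt hk hxz⟩
          have h6 : sl hk hxz = sl hk hadj := (sl_inj_iff hk).2 ⟨rfl, h⟩
          have h7 : sl hk hxz ∉ U := by
            rcases slots_of hk hxz hfz with ⟨h8, h9⟩ | ⟨h8, h9⟩
            · rw [← h8]; exact (hA2 f hf).1
            · rw [← h9]; exact (hA2 f hf).2
          exact h7 (h6 ▸ hslU)
        · intro z hz z' hz' hzz
          simp only [coe_filter, mem_univ, true_and, Set.mem_ofPred_eq] at hz hz'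
          obtain ⟨hxz, f, hf, hfz⟩ := hz
          obtain ⟨hxz', f', hf', hfz'⟩ := hz'
          by_contra hne
          have hff : f ≠ f' := by
            rintro rfl
            have := hfz.symm.trans hfz'
            rw [Sym2.eq_iff] at this
            rcases this with ⟨_, h⟩ | ⟨h, h'⟩
            · exact hne h
            · exact hxz'.ne h
          have h6 : sl hk hxz = sl hk hxz' := (sl_inj_iff hk).2 ⟨rfl, hzz⟩
          have h10 := hA3 f hf f' hf' hff
          rcases slots_of hk hxz hfz with ⟨h8, h9⟩ | ⟨h8, h9⟩ <;>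
          rcases slots_of hk hxz' hfz' with ⟨h8', h9'⟩ | ⟨h8', h9'⟩
          · exact h10.1 (h8.trans (h6.trans h8'.symm))
          · exact h10.2.1 (h8.trans (h6.trans h9'.symm))
          · exact h10.2.2.1 (h9.trans (h6.trans h8'.symm))
          · exact h10.2.2.2 (h9.trans (h6.trans h9'.symm))
      have h6 := slot_lt hk hadj
      have h7 : 1 ≤ cc G k x := Nat.lt_of_le_of_lt (Nat.zero_le _) h6
      rw [Finset.card_erase_of_mem (Finset.mem_range.2 h6), Finset.card_range] at h5
      clear h6
      omega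
    have h5 : dg G x = (univ.filter (fun z => (G.deleteEdges (sy '' (F : Set (ET G)))).Adj x z)).card +
        (univ.filter (fun z => G.Adj x z ∧ s(x, z) ∈ sy '' (F : Set (ET G)))).card := by
      unfold dg
      rw [← Finset.card_union_of_disjoint]
      · congr 1
        ext z
        simp only [mem_filter, mem_univ, true_and, mem_union, SimpleGraph.deleteEdges_adj]
        tauto
      · rw [Finset.disjoint_left]
        intro z hz hz'
        simp only [mem_filter, mem_univ, true_and, SimpleGraph.deleteEdges_adj] at hz hz'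
        exact hz.2 hz'.2
    have h6 := arith hk (dg_ge hG x)
    unfold cc at h4
    omega
  · intro hK
    refine h3 ⟨?_, ?_, ?_⟩
    · have : (G.deleteEdges (sy '' ((insert e F : Finset (ET G)) : Set (ET G)))) =
          (G.deleteEdges (sy '' (F : Set (ET G)))).deleteEdges {s(x, y)} := by
        rw [SimpleGraph.deleteEdges_deleteEdges, Finset.coe_insert, Set.image_insert_eq, hexy,
          Set.union_comm]
        rfl
      rw [this]
      exact hK
    · intro f hf
      rcases Finset.mem_insert.1 hf with rfl | hf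
      · exact ⟨fun h => Finset.notMem_erase _ _ (Finset.mem_of_mem_erase h),
          fun h => Finset.notMem_erase _ _ h⟩
      · exact ⟨fun h => (hA2 f hf).1 (Finset.mem_of_mem_erase (Finset.mem_of_mem_erase h)),
          fun h => (hA2 f hf).2 (Finset.mem_of_mem_erase (Finset.mem_of_mem_erase h))⟩
    · intro f hf f' hf' hne
      rcases Finset.mem_insert.1 hf with hf2 | hf2
      · rw [hf2]
        rcases Finset.mem_insert.1 hf' with hf3 | hf3
        · exact absurd (hf2.trans hf3.symm) hne
        · have h4 := hA2 f' hf3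
          exact ⟨fun h => h4.1 (h ▸ h1), fun h => h4.2 (h ▸ h1), fun h => h4.1 (h ▸ h2),
            fun h => h4.2 (h ▸ h2)⟩
      · rcases Finset.mem_insert.1 hf' with hf3 | hf3
        · rw [hf3]
          have h4 := hA2 f hf2
          exact ⟨fun h => h4.1 (h ▸ h1), fun h => h4.1 (h ▸ h2), fun h => h4.2 (h ▸ h1),
            fun h => h4.2 (h ▸ h2)⟩
        · exact hA3 f hf2 f' hf3 hne


/-- The lower bound for `r(G)`. -/
theorem rem_lower2 (h : Stmt_SLOT) (n k : ℕ) (hk8 : 8 ≤ k) (G : SimpleGraph (Fin n))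
    (hG : KConn G k) :
    (n : ℝ) / 2 * (1 - 684 * (Real.log k + 1) ^ 2 / k) ≤ (rem G k : ℝ) := by
  classical
  have hk : 1 ≤ k := by omega
  have hdg := dg_ge hG
  have hcc1 : ∀ v, 1 ≤ cc G k v := by
    intro v
    unfold cc
    rw [Nat.one_le_div_iff (by omega)]
    have := hdg v
    omega
  have hN : Fintype.card (WT G k) = ∑ v, cc G k v := by
    rw [Fintype.card_sigma]
    simp
  have hnN : n ≤ Fintype.card (WT G k) := by
    rw [hN]
    calc n = ∑ v : Fin n, 1 := by simp
      _ ≤ _ := Finset.sum_le_sum fun v _ => hcc1 v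
  have hcard := hG.1
  rw [Fintype.card_fin] at hcard
  have hen : k * n ≤ 2 * Fintype.card (ET G) := by
    rw [← sum_dg]
    calc k * n = ∑ v : Fin n, k := by simp [mul_comm]
      _ ≤ _ := Finset.sum_le_sum fun v _ => hdg v
  have hNe : k * Fintype.card (WT G k) ≤ 2 * Fintype.card (ET G) + k * n := by
    rw [← sum_dg, hN, Finset.mul_sum]
    have : k * n = ∑ v : Fin n, k := by simp [mul_comm]
    rw [this, ← Finset.sum_add_distrib]
    refine Finset.sum_le_sum fun v _ => ?_
    unfold cc
    have := Nat.mul_div_le (dg G v + k - 1) k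
    omega
  have h0 : Ad hk (univ : Finset (WT G k)) (∅ : Finset (ET G)) := by
    refine ⟨?_, by simp, by simp⟩
    rw [Finset.coe_empty, Set.image_empty, SimpleGraph.deleteEdges_empty]
    exact ⟨by have := hG.1; omega, fun S hS => hG.2 S (by omega)⟩
  have hS : SlotSys (fa hk) (fb hk) k (Ad (G := G) hk) := by
    refine ⟨?_, ?_, ?_, by omega, h0, ?_, fun U F e hA he => (hA.2.1 e he).1, ?_⟩
    · intro e h
      have := congrArg Sigma.fst h
      exact e.2.1.ne this
    · rintro e e' (⟨h1, h2⟩ | ⟨h1, h2⟩)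
      · have h3 := congrArg Sigma.fst h1
        have h4 := congrArg Sigma.fst h2
        exact Subtype.ext (Prod.ext h3 h4)
      · have h3 : e.1.1 = e'.1.2 := congrArg Sigma.fst h1
        have h4 : e.1.2 = e'.1.1 := congrArg Sigma.fst h2
        have h5 := e.2.1
        rw [h3, h4] at h5
        exact absurd h5 e'.2.1.not_gt
    · intro w
      have := card_slot hk w
      convert this
    · rintro U U' F ⟨h1, h2, h3⟩ hU
      exact ⟨h1, fun e he => ⟨fun h => (h2 e he).1 (hU h), fun h => (h2 e he).2 (hU h)⟩, h3⟩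
    · intro U F hA B hB
      refine blocked2 hk hG U F hA B ?_
      intro e he
      have := hB e he
      convert this
  obtain ⟨U, F, hA, hb⟩ := h (ET G) (WT G k) (fa hk) (fb hk) k (Ad hk) hk8 hS
  have h1 : F.card ≤ rem G k := by
    refine le_csSup (bddAbove_rem G k) ⟨F.image sy, ?_, Finset.card_image_of_injective _ sy_inj, ?_⟩
    · intro z hz
      rw [Finset.mem_coe, Finset.mem_image] at hz
      obtain ⟨e, _, rfl⟩ := hz
      exact e.2.2
    · rw [Finset.coe_image]
      exact hA.1
  have h1' : (F.card : ℝ) ≤ rem G k := by exact_mod_cast h1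
  have hen' : (k : ℝ) * n ≤ 2 * Fintype.card (ET G) := by exact_mod_cast hen
  have hNe' : (k : ℝ) * Fintype.card (WT G k) ≤ 2 * Fintype.card (ET G) + k * n := by
    exact_mod_cast hNe
  have hk0 : (0 : ℝ) < k := by
    have : (8 : ℝ) ≤ k := by exact_mod_cast hk8
    linarith
  set e : ℝ := (Fintype.card (ET G) : ℝ) with he
  set w : ℝ := (Fintype.card (WT G k) : ℝ) with hw
  set L : ℝ := Real.log k with hL
  have h2 : (n : ℝ) / 2 ≤ e / k := by
    rw [div_le_div_iff₀ (by norm_num) hk0]
    linarith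
  have h3 : w ≤ 4 * (e / k) := by
    have h4 : k * w ≤ k * (4 * (e / k)) := by
      have h5 : k * (4 * (e / k)) = 4 * e := by field_simp
      rw [h5]
      linarith
    exact le_of_mul_le_mul_left h4 hk0
  have h4 : e / k * (1 - 684 * (L + 1) ^ 2 / k) ≤ rem G k := by
    refine le_trans ?_ (hb.trans h1')
    have h5 : 171 * (w / k) * (L + 1) ^ 2 ≤ 171 * (4 * (e / k) / k) * (L + 1) ^ 2 :=
      mul_le_mul_of_nonneg_right (mul_le_mul_of_nonneg_left
        (div_le_div_of_nonneg_right h3 hk0.le) (by norm_num)) (by positivity)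
    have h6 : e / k * (1 - 684 * (L + 1) ^ 2 / k) =
        e / k - 171 * (4 * (e / k) / k) * (L + 1) ^ 2 := by ring
    rw [h6]
    linarith
  rcases le_or_gt 0 (1 - 684 * (L + 1) ^ 2 / k) with h5 | h5
  · exact (mul_le_mul_of_nonneg_right h2 h5).trans h4
  · have h6 : (n : ℝ) / 2 * (1 - 684 * (L + 1) ^ 2 / k) ≤ 0 :=
      mul_nonpos_of_nonneg_of_nonpos (by positivity) h5.le
    exact h6.trans (Nat.cast_nonneg _)

/-- The lower bound for `f(n, k)`. -/
theorem FIN (h : Stmt_SLOT) (n k : ℕ) (hk : 2 ≤ k) (hkn : k < n) :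
    (n : ℝ) / 2 * (1 - 684 * (Real.log k + 1) ^ 2 / k) ≤ (fnk n k : ℝ) := by
  rcases le_or_gt 8 k with hk8 | hk8
  · obtain ⟨G0, hG0⟩ := exists_kconn n k hkn
    have hne : {m | ∃ G : SimpleGraph (Fin n), KConn G k ∧ rem G k = m}.Nonempty :=
      ⟨rem G0 k, G0, hG0, rfl⟩
    obtain ⟨G, hG, hGm⟩ := Nat.sInf_mem hne
    have h1 : fnk n k = rem G k := hGm.symm
    rw [h1]
    exact rem_lower2 h n k hk8 G hG
  · have hkR : (k : ℝ) < 8 := by exact_mod_cast hk8
    have hk0 : (0 : ℝ) < k := by
      have : 0 < k := by omega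
      exact_mod_cast this
    have hL : 0 ≤ Real.log k := Real.log_natCast_nonneg k
    have h1 : 1 ≤ 684 * (Real.log k + 1) ^ 2 / k := by
      rw [le_div_iff₀ hk0]
      nlinarith
    have h2 : (n : ℝ) / 2 * (1 - 684 * (Real.log k + 1) ^ 2 / k) ≤ 0 :=
      mul_nonpos_of_nonneg_of_nonpos (by positivity) (by linarith)
    exact h2.trans (Nat.cast_nonneg _)

end Pool.Agent.Rem2
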