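import Pool.Agent.Rem2.Stmts

/-!
# MP_df1a54_co: the main theorem of the abstract part
-/

set_option autoImplicit false

namespace Pool.Agent.Rem2

open Finset

namespace MAIN

/-- Gibbs' inequality. -/
theorem gibbs {Ω : Type} [Fintype Ω] (P q : Ω → ℝ) (hP : ∀ x, 0 ≤ P x) (hq : ∀ x, 0 ≤ q x)
    (hP1 : ∑ x, P x = 1) (hq1 : ∑ x, q x ≤ 1) (hpos : ∀ x, 0 < P x → 0 < q x) :
    ∑ x, P x * Real.log (q x) ≤ ∑ x, P x * Real.log (P x) := by
  have h : ∀ x, P x * Real.log (q x) - P x * Real.log (P x) ≤ q x - P x := by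
    intro x
    rcases (hP x).eq_or_lt with h0 | h0
    · rw [← h0, zero_mul, zero_mul, sub_zero, sub_zero]
      exact hq x
    · have h1 := hpos x h0
      have h2 : Real.log (q x) - Real.log (P x) ≤ q x / P x - 1 := by
        rw [← Real.log_div h1.ne' h0.ne']
        exact Real.log_le_sub_one_of_pos (div_pos h1 h0)
      have h3 := mul_le_mul_of_nonneg_left h2 h0.le
      have h4 : P x * (q x / P x - 1) = q x - P x := by
        field_simp
      rw [h4] at h3
      linarith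
  have h5 := Finset.sum_le_sum (fun x (_ : x ∈ (univ : Finset Ω)) => h x)
  rw [sum_sub_distrib, sum_sub_distrib] at h5
  linarith

section

variable {V : Type} [Fintype V] [DecidableEq V]

/-- the weight of a permutation -/
def wt (B : V → V → ℝ) (σ : Equiv.Perm V) : ℝ := ∏ v, B v (σ v)

theorem wt_nonneg {B : V → V → ℝ} (hB : DS B) (σ : Equiv.Perm V) : 0 ≤ wt B σ :=
  prod_nonneg fun v _ => hB.nonneg v _

theorem pos_of_wt {B : V → V → ℝ} (hB : DS B) {σ : Equiv.Perm V} (h : 0 < wt B σ) (v : V) :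
    0 < B v (σ v) := by
  rcases (hB.nonneg v (σ v)).eq_or_lt with h0 | h0
  · exfalso
    have : wt B σ = 0 := prod_eq_zero (mem_univ v) h0.symm
    linarith
  · exact h0

theorem le_one {B : V → V → ℝ} (hB : DS B) (v y : V) : B v y ≤ 1 := by
  have h := single_le_sum (fun y _ => hB.nonneg v y) (mem_univ y)
  rw [hB.row v] at h
  exact h

theorem log_wt {B : V → V → ℝ} (hB : DS B) {σ : Equiv.Perm V} (h : 0 < wt B σ) :
    Real.log (wt B σ) = ∑ v, Real.log (B v (σ v)) :=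
  Real.log_prod fun v _ => (pos_of_wt hB h v).ne'

theorem den1_pos {B : V → V → ℝ} {μ : V → ℝ} (hB : DS B) (hμ : ∀ v, 0 < μ v) (π : Ord V)
    (f : V → V) (i : Fin (Fintype.card V)) : 0 < den1 B μ π f i := by
  unfold den1
  have h1 : 0 ≤ ∑ y ∈ ((seen π i).image f)ᶜ, B (π i) y := sum_nonneg fun y _ => hB.nonneg _ y
  have h2 := hμ (π i)
  linarith

open Classical in
/-- the number of closing times -/
noncomputable def clo (π : Ord V) (σ : Equiv.Perm V) : ℕ :=
  (univ.filter (fun i => Clo π σ i)).card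

open Classical in
theorem log_q1 {B : V → V → ℝ} {μ : V → ℝ} (hB : DS B) (hμ : ∀ v, 0 < μ v) (π : Ord V)
    {σ : Equiv.Perm V} (h : 0 < wt B σ) :
    0 < ∏ i, (B (π i) (σ (π i)) * (if Clo π σ i then Real.exp 1 else 1) / den1 B μ π σ i) ∧
    Real.log (∏ i, (B (π i) (σ (π i)) * (if Clo π σ i then Real.exp 1 else 1) /
      den1 B μ π σ i)) = Real.log (wt B σ) + clo π σ - ∑ i, Real.log (den1 B μ π σ i) := by
  have hite : ∀ i, 0 < (if Clo π σ i then Real.exp 1 else 1 : ℝ) := by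
    intro i
    split_ifs
    · exact Real.exp_pos _
    · exact one_pos
  have hpos : ∀ i, 0 < B (π i) (σ (π i)) * (if Clo π σ i then Real.exp 1 else 1) /
      den1 B μ π σ i := fun i => div_pos (mul_pos (pos_of_wt hB h _) (hite i)) (den1_pos hB hμ π σ i)
  refine ⟨prod_pos fun i _ => hpos i, ?_⟩
  rw [Real.log_prod fun i _ => (hpos i).ne']
  have h1 : ∀ i, Real.log (B (π i) (σ (π i)) * (if Clo π σ i then Real.exp 1 else 1) /
      den1 B μ π σ i) = Real.log (B (π i) (σ (π i))) + (if Clo π σ i then (1 : ℝ) else 0) -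
        Real.log (den1 B μ π σ i) := by
    intro i
    rw [Real.log_div (mul_pos (pos_of_wt hB h _) (hite i)).ne' (den1_pos hB hμ π σ i).ne',
      Real.log_mul (pos_of_wt hB h _).ne' (hite i).ne']
    split_ifs
    · rw [Real.log_exp]
    · rw [Real.log_one]
  rw [sum_congr rfl fun i _ => h1 i, sum_sub_distrib, sum_add_distrib, log_wt hB h]
  have h2 : ∑ i, Real.log (B (π i) (σ (π i))) = ∑ v, Real.log (B v (σ v)) :=
    Equiv.sum_comp π fun v => Real.log (B v (σ v))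
  have h3 : ∑ i, (if Clo π σ i then (1 : ℝ) else 0) = clo π σ := by
    unfold clo
    rw [sum_boole]
  rw [h2, h3]

/-- the number of fixed points which are free at their time -/
theorem free_iff {π : Ord V} {τ : V → V} (hτ : ∀ v, τ (τ v) = v) (v : V) (m : ℕ) :
    v ∈ free π τ m ↔ v ∉ seen π m ∧ τ v ∉ seen π m := by
  simp only [free, mem_filter, mem_univ, true_and]
  constructor
  · rintro ⟨h1, h2⟩
    exact ⟨h1, fun h3 => h2 _ h3 (hτ v)⟩
  · rintro ⟨h1, h2⟩
    refine ⟨h1, fun u hu he => h2 ?_⟩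
    rw [← he, hτ]
    exact hu

theorem mem_seen {π : Ord V} (v : V) (i : Fin (Fintype.card V)) :
    v ∈ seen π i ↔ π.symm v < i := by
  unfold seen
  rw [mem_filter]
  constructor
  · rintro ⟨-, h⟩
    exact h
  · intro h
    exact ⟨mem_univ _, h⟩

theorem free_iff' {π : Ord V} {τ : V → V} (hτ : ∀ v, τ (τ v) = v) (v : V) :
    v ∈ free π τ (π.symm v) ↔ π.symm v ≤ π.symm (τ v) := by
  rw [free_iff hτ, mem_seen, mem_seen, not_lt, not_lt]
  exact ⟨fun h => h.2, fun h => ⟨le_refl _, h⟩⟩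

/-- every pair is counted once -/
theorem pair_sum {π : Ord V} {τ : V → V} (hτ : ∀ v, τ (τ v) = v) (l : V → V → ℝ)
    (hl : ∀ v y, l v y = l y v) :
    2 * ∑ i : Fin (Fintype.card V), (if π i ∈ free π τ i then
      (if τ (π i) = π i then 0 else l (π i) (τ (π i))) else 0) =
      ∑ v, if τ v = v then 0 else l v (τ v) := by
  classical
  set t : V → Fin (Fintype.card V) := fun v => π.symm v with ht
  have h1 : ∑ i : Fin (Fintype.card V), (if π i ∈ free π τ i then
      (if τ (π i) = π i then 0 else l (π i) (τ (π i))) else 0) =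
      ∑ v, (if t v ≤ t (τ v) then (if τ v = v then 0 else l v (τ v)) else 0) := by
    rw [← Equiv.sum_comp π]
    refine sum_congr rfl fun i _ => ?_
    have h2 := free_iff' (π := π) hτ (π i)
    rw [Equiv.symm_apply_apply] at h2
    have h3 : t (π i) = i := Equiv.symm_apply_apply _ _
    rw [h3]
    by_cases h4 : i ≤ t (τ (π i))
    · rw [if_pos (h2.2 h4), if_pos h4]
    · rw [if_neg (fun h => h4 (h2.1 h)), if_neg h4]
  have h2 : ∑ v, (if t v ≤ t (τ v) then (if τ v = v then 0 else l v (τ v)) else 0) =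
      ∑ v, (if t (τ v) ≤ t v then (if τ v = v then 0 else l v (τ v)) else 0) := by
    have hinv : Function.Involutive τ := hτ
    rw [← Equiv.sum_comp hinv.toPerm]
    refine sum_congr rfl fun v _ => ?_
    have h3 : (hinv.toPerm : Equiv.Perm V) v = τ v := rfl
    rw [h3, hτ]
    by_cases h4 : τ v = v
    · simp [h4]
    · have h5 : ¬ v = τ v := fun h => h4 h.symm
      rw [if_neg h4, if_neg h5, hl]
  have h3 := h1.trans h2
  have h4 : 2 * ∑ i : Fin (Fintype.card V), (if π i ∈ free π τ i then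
      (if τ (π i) = π i then 0 else l (π i) (τ (π i))) else 0) =
      ∑ v, (if t v ≤ t (τ v) then (if τ v = v then 0 else l v (τ v)) else 0) +
      ∑ v, (if t (τ v) ≤ t v then (if τ v = v then 0 else l v (τ v)) else 0) := by
    linarith
  rw [h4, ← sum_add_distrib]
  refine sum_congr rfl fun v _ => ?_
  by_cases h5 : τ v = v
  · simp [h5]
  · have hne : t (τ v) ≠ t v := fun h => h5 (π.symm.injective h)
    rw [if_neg h5]
    rcases lt_or_gt_of_ne hne with h6 | h6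
    · rw [if_neg (not_le.2 h6), if_pos h6.le, zero_add]
    · rw [if_pos h6.le, if_neg (not_le.2 h6), add_zero]

open Classical in
/-- the sum of the logarithms of the second denominators -/
noncomputable def D2 (B : V → V → ℝ) (k : ℕ) (Blk : List (V × V) → V → V → Prop) (π : Ord V)
    (τ : V → V) : ℝ :=
  ∑ i : Fin (Fintype.card V), (if π i ∈ free π τ i then
    Real.log (den2 B k Blk π τ i (π i)) else 0)

open Classical in
theorem log_q2 {B : V → V → ℝ} {k : ℕ} {Blk : List (V × V) → V → V → Prop} {π : Ord V}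
    (hB : DS B) (hk : 1 ≤ k) {τ : V → V} (hτ : ∀ v, τ (τ v) = v) {x : ℝ}
    (hx : x = ∑ i : Fin (Fintype.card V), (if π i ∈ free π τ i then
        ((if τ (π i) = π i then -Real.log k else
            Real.log (B (π i) (τ (π i))) +
              (if Blk (past π τ i) (π i) (τ (π i)) then (1 : ℝ) else 0)) -
          Real.log (den2 B k Blk π τ i (π i)))
        else 0)) :
    -(Real.log k * fixn τ) + (∑ v, if τ v = v then 0 else Real.log (B v (τ v))) / 2 +
      blk Blk π τ - D2 B k Blk π τ ≤ x := by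
  have h1 : ∀ i : Fin (Fintype.card V), (if π i ∈ free π τ i then
        ((if τ (π i) = π i then -Real.log k else
            Real.log (B (π i) (τ (π i))) +
              (if Blk (past π τ i) (π i) (τ (π i)) then (1 : ℝ) else 0)) -
          Real.log (den2 B k Blk π τ i (π i)))
        else 0) = -Real.log k * (if π i ∈ free π τ i ∧ τ (π i) = π i then (1 : ℝ) else 0) +
        (if π i ∈ free π τ i then (if τ (π i) = π i then 0 else Real.log (B (π i) (τ (π i))))
          else 0) +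
        (if π i ∈ free π τ i ∧ τ (π i) ≠ π i ∧ Blk (past π τ i) (π i) (τ (π i)) then (1 : ℝ)
          else 0) -
        (if π i ∈ free π τ i then Real.log (den2 B k Blk π τ i (π i)) else 0) := by
    intro i
    by_cases ha : π i ∈ free π τ i
    · by_cases hb : τ (π i) = π i
      · simp [ha, hb]
      · by_cases hc : Blk (past π τ i) (π i) (τ (π i))
        · simp [ha, hb, hc]
        · simp [ha, hb, hc]
    · simp [ha]
  rw [hx, sum_congr rfl fun i _ => h1 i, sum_sub_distrib, sum_add_distrib, sum_add_distrib,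
    ← mul_sum]
  have h2 := pair_sum (π := π) hτ (fun v y => Real.log (B v y)) (fun v y => by rw [hB.symm])
  have h3 : ∑ i : Fin (Fintype.card V), (if π i ∈ free π τ i ∧ τ (π i) ≠ π i ∧
      Blk (past π τ i) (π i) (τ (π i)) then (1 : ℝ) else 0) = blk Blk π τ := by
    unfold blk
    rw [sum_boole]
    congr!
  have h4 : ∑ i : Fin (Fintype.card V), (if π i ∈ free π τ i ∧ τ (π i) = π i then (1 : ℝ)
      else 0) ≤ fixn τ := by
    rw [sum_boole]
    unfold fixn
    refine Nat.cast_le.2 (card_le_card_of_injOn π ?_ π.injective.injOn)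
    intro i hi
    simp only [coe_filter, mem_univ, true_and, Set.mem_ofPred_eq] at hi ⊢
    exact hi.2
  have h6 : 0 ≤ Real.log k := Real.log_natCast_nonneg k
  have h7 : Real.log k * ∑ i : Fin (Fintype.card V), (if π i ∈ free π τ i ∧ τ (π i) = π i
      then (1 : ℝ) else 0) ≤ Real.log k * fixn τ := mul_le_mul_of_nonneg_left h4 h6
  unfold D2
  rw [h3]
  linarith

/-- the weight of the set of starting vertices -/
noncomputable def gS (k : ℕ) (S : Finset V) : ℝ :=
  (1 / (k : ℝ)) ^ S.card * (1 - 1 / (k : ℝ)) ^ (Fintype.card V - S.card)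

theorem gS_sum (k : ℕ) : ∑ S : Finset V, gS k S = 1 := by
  have h := Finset.sum_pow_mul_eq_add_pow (1 / (k : ℝ)) (1 - 1 / (k : ℝ)) (univ : Finset V)
  rw [powerset_univ] at h
  unfold gS
  rw [card_univ] at h
  rw [h]
  norm_num

theorem log_one_sub {k : ℕ} (hk : 2 ≤ k) : -(2 / (k : ℝ)) ≤ Real.log (1 - 1 / (k : ℝ)) := by
  have hk' : (2 : ℝ) ≤ k := by exact_mod_cast hk
  have hp : 0 < 1 - 1 / (k : ℝ) := by
    rw [sub_pos, div_lt_one (by linarith)]
    linarith
  have h := Real.one_sub_inv_le_log_of_pos hp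
  refine le_trans ?_ h
  have h1 : 1 - (1 - 1 / (k : ℝ))⁻¹ = -(1 / (k - 1)) := by
    have : (k : ℝ) - 1 ≠ 0 := by linarith
    field_simp
    ring
  rw [h1, neg_le_neg_iff, div_le_div_iff₀ (by linarith) (by linarith)]
  linarith

theorem log_gS {k : ℕ} (hk : 2 ≤ k) (S : Finset V) :
    0 < gS k S ∧ -(Real.log k * S.card) - 2 * Fintype.card V / k ≤ Real.log (gS k S) := by
  have hk' : (2 : ℝ) ≤ k := by exact_mod_cast hk
  have hp : 0 < 1 - 1 / (k : ℝ) := by
    rw [sub_pos, div_lt_one (by linarith)]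
    linarith
  have hk0 : 0 < 1 / (k : ℝ) := by positivity
  refine ⟨by unfold gS; positivity, ?_⟩
  unfold gS
  rw [Real.log_mul (by positivity) (by positivity), Real.log_pow, Real.log_pow, one_div,
    Real.log_inv, ← one_div]
  have h1 := log_one_sub hk
  have h2 : ((Fintype.card V - S.card : ℕ) : ℝ) ≤ Fintype.card V := by
    exact_mod_cast Nat.sub_le _ _
  have h3 : 0 ≤ ((Fintype.card V - S.card : ℕ) : ℝ) := Nat.cast_nonneg _
  have h4 : ((Fintype.card V - S.card : ℕ) : ℝ) * -(2 / (k : ℝ)) ≤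
      ((Fintype.card V - S.card : ℕ) : ℝ) * Real.log (1 - 1 / (k : ℝ)) :=
    mul_le_mul_of_nonneg_left h1 h3
  have h5 : ((Fintype.card V - S.card : ℕ) : ℝ) * (2 / (k : ℝ)) ≤
      Fintype.card V * (2 / (k : ℝ)) := mul_le_mul_of_nonneg_right h2 (by positivity)
  have h6 : (Fintype.card V : ℝ) * (2 / (k : ℝ)) = 2 * Fintype.card V / k := by ring
  rw [h6] at h5
  linarith

/-! ### The probability measure on the permutations -/

theorem card_Ord : (Fintype.card (Ord V) : ℝ) = (Fintype.card V).factorial := by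
  have h := Fintype.card_equiv (Fintype.equivFin V).symm
  rw [Fintype.card_fin] at h
  have h2 : Fintype.card (Ord V) = (Fintype.card V).factorial := by
    rw [← h]
  exact_mod_cast h2

/-- total weight -/
noncomputable def Wt (B : V → V → ℝ) : ℝ := ∑ σ : Equiv.Perm V, wt B σ

/-- the probability of a permutation -/
noncomputable def Pr (B : V → V → ℝ) (σ : Equiv.Perm V) : ℝ := wt B σ / Wt B

theorem Wt_facts (hPER : Stmt_PER) {B : V → V → ℝ} (hB : DS B) :
    0 < Wt B ∧ -Real.log (Wt B) ≤ Fintype.card V := by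
  have h := hPER V B hB.nonneg hB.row (fun y => by
    rw [← hB.row y]
    exact sum_congr rfl fun v _ => hB.symm v y)
  have h1 : Real.exp (-(Fintype.card V : ℝ)) ≤ Wt B := h
  have h2 : 0 < Wt B := lt_of_lt_of_le (Real.exp_pos _) h1
  refine ⟨h2, ?_⟩
  have h3 := Real.log_le_log (Real.exp_pos _) h1
  rw [Real.log_exp] at h3
  linarith

theorem Pr_nonneg {B : V → V → ℝ} (hB : DS B) (h0 : 0 < Wt B) (σ : Equiv.Perm V) :
    0 ≤ Pr B σ := div_nonneg (wt_nonneg hB σ) h0.le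

theorem Pr_sum {B : V → V → ℝ} (h0 : 0 < Wt B) : ∑ σ, Pr B σ = 1 := by
  unfold Pr
  rw [← sum_div]
  exact div_self h0.ne'

theorem wt_pos {B : V → V → ℝ} (h0 : 0 < Wt B) {σ : Equiv.Perm V} (h : 0 < Pr B σ) :
    0 < wt B σ := by
  unfold Pr at h
  by_contra h1
  have h2 : wt B σ / Wt B ≤ 0 := div_nonpos_of_nonpos_of_nonneg (not_lt.1 h1) h0.le
  linarith

theorem Pr_pos_iff {B : V → V → ℝ} (hB : DS B) (h0 : 0 < Wt B) (σ : Equiv.Perm V) :
    Pr B σ = 0 ∨ 0 < Pr B σ := by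
  rcases (Pr_nonneg hB h0 σ).eq_or_lt with h | h
  · exact Or.inl h.symm
  · exact Or.inr h

/-- comparison of expectations -/
theorem E_mono {B : V → V → ℝ} (hB : DS B) (h0 : 0 < Wt B) (X Y : Equiv.Perm V → ℝ)
    (h : ∀ σ, 0 < Pr B σ → X σ ≤ Y σ) : ∑ σ, Pr B σ * X σ ≤ ∑ σ, Pr B σ * Y σ := by
  refine sum_le_sum fun σ _ => ?_
  rcases Pr_pos_iff hB h0 σ with h1 | h1
  · rw [h1, zero_mul, zero_mul]
  · exact mul_le_mul_of_nonneg_left (h σ h1) h1.le

theorem E_log {B : V → V → ℝ} (hB : DS B) (h0 : 0 < Wt B) :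
    ∑ σ, Pr B σ * Real.log (Pr B σ) =
      ∑ σ, Pr B σ * Real.log (wt B σ) - Real.log (Wt B) := by
  have h1 : ∀ σ, Pr B σ * Real.log (Pr B σ) =
      Pr B σ * Real.log (wt B σ) - Pr B σ * Real.log (Wt B) := by
    intro σ
    rcases Pr_pos_iff hB h0 σ with h | h
    · rw [h]
      ring
    · have h2 : Real.log (Pr B σ) = Real.log (wt B σ) - Real.log (Wt B) := by
        unfold Pr
        exact Real.log_div (wt_pos h0 h).ne' h0.ne'
      rw [h2]
      ring
  rw [sum_congr rfl fun σ _ => h1 σ, sum_sub_distrib, ← sum_mul, Pr_sum h0, one_mul]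

/-- the Gibbs inequality for the measure on the permutations -/
theorem gibbs_Pr {B : V → V → ℝ} (hB : DS B) (h0 : 0 < Wt B) (q X : Equiv.Perm V → ℝ)
    (hq0 : ∀ σ, 0 ≤ q σ) (hq1 : ∑ σ, q σ ≤ 1)
    (hq : ∀ σ, 0 < Pr B σ → 0 < q σ ∧ Real.log (wt B σ) + X σ ≤ Real.log (q σ)) :
    ∑ σ, Pr B σ * X σ ≤ -Real.log (Wt B) := by
  have h1 := gibbs (Pr B) q (Pr_nonneg hB h0) hq0 (Pr_sum h0) hq1 (fun σ h => (hq σ h).1)
  rw [E_log hB h0] at h1
  have h2 := E_mono hB h0 (fun σ => Real.log (wt B σ) + X σ) (fun σ => Real.log (q σ))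
    (fun σ h => (hq σ h).2)
  have h3 : ∑ σ, Pr B σ * (Real.log (wt B σ) + X σ) =
      ∑ σ, Pr B σ * Real.log (wt B σ) + ∑ σ, Pr B σ * X σ := by
    rw [← sum_add_distrib]
    exact sum_congr rfl fun σ _ => by ring
  rw [h3] at h2
  linarith

/-! ### Step 1 -/

theorem step1 (hK1 : Stmt_K1) (hC : Stmt_K1CNT) {B : V → V → ℝ} {μ : V → ℝ} (hB : DS B)
    (hBμ : ∀ v y, B v y ≤ μ v) (hμ : ∀ v, 0 < μ v) (h0 : 0 < Wt B) (π : Ord V)
    (S : Equiv.Perm V → Finset V)
    (hS : ∀ σ, ∀ s ∈ S σ, ∀ j : ℕ, (σ ^ j) s ∈ S σ → (σ ^ j) s = s) :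
    ∑ σ, Pr B σ * ((S σ).card : ℝ) ≤
      -Real.log (Wt B) + ∑ σ : Equiv.Perm V, Pr B σ * ∑ i, Real.log (den1 B μ π σ i) := by
  classical
  have h1 := gibbs_Pr hB h0
    (fun σ => ∏ i, (B (π i) (σ (π i)) * (if Clo π σ i then Real.exp 1 else 1) /
      den1 B μ π σ i))
    (fun σ => clo π σ - ∑ i, Real.log (den1 B μ π σ i))
    (fun σ => prod_nonneg fun i _ => div_nonneg (mul_nonneg (hB.nonneg _ _) (by
      split_ifs
      · exact (Real.exp_pos _).le
      · exact zero_le_one)) (den1_pos hB hμ π σ i).le)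
    (by
      have := hK1 V B μ π hB.nonneg hBμ hμ
      convert this)
    (fun σ h => by
      obtain ⟨h2, h3⟩ := log_q1 hB hμ π (wt_pos h0 h)
      refine ⟨by convert h2, ?_⟩
      have h4 : Real.log (∏ i, (B (π i) (σ (π i)) * (if Clo π σ i then Real.exp 1 else 1) /
        den1 B μ π σ i)) = Real.log (wt B σ) + clo π σ - ∑ i, Real.log (den1 B μ π σ i) := by
        convert h3
      rw [h4]
      linarith)
  have h2 : ∑ σ, Pr B σ * ((S σ).card : ℝ) ≤ ∑ σ, Pr B σ * (clo π σ : ℝ) := by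
    refine E_mono hB h0 _ _ fun σ _ => ?_
    have h3 := hC V π σ (S σ) (hS σ)
    have h4 : (S σ).card ≤ clo π σ := by
      unfold clo
      convert h3
    exact_mod_cast h4
  have h3 : ∑ σ, Pr B σ * ((clo π σ : ℝ) - ∑ i, Real.log (den1 B μ π σ i)) =
      ∑ σ, Pr B σ * (clo π σ : ℝ) -
        ∑ σ : Equiv.Perm V, Pr B σ * ∑ i, Real.log (den1 B μ π σ i) := by
    rw [← sum_sub_distrib]
    exact sum_congr rfl fun σ _ => by ring
  rw [h3] at h1
  linarith

/-- the expected number of cycles -/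
theorem cycles (hK1 : Stmt_K1) (hC : Stmt_K1CNT) (hA : Stmt_AVG1) (hPER : Stmt_PER)
    {B : V → V → ℝ} {μ : V → ℝ} {k : ℕ} (hk : 8 ≤ k) (hkN : k ≤ Fintype.card V) (hB : DS B)
    (hBμ : ∀ v y, B v y ≤ μ v) (hμ : ∀ v, 0 < μ v)
    (hμs : ∑ v, μ v ≤ (Fintype.card V : ℝ) / k + 2)
    (S : Equiv.Perm V → Finset V)
    (hS : ∀ σ, ∀ s ∈ S σ, ∀ j : ℕ, (σ ^ j) s ∈ S σ → (σ ^ j) s = s) :
    ∑ σ, Pr B σ * ((S σ).card : ℝ) ≤ (Fintype.card V : ℝ) / k * (10 * Real.log k + 20) := by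
  obtain ⟨h0, hW⟩ := Wt_facts hPER hB
  have h1 : ∑ _π : Ord V, ∑ σ, Pr B σ * ((S σ).card : ℝ) ≤
      ∑ π : Ord V, ((Fintype.card V : ℝ) +
        ∑ σ : Equiv.Perm V, Pr B σ * ∑ i, Real.log (den1 B μ π σ i)) := by
    refine sum_le_sum fun π _ => ?_
    have := step1 hK1 hC hB hBμ hμ h0 π S hS
    linarith
  rw [sum_const, card_univ, nsmul_eq_mul, sum_add_distrib, sum_const, card_univ, nsmul_eq_mul,
    card_Ord, sum_comm] at h1
  have h2 : ∑ σ : Equiv.Perm V, ∑ π : Ord V, Pr B σ * ∑ i, Real.log (den1 B μ π σ i) ≤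
      (Fintype.card V).factorial * (-(Fintype.card V : ℝ) +
      (Fintype.card V : ℝ) / k * (10 * Real.log k + 20)) := by
    have h3 : ∀ σ : Equiv.Perm V, ∑ π : Ord V, Pr B σ * ∑ i, Real.log (den1 B μ π σ i) ≤
        Pr B σ * ((Fintype.card V).factorial * (-(Fintype.card V : ℝ) +
          (Fintype.card V : ℝ) / k * (10 * Real.log k + 20))) := by
      intro σ
      rw [← mul_sum]
      exact mul_le_mul_of_nonneg_left (hA V B μ k σ hk hkN hB hBμ hμ hμs) (Pr_nonneg hB h0 σ)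
    refine (sum_le_sum fun σ _ => h3 σ).trans (le_of_eq ?_)
    rw [← sum_mul, Pr_sum h0, one_mul]
  have h4 : 0 < ((Fintype.card V).factorial : ℝ) := by exact_mod_cast Nat.factorial_pos _
  have h5 : ((Fintype.card V).factorial : ℝ) * ∑ σ, Pr B σ * ((S σ).card : ℝ) ≤
      (Fintype.card V).factorial *
        ((Fintype.card V : ℝ) / k * (10 * Real.log k + 20)) := by
    nlinarith
  exact le_of_mul_le_mul_left h5 h4

/-! ### Step 2 -/

/-- the fixed data of the second step -/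
structure Alt (M₁ M₂ : Equiv.Perm V → V → V) (S : Equiv.Perm V → Finset V) : Prop where
  inj : ∀ σ σ', M₁ σ = M₁ σ' → M₂ σ = M₂ σ' → S σ = S σ' → σ = σ'
  inv1 : ∀ σ v, M₁ σ (M₁ σ v) = v
  inv2 : ∀ σ v, M₂ σ (M₂ σ v) = v
  arc1 : ∀ (σ : Equiv.Perm V) v, M₁ σ v = v ∨ M₁ σ v = σ v ∨ M₁ σ v = σ⁻¹ v
  arc2 : ∀ (σ : Equiv.Perm V) v, M₂ σ v = v ∨ M₂ σ v = σ v ∨ M₂ σ v = σ⁻¹ v
  fix1 : ∀ σ, fixn (M₁ σ) ≤ (S σ).card
  fix2 : ∀ σ, fixn (M₂ σ) ≤ (S σ).card
  cyc : ∀ σ, ∀ s ∈ S σ, ∀ j : ℕ, (σ ^ j) s ∈ S σ → (σ ^ j) s = s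
  sum : ∀ (σ : Equiv.Perm V) (l : V → V → ℝ), (∀ v y, l v y = l y v) → (∀ v y, l v y ≤ 0) →
      2 * ∑ v, l v (σ v) ≤
        (∑ v, if M₁ σ v = v then 0 else l v (M₁ σ v)) +
        ∑ v, if M₂ σ v = v then 0 else l v (M₂ σ v)

theorem exists_alt (h : Stmt_ALT) (V : Type) [Fintype V] [DecidableEq V] :
    ∃ (M₁ M₂ : Equiv.Perm V → V → V) (S : Equiv.Perm V → Finset V), Alt M₁ M₂ S := by
  obtain ⟨M₁, M₂, S, h1, h2⟩ := h V
  exact ⟨M₁, M₂, S, h1, fun σ => (h2 σ).1, fun σ => (h2 σ).2.1, fun σ => (h2 σ).2.2.1,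
    fun σ => (h2 σ).2.2.2.1, fun σ => (h2 σ).2.2.2.2.1, fun σ => (h2 σ).2.2.2.2.2.1,
    fun σ => (h2 σ).2.2.2.2.2.2.1, fun σ => (h2 σ).2.2.2.2.2.2.2⟩

theorem arc_pos {B : V → V → ℝ} (hB : DS B) {σ : Equiv.Perm V} (h : 0 < wt B σ) {M : V → V}
    (hM : ∀ v, M v = v ∨ M v = σ v ∨ M v = σ⁻¹ v) (v : V) (hv : M v ≠ v) : 0 < B v (M v) := by
  rcases hM v with h1 | h1 | h1
  · exact absurd h1 hv
  · rw [h1]
    exact pos_of_wt hB h v
  · rw [h1, hB.symm]
    have h2 := pos_of_wt hB h (σ⁻¹ v)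
    have h3 : σ (σ⁻¹ v) = v := by simp
    rwa [h3] at h2

theorem step2 (hK2 : Stmt_K2) {B : V → V → ℝ} {k : ℕ} (hk : 8 ≤ k) (hB : DS B)
    (h0 : 0 < Wt B) (Blk : List (V × V) → V → V → Prop) (π : Ord V)
    {M₁ M₂ : Equiv.Perm V → V → V} {S : Equiv.Perm V → Finset V} (hM : Alt M₁ M₂ S) :
    ∑ σ, Pr B σ * ((blk Blk π (M₁ σ) : ℝ) + blk Blk π (M₂ σ) -
      (D2 B k Blk π (M₁ σ) + D2 B k Blk π (M₂ σ)) - 3 * Real.log k * (S σ).card -
      2 * Fintype.card V / k) ≤ -Real.log (Wt B) := by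
  classical
  obtain ⟨q, hq0, hq1, hq⟩ := hK2 V B k Blk π (by omega) hB.nonneg
  have hL : 0 ≤ Real.log k := Real.log_natCast_nonneg k
  have hgS : ∀ T : Finset V, 0 < gS k T := fun T => (log_gS (by omega) T).1
  refine gibbs_Pr hB h0 (fun σ => q (M₁ σ) * q (M₂ σ) * gS k (S σ)) _
    (fun σ => mul_nonneg (mul_nonneg (hq0 _) (hq0 _)) (hgS _).le) ?_ ?_
  · -- total mass
    have h1 : ∑ σ, q (M₁ σ) * q (M₂ σ) * gS k (S σ) =
        ∑ x ∈ (univ : Finset (Equiv.Perm V)).image (fun σ => (M₁ σ, M₂ σ, S σ)),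
          q x.1 * q x.2.1 * gS k x.2.2 := by
      rw [sum_image]
      intro σ _ σ' _ h
      simp only [Prod.mk.injEq] at h
      exact hM.inj σ σ' h.1 h.2.1 h.2.2
    rw [h1]
    have h2 : ∑ x ∈ (univ : Finset (Equiv.Perm V)).image (fun σ => (M₁ σ, M₂ σ, S σ)),
          q x.1 * q x.2.1 * gS k x.2.2 ≤
        ∑ x : (V → V) × (V → V) × Finset V, q x.1 * q x.2.1 * gS k x.2.2 :=
      sum_le_sum_of_subset_of_nonneg (subset_univ _) fun x _ _ =>
        mul_nonneg (mul_nonneg (hq0 _) (hq0 _)) (hgS _).le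
    refine h2.trans ?_
    have h3 : ∑ x : (V → V) × (V → V) × Finset V, q x.1 * q x.2.1 * gS k x.2.2 =
        (∑ f, q f) * (∑ f, q f) * ∑ T : Finset V, gS k T := by
      rw [Fintype.sum_prod_type]
      have h5 : ∀ f : V → V, ∑ y : (V → V) × Finset V, q (f, y).1 * q (f, y).2.1 *
          gS k (f, y).2.2 = q f * ((∑ g, q g) * ∑ T : Finset V, gS k T) := by
        intro f
        rw [Fintype.sum_prod_type, sum_mul, mul_sum]
        refine sum_congr rfl fun g _ => ?_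
        rw [mul_sum, mul_sum]
        exact sum_congr rfl fun T _ => by ring
      rw [sum_congr rfl fun f _ => h5 f, ← sum_mul]
      ring
    rw [h3, gS_sum, mul_one]
    have h4 : 0 ≤ ∑ f, q f := sum_nonneg fun f _ => hq0 f
    nlinarith
  · intro σ hσ
    have hw := wt_pos h0 hσ
    obtain ⟨p1, e1⟩ := hq (M₁ σ) (hM.inv1 σ) (fun v hv => arc_pos hB hw (hM.arc1 σ) v hv)
    obtain ⟨p2, e2⟩ := hq (M₂ σ) (hM.inv2 σ) (fun v hv => arc_pos hB hw (hM.arc2 σ) v hv)
    obtain ⟨p3, e3⟩ := log_gS (k := k) (by omega) (S σ)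
    refine ⟨mul_pos (mul_pos p1 p2) p3, ?_⟩
    rw [Real.log_mul (mul_pos p1 p2).ne' p3.ne', Real.log_mul p1.ne' p2.ne']
    have f1 := log_q2 (k := k) (Blk := Blk) (π := π) hB (by omega) (hM.inv1 σ)
      (x := Real.log (q (M₁ σ))) (by rw [e1])
    have f2 := log_q2 (k := k) (Blk := Blk) (π := π) hB (by omega) (hM.inv2 σ)
      (x := Real.log (q (M₂ σ))) (by rw [e2])
    have f3 : 2 * ∑ v, Real.log (B v (σ v)) ≤
        (∑ v, if M₁ σ v = v then 0 else Real.log (B v (M₁ σ v))) +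
        ∑ v, if M₂ σ v = v then 0 else Real.log (B v (M₂ σ v)) :=
      hM.sum σ (fun v y => Real.log (B v y)) (fun v y => by rw [hB.symm])
      (fun v y => Real.log_nonpos (hB.nonneg v y) (le_one hB v y))
    rw [log_wt hB hw]
    have g1 : Real.log k * (fixn (M₁ σ) : ℝ) ≤ Real.log k * (S σ).card :=
      mul_le_mul_of_nonneg_left (by exact_mod_cast hM.fix1 σ) hL
    have g2 : Real.log k * (fixn (M₂ σ) : ℝ) ≤ Real.log k * (S σ).card :=
      mul_le_mul_of_nonneg_left (by exact_mod_cast hM.fix2 σ) hL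
    have f1' : -(Real.log k * fixn (M₁ σ)) +
        (∑ v, if M₁ σ v = v then 0 else Real.log (B v (M₁ σ v))) / 2 +
        blk Blk π (M₁ σ) - D2 B k Blk π (M₁ σ) ≤ Real.log (q (M₁ σ)) := by
      convert f1
    have f2' : -(Real.log k * fixn (M₂ σ)) +
        (∑ v, if M₂ σ v = v then 0 else Real.log (B v (M₂ σ v))) / 2 +
        blk Blk π (M₂ σ) - D2 B k Blk π (M₂ σ) ≤ Real.log (q (M₂ σ)) := by
      convert f2
    linarith

end

end MAIN

open MAIN

theorem MAIN (hPER : Stmt_PER) (hK1 : Stmt_K1) (hC : Stmt_K1CNT) (hA1 : Stmt_AVG1)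
    (hALT : Stmt_ALT) (hK2 : Stmt_K2) (hA2 : Stmt_AVG2) : Stmt_MAIN := by
  classical
  intro V _ _ B μ k Blk hk hkN hB hBμ hμ hμs hF
  obtain ⟨h0, hW⟩ := Wt_facts hPER hB
  obtain ⟨M₁, M₂, S, hM⟩ := exists_alt hALT V
  have hES := cycles hK1 hC hA1 hPER hk hkN hB hBμ hμ hμs S hM.cyc
  have hL : 0 ≤ Real.log k := Real.log_natCast_nonneg k
  have hkR : (8 : ℝ) ≤ k := by exact_mod_cast hk
  have hNk : (k : ℝ) ≤ Fintype.card V := by exact_mod_cast hkN
  have hNkpos : 0 < (Fintype.card V : ℝ) / k := div_pos (by linarith) (by linarith)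
  set N : ℝ := (Fintype.card V : ℝ) with hN
  set L : ℝ := Real.log k with hLdef
  set ES : ℝ := ∑ σ, Pr B σ * ((S σ).card : ℝ) with hESdef
  have hES0 : 0 ≤ ES := sum_nonneg fun σ _ => mul_nonneg (Pr_nonneg hB h0 σ) (Nat.cast_nonneg _)
  by_contra hcon
  push Not at hcon
  have hfac : 0 < ((Fintype.card V).factorial : ℝ) := by exact_mod_cast Nat.factorial_pos _
  have hconst : ∀ c : ℝ, ∑ σ, Pr B σ * c = c := by
    intro c
    rw [← sum_mul, Pr_sum h0, one_mul]
  -- lower bound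
  have hlow : ∀ π : Ord V, 170 * (N / k) * (L + 1) ^ 2 ≤
      ES + ∑ σ, Pr B σ * ((blk Blk π (M₁ σ) : ℝ) + blk Blk π (M₂ σ)) := by
    intro π
    have h1 := E_mono hB h0 (fun _ => 170 * (N / k) * (L + 1) ^ 2)
      (fun σ => ((S σ).card : ℝ) + ((blk Blk π (M₁ σ) : ℝ) + blk Blk π (M₂ σ))) (by
        intro σ hσ
        have hw := wt_pos h0 hσ
        have h2 := hcon π (M₁ σ) (hM.inv1 σ) (fun v hv => arc_pos hB hw (hM.arc1 σ) v hv)
        have h3 := hcon π (M₂ σ) (hM.inv2 σ) (fun v hv => arc_pos hB hw (hM.arc2 σ) v hv)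
        have h4 : (fixn (M₁ σ) : ℝ) ≤ (S σ).card := by exact_mod_cast hM.fix1 σ
        have h5 : (fixn (M₂ σ) : ℝ) ≤ (S σ).card := by exact_mod_cast hM.fix2 σ
        show 170 * (N / k) * (L + 1) ^ 2 ≤ _
        linarith)
    rw [hconst] at h1
    refine h1.trans (le_of_eq ?_)
    rw [hESdef, ← sum_add_distrib]
    exact sum_congr rfl fun σ _ => by ring
  -- upper bound for one order
  have hup : ∀ π : Ord V, ∑ σ, Pr B σ * ((blk Blk π (M₁ σ) : ℝ) + blk Blk π (M₂ σ)) ≤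
      (N + 3 * L * ES + 2 * N / k) +
        ∑ σ, Pr B σ * (D2 B k Blk π (M₁ σ) + D2 B k Blk π (M₂ σ)) := by
    intro π
    have h1 := step2 hK2 hk hB h0 Blk π hM
    have h2 : ∑ σ, Pr B σ * ((blk Blk π (M₁ σ) : ℝ) + blk Blk π (M₂ σ) -
      (D2 B k Blk π (M₁ σ) + D2 B k Blk π (M₂ σ)) - 3 * Real.log k * (S σ).card -
      2 * Fintype.card V / k) =
      ∑ σ, Pr B σ * ((blk Blk π (M₁ σ) : ℝ) + blk Blk π (M₂ σ)) -
      ∑ σ, Pr B σ * (D2 B k Blk π (M₁ σ) + D2 B k Blk π (M₂ σ)) - 3 * L * ES - 2 * N / k := by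
      rw [hESdef, mul_sum]
      have h3 := hconst (2 * N / k)
      rw [← h3, ← sum_sub_distrib, ← sum_sub_distrib, ← sum_sub_distrib]
      refine sum_congr rfl fun σ _ => ?_
      rw [h3]
      ring
    rw [h2] at h1
    linarith
  -- average of the logarithms
  have hD : ∑ π : Ord V, ∑ σ, Pr B σ * (D2 B k Blk π (M₁ σ) + D2 B k Blk π (M₂ σ)) ≤
      (Fintype.card V).factorial * (-N + N / k * (10 * L + 24) + ES * (4 * L + 6)) := by
    rw [sum_comm]
    have h1 : ∀ σ, ∑ π : Ord V, Pr B σ * (D2 B k Blk π (M₁ σ) + D2 B k Blk π (M₂ σ)) ≤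
        Pr B σ * ((Fintype.card V).factorial * (-N + N / k * (10 * L + 24) +
          (S σ).card * (4 * L + 6))) := by
      intro σ
      rw [← mul_sum, sum_add_distrib]
      refine mul_le_mul_of_nonneg_left ?_ (Pr_nonneg hB h0 σ)
      have h2 := hA2 V B μ k Blk (M₁ σ) hk hkN hB hBμ hμs (hM.inv1 σ) (hF _ (hM.inv1 σ))
      have h3 := hA2 V B μ k Blk (M₂ σ) hk hkN hB hBμ hμs (hM.inv2 σ) (hF _ (hM.inv2 σ))
      have h2' : ∑ π : Ord V, D2 B k Blk π (M₁ σ) ≤ (Fintype.card V).factorial *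
          (-N / 2 + N / k * (5 * L + 12) + fixn (M₁ σ) * (2 * L + 3)) := h2
      have h3' : ∑ π : Ord V, D2 B k Blk π (M₂ σ) ≤ (Fintype.card V).factorial *
          (-N / 2 + N / k * (5 * L + 12) + fixn (M₂ σ) * (2 * L + 3)) := h3
      have h4 : (fixn (M₁ σ) : ℝ) * (2 * L + 3) ≤ (S σ).card * (2 * L + 3) :=
        mul_le_mul_of_nonneg_right (by exact_mod_cast hM.fix1 σ) (by linarith)
      have h5 : (fixn (M₂ σ) : ℝ) * (2 * L + 3) ≤ (S σ).card * (2 * L + 3) :=
        mul_le_mul_of_nonneg_right (by exact_mod_cast hM.fix2 σ) (by linarith)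
      refine (add_le_add h2' h3').trans ?_
      rw [← mul_add]
      refine mul_le_mul_of_nonneg_left ?_ hfac.le
      linarith
    refine (sum_le_sum fun σ _ => h1 σ).trans (le_of_eq ?_)
    have h2 : ∀ σ, Pr B σ * ((Fintype.card V).factorial * (-N + N / k * (10 * L + 24) +
          (S σ).card * (4 * L + 6))) =
        Pr B σ * ((Fintype.card V).factorial * (-N + N / k * (10 * L + 24))) +
        (Pr B σ * (S σ).card) * ((Fintype.card V).factorial * (4 * L + 6)) := fun σ => by ring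
    rw [sum_congr rfl fun σ _ => h2 σ, sum_add_distrib, hconst, ← sum_mul]
    ring
  -- combination
  have h1 : ∑ _π : Ord V, 170 * (N / k) * (L + 1) ^ 2 ≤
      ∑ π : Ord V, (ES + ((N + 3 * L * ES + 2 * N / k) +
        ∑ σ, Pr B σ * (D2 B k Blk π (M₁ σ) + D2 B k Blk π (M₂ σ)))) :=
    sum_le_sum fun π _ => (hlow π).trans (by linarith [hup π])
  rw [sum_add_distrib, sum_add_distrib, sum_const, sum_const, sum_const, card_univ,
    nsmul_eq_mul, nsmul_eq_mul, nsmul_eq_mul, card_Ord] at h1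
  have h2 : ((Fintype.card V).factorial : ℝ) * (170 * (N / k) * (L + 1) ^ 2) ≤
      (Fintype.card V).factorial * (N / k * (10 * L + 26) + ES * (7 * L + 7)) := by
    have h3 : ((Fintype.card V).factorial : ℝ) * (N / k * (10 * L + 26) + ES * (7 * L + 7)) =
        (Fintype.card V).factorial * ES +
        ((Fintype.card V).factorial * (N + 3 * L * ES + 2 * N / k) +
        (Fintype.card V).factorial * (-N + N / k * (10 * L + 24) + ES * (4 * L + 6))) := by
      ring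
    rw [h3]
    linarith
  have h3 := le_of_mul_le_mul_left h2 hfac
  have h4 : ES * (7 * L + 7) ≤ N / k * (10 * L + 20) * (7 * L + 7) :=
    mul_le_mul_of_nonneg_right hES (by linarith)
  have h5 : N / k * (170 * (L + 1) ^ 2) ≤
      N / k * ((10 * L + 26) + (10 * L + 20) * (7 * L + 7)) := by
    nlinarith
  have h6 := le_of_mul_le_mul_left h5 hNkpos
  nlinarith

end Pool.Agent.Rem2
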