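import Pool.Agent.Rem2.Defs

/-!
# MP_df1a54_co: statements of the modules (abstract part); proofs on paper in `H27.md`

Every module proves one `Stmt_*`, as `theorem X (h1 : Stmt_A) (h2 : Stmt_B) : Stmt_X`, taking as
hypotheses whatever earlier statements it needs.
-/

set_option autoImplicit false

namespace Pool.Agent.Rem2

open Finset

/-! ### Permanents -/

/-- `PP` does not depend on the order of the columns, and it is the permanent. -/
def Stmt_PPX : Prop :=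
  (∀ (V : Type) [DecidableEq V] (L L' : List (V → ℝ)) (S : Finset V), L.Perm L' →
    PP L S = PP L' S) ∧
  ∀ (V : Type) [Fintype V] [DecidableEq V] (B : V → V → ℝ),
    PP ((univ : Finset V).toList.map (fun y => fun v => B v y)) univ =
      ∑ σ : Equiv.Perm V, ∏ v, B v (σ v)

/-- The spectral step: `T` symmetric with positive entries outside the diagonal, `T w = w` with
`w > 0`, `T ^ 2 ≥ T` as forms; then `T ≤ 0` on the orthogonal complement of `w`. -/
def Stmt_SPEC : Prop := ∀ (ι : Type) [Fintype ι] [DecidableEq ι] (T : ι → ι → ℝ) (w : ι → ℝ),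
  (∀ i j, T i j = T j i) → (∀ i j, i ≠ j → 0 < T i j) → (∀ i, 0 ≤ T i i) → (∀ i, 0 < w i) →
  (∀ i, ∑ j, T i j * w j = w i) →
  (∀ x : ι → ℝ, ∑ i, ∑ j, x i * T i j * x j ≤ ∑ i, (∑ j, T i j * x j) ^ 2) →
  ∀ x : ι → ℝ, ∑ i, w i * x i = 0 → ∑ i, ∑ j, x i * T i j * x j ≤ 0

/-- The Alexandrov-Fenchel inequality for permanents (positive columns, `x` arbitrary). -/
def Stmt_AF : Prop := ∀ (V : Type) [DecidableEq V] (L : List (V → ℝ)) (S : Finset V)
  (x y : V → ℝ), S.card = L.length + 2 → (∀ a ∈ L, ∀ i, 0 < a i) → (∀ i, 0 < y i) →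
  PP (x :: x :: L) S * PP (y :: y :: L) S ≤ (PP (x :: y :: L) S) ^ 2

/-- Lower bound for the permanent of a positive doubly stochastic matrix. -/
def Stmt_PERPOS : Prop := ∀ (V : Type) [Fintype V] [DecidableEq V] (B : V → V → ℝ),
  (∀ v y, 0 < B v y) → (∀ v, ∑ y, B v y = 1) → (∀ y, ∑ v, B v y = 1) →
  Real.exp (-(Fintype.card V : ℝ)) ≤ ∑ σ : Equiv.Perm V, ∏ v, B v (σ v)

/-- Lower bound for the permanent of a doubly stochastic matrix. -/
def Stmt_PER : Prop := ∀ (V : Type) [Fintype V] [DecidableEq V] (B : V → V → ℝ),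
  (∀ v y, 0 ≤ B v y) → (∀ v, ∑ y, B v y = 1) → (∀ y, ∑ v, B v y = 1) →
  Real.exp (-(Fintype.card V : ℝ)) ≤ ∑ σ : Equiv.Perm V, ∏ v, B v (σ v)

/-! ### Sequential sums and random orders -/

/-- A product of conditional subprobabilities has total mass at most one. -/
def Stmt_SEQ : Prop := ∀ (V : Type) [Fintype V] [DecidableEq V] (π : Ord V)
  (K : (V → V) → Fin (Fintype.card V) → ℝ), (∀ f i, 0 ≤ K f i) →
  (∀ f g i, (∀ j, j ≤ i → f (π j) = g (π j)) → K f i = K g i) →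
  (∀ f i, ∑ y, K (Function.update f (π i) y) i ≤ 1) →
  ∑ f : V → V, ∏ i, K f i ≤ 1

/-- Uniformly random orders: (a) swapping later times does not change the past; (b) given the past,
the next vertex is uniform; (c) a set of `q` vertices is unseen with probability at most
`(1 - m / N) ^ q`; (d) exact probability for two vertices. -/
def Stmt_ORD : Prop := ∀ (V : Type) [Fintype V] [DecidableEq V],
  (∀ (π : Ord V) (f : V → V) (i j : Fin (Fintype.card V)) (m : ℕ), i ≤ j → m ≤ i →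
    seen ((Equiv.swap i j).trans π) m = seen π m ∧
    free ((Equiv.swap i j).trans π) f m = free π f m ∧
    past ((Equiv.swap i j).trans π) f m = past π f m) ∧
  (∀ (i : Fin (Fintype.card V)) (H : Ord V → V → ℝ),
    (∀ π j, i ≤ j → ∀ v, H ((Equiv.swap i j).trans π) v = H π v) →
    ((Fintype.card V : ℝ) - (i : ℕ)) * ∑ π, H π (π i) =
      ∑ π : Ord V, ∑ v ∈ (seen π i)ᶜ, H π v) ∧
  (∀ (m : ℕ) (Q : Finset V), m ≤ Fintype.card V → 1 ≤ Fintype.card V →
    ∑ π : Ord V, (if Disjoint (seen π m) Q then (1 : ℝ) else 0) ≤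
      (Fintype.card V).factorial *
        (((Fintype.card V : ℝ) - m) / Fintype.card V) ^ Q.card) ∧
  (∀ (m : ℕ) (u v : V), m ≤ Fintype.card V → u ≠ v →
    (Fintype.card V : ℝ) * ((Fintype.card V : ℝ) - 1) *
      ∑ π : Ord V, (if u ∉ seen π m ∧ v ∉ seen π m then (1 : ℝ) else 0) =
      (Fintype.card V).factorial *
        (((Fintype.card V : ℝ) - m) * ((Fintype.card V : ℝ) - m - 1)))

/-! ### Numerical sums -/

def Stmt_NUM1 : Prop := ∀ N k : ℕ, 8 ≤ k → k ≤ N →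
  ∑ j ∈ range N, Real.log (((j : ℝ) + 1) / N + 9 / k) ≤
    -N + (N : ℝ) / k * (10 * Real.log k + 20)

def Stmt_NUM2 : Prop := ∀ N k : ℕ, 8 ≤ k → k ≤ N →
  ∑ j ∈ range N, ((j : ℝ) + 1) / N * Real.log ((((j : ℝ) + 1) / N) ^ 2 + 8 / k) ≤
    -(N : ℝ) / 2 + 4 * N * (Real.log k + 2) / k + 3

def Stmt_NUM3 : Prop := ∀ N k : ℕ, 8 ≤ k → k ≤ N →
  ∑ j ∈ range N, (2 * (((j : ℝ) + 1) / N) + 5 / k) / ((((j : ℝ) + 1) / N) ^ 2 + 8 / k) ≤
    N * (Real.log k + 1)

/-! ### The two kernels -/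

/-- The first kernel: the number of closed cycles is weighted with `e`. -/
def Stmt_K1 : Prop := ∀ (V : Type) [Fintype V] [DecidableEq V] (B : V → V → ℝ) (μ : V → ℝ)
  (π : Ord V), (∀ v y, 0 ≤ B v y) → (∀ v y, B v y ≤ μ v) → (∀ v, 0 < μ v) →
  (open Classical in ∑ σ : Equiv.Perm V, ∏ i, (B (π i) (σ (π i)) *
    (if Clo π σ i then Real.exp 1 else 1) / den1 B μ π σ i)) ≤ 1

/-- A set meeting every cycle at most once has at most as many elements as there are closing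
times. -/
def Stmt_K1CNT : Prop := ∀ (V : Type) [Fintype V] [DecidableEq V] (π : Ord V)
  (σ : Equiv.Perm V) (S : Finset V), (∀ s ∈ S, ∀ j : ℕ, (σ ^ j) s ∈ S → (σ ^ j) s = s) →
  S.card ≤ (open Classical in (univ.filter (fun i => Clo π σ i)).card)

/-- The second kernel: blocked picks are weighted with `e`, fixed points with `1 / k`. -/
def Stmt_K2 : Prop := ∀ (V : Type) [Fintype V] [DecidableEq V] (B : V → V → ℝ) (k : ℕ)
  (Blk : List (V × V) → V → V → Prop) (π : Ord V), 1 ≤ k → (∀ v y, 0 ≤ B v y) →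
  ∃ q : (V → V) → ℝ, (∀ f, 0 ≤ q f) ∧ ∑ f, q f ≤ 1 ∧
  ∀ τ : V → V, (∀ v, τ (τ v) = v) → (∀ v, τ v ≠ v → 0 < B v (τ v)) →
    0 < q τ ∧ (open Classical in Real.log (q τ) =
      ∑ i : Fin (Fintype.card V), (if π i ∈ free π τ i then
        ((if τ (π i) = π i then -Real.log k else
            Real.log (B (π i) (τ (π i))) +
              (if Blk (past π τ i) (π i) (τ (π i)) then (1 : ℝ) else 0)) -
          Real.log (den2 B k Blk π τ i (π i)))
        else 0))

/-! ### The averages over the orders -/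

/-- First average. -/
def Stmt_AVG1 : Prop := ∀ (V : Type) [Fintype V] [DecidableEq V] (B : V → V → ℝ) (μ : V → ℝ)
  (k : ℕ) (σ : Equiv.Perm V), 8 ≤ k → k ≤ Fintype.card V → DS B → (∀ v y, B v y ≤ μ v) →
  (∀ v, 0 < μ v) → ∑ v, μ v ≤ (Fintype.card V : ℝ) / k + 2 →
  ∑ π : Ord V, ∑ i, Real.log (den1 B μ π σ i) ≤
    (Fintype.card V).factorial * (-(Fintype.card V : ℝ) +
      (Fintype.card V : ℝ) / k * (10 * Real.log k + 20))

open Classical in
/-- The blocked pairs of free vertices have weight at most `2 / k` times the number of free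
vertices. -/
def Forest {V : Type} [Fintype V] (B : V → V → ℝ) (k : ℕ) (Blk : List (V × V) → V → V → Prop)
    (τ : V → V) : Prop :=
  ∀ (π : Ord V) (m : ℕ), ∑ v ∈ free π τ m, ∑ y ∈ free π τ m,
    (if Blk (past π τ m) v y then B v y else 0) ≤ 2 / (k : ℝ) * (free π τ m).card

/-- Expectations of the free vertices: number, weight of the free pairs, and the probability that
the next vertex is free. -/
def Stmt_EFREE : Prop := ∀ (V : Type) [Fintype V] [DecidableEq V] (τ : V → V),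
  2 ≤ Fintype.card V → (∀ v, τ (τ v) = v) →
  (∀ m : ℕ, m ≤ Fintype.card V →
    ∑ π : Ord V, ((free π τ m).card : ℝ) ≤ (Fintype.card V).factorial *
      (Fintype.card V * (((Fintype.card V : ℝ) - m) / Fintype.card V) ^ 2 +
        fixn τ * (((Fintype.card V : ℝ) - m) / Fintype.card V))) ∧
  (∀ (B : V → V → ℝ) (ρ : ℝ) (m : ℕ), m ≤ Fintype.card V → DS B → ∑ v, B v (τ v) ≤ ρ →
    ∑ π : Ord V, ∑ v ∈ free π τ m, ∑ y ∈ (free π τ m).erase v, B v y ≤
      (Fintype.card V).factorial *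
      (Fintype.card V * (((Fintype.card V : ℝ) - m) / Fintype.card V) ^ 4 +
        (ρ + 2 * fixn τ) * (((Fintype.card V : ℝ) - m) / Fintype.card V) ^ 2)) ∧
  ∀ i : Fin (Fintype.card V), (Fintype.card V).factorial *
      (((Fintype.card V : ℝ) - fixn τ) / Fintype.card V *
        (((Fintype.card V : ℝ) - 1 - (i : ℕ)) / (Fintype.card V - 1))) ≤
      ∑ π : Ord V, (if π i ∈ free π τ i then (1 : ℝ) else 0)

/-- Expectation of the second denominator. -/
def Stmt_ED : Prop := ∀ (V : Type) [Fintype V] [DecidableEq V] (B : V → V → ℝ) (μ : V → ℝ)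
  (k : ℕ) (Blk : List (V × V) → V → V → Prop) (τ : V → V), 8 ≤ k → k ≤ Fintype.card V → DS B →
  (∀ v y, B v y ≤ μ v) → ∑ v, μ v ≤ (Fintype.card V : ℝ) / k + 2 → (∀ v, τ (τ v) = v) →
  Forest B k Blk τ → ∀ (i : Fin (Fintype.card V)) (s : ℝ),
  s = ((Fintype.card V : ℝ) - (i : ℕ)) / Fintype.card V →
  ∑ π : Ord V, (if π i ∈ free π τ i then den2 B k Blk π τ i (π i) else 0) ≤
    (Fintype.card V).factorial *
      (s * (s ^ 2 + 8 / k) + fixn τ / Fintype.card V * (2 * s + 5 / k))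

/-- Second average. -/
def Stmt_AVG2 : Prop := ∀ (V : Type) [Fintype V] [DecidableEq V] (B : V → V → ℝ) (μ : V → ℝ)
  (k : ℕ) (Blk : List (V × V) → V → V → Prop) (τ : V → V), 8 ≤ k → k ≤ Fintype.card V → DS B →
  (∀ v y, B v y ≤ μ v) → ∑ v, μ v ≤ (Fintype.card V : ℝ) / k + 2 → (∀ v, τ (τ v) = v) →
  Forest B k Blk τ →
  (open Classical in ∑ π : Ord V, ∑ i : Fin (Fintype.card V), (if π i ∈ free π τ i then
    Real.log (den2 B k Blk π τ i (π i)) else 0)) ≤
    (Fintype.card V).factorial * (-(Fintype.card V : ℝ) / 2 +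
      (Fintype.card V : ℝ) / k * (5 * Real.log k + 12) + fixn τ * (2 * Real.log k + 3))

/-! ### Alternating matchings of the cycles -/

/-- From a permutation to two involutions (alternating arcs of the cycles) and one vertex of every
cycle. -/
def Stmt_ALT : Prop := ∀ (V : Type) [Fintype V] [DecidableEq V],
  ∃ (M₁ M₂ : Equiv.Perm V → V → V) (S : Equiv.Perm V → Finset V),
  (∀ σ σ', M₁ σ = M₁ σ' → M₂ σ = M₂ σ' → S σ = S σ' → σ = σ') ∧
  ∀ σ : Equiv.Perm V,
    (∀ v, M₁ σ (M₁ σ v) = v) ∧ (∀ v, M₂ σ (M₂ σ v) = v) ∧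
    (∀ v, M₁ σ v = v ∨ M₁ σ v = σ v ∨ M₁ σ v = σ⁻¹ v) ∧
    (∀ v, M₂ σ v = v ∨ M₂ σ v = σ v ∨ M₂ σ v = σ⁻¹ v) ∧
    fixn (M₁ σ) ≤ (S σ).card ∧ fixn (M₂ σ) ≤ (S σ).card ∧
    (∀ s ∈ S σ, ∀ j : ℕ, (σ ^ j) s ∈ S σ → (σ ^ j) s = s) ∧
    ∀ l : V → V → ℝ, (∀ v y, l v y = l y v) → (∀ v y, l v y ≤ 0) →
      2 * ∑ v, l v (σ v) ≤
        (∑ v, if M₁ σ v = v then 0 else l v (M₁ σ v)) +
        ∑ v, if M₂ σ v = v then 0 else l v (M₂ σ v)

/-! ### The main theorem of the abstract part -/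

def Stmt_MAIN : Prop := ∀ (V : Type) [Fintype V] [DecidableEq V] (B : V → V → ℝ) (μ : V → ℝ)
  (k : ℕ) (Blk : List (V × V) → V → V → Prop), 8 ≤ k → k ≤ Fintype.card V → DS B →
  (∀ v y, B v y ≤ μ v) → (∀ v, 0 < μ v) → ∑ v, μ v ≤ (Fintype.card V : ℝ) / k + 2 →
  (∀ τ : V → V, (∀ v, τ (τ v) = v) → Forest B k Blk τ) →
  ∃ (π : Ord V) (τ : V → V), (∀ v, τ (τ v) = v) ∧ (∀ v, τ v ≠ v → 0 < B v (τ v)) ∧
    (fixn τ : ℝ) / 2 + blk Blk π τ ≤
      85 * ((Fintype.card V : ℝ) / k) * (Real.log k + 1) ^ 2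

end Pool.Agent.Rem2
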